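import Pool.Agent.Lib_helper68.HL4.Defs3
/-! Block LA of HL4: bound and continuity of `P`. -/

set_option autoImplicit false

namespace Pool.Agent.HL4

open UpperHalfPlane hiding I
open Complex MeasureTheory Filter Topology NumberField
open Pool.Agent.HSG (Em Lat IsInt nI NCl dgm lz)
open Pool.Agent.HSG.N (Prim LForm QF v2 HK LamH GG Gb pz)
open scoped nonZeroDivisors MatrixGroups

variable {M k0 k1 : ℕ} {P : ZMod M → ZMod M → ℂ → ℂ → ℂ}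

/-- LA -/
theorem pf_bd (h : PF M k0 k1 P) {R : ℝ} (hR : 1 ≤ R) : ∃ C : ℝ, 0 < C ∧
    ∀ (y : ℝ) (x x' : ZMod M) (Z W : ℂ), 0 < y → y / R ≤ Z.im → y / R ≤ W.im →
      ‖P x x' Z W‖ ≤ C * y ^ (-kk k0 k1) := by
  obtain ⟨C, hC, hb⟩ := h.bdd
  have hR0 : 0 < R := by linarith
  refine ⟨C * R ^ kk k0 k1, mul_pos hC (Real.rpow_pos_of_pos hR0 _),
    fun y x x' Z W hy hZ hW => ?_⟩
  have hyR : 0 < y / R := div_pos hy hR0
  have h1 := hb x x' Z W (hyR.trans_le hZ) (hyR.trans_le hW)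
  have h2 : Z.im ^ (-((k0 : ℝ) / 2)) ≤ (y / R) ^ (-((k0 : ℝ) / 2)) :=
    Real.rpow_le_rpow_of_nonpos hyR hZ (by have : (0 : ℝ) ≤ k0 := k0.cast_nonneg; linarith)
  have h3 : W.im ^ (-((k1 : ℝ) / 2)) ≤ (y / R) ^ (-((k1 : ℝ) / 2)) :=
    Real.rpow_le_rpow_of_nonpos hyR hW (by have : (0 : ℝ) ≤ k1 := k1.cast_nonneg; linarith)
  have e1 : (y / R) ^ (-((k0 : ℝ) / 2)) * (y / R) ^ (-((k1 : ℝ) / 2)) =
      R ^ kk k0 k1 * y ^ (-kk k0 k1) := by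
    rw [← Real.rpow_add hyR]
    have e2 : -((k0 : ℝ) / 2) + -((k1 : ℝ) / 2) = -kk k0 k1 := by
      unfold kk
      ring
    rw [e2, Real.div_rpow hy.le hR0.le, Real.rpow_neg hR0.le, div_inv_eq_mul, mul_comm]
  calc ‖P x x' Z W‖ ≤ C * Z.im ^ (-((k0 : ℝ) / 2)) * W.im ^ (-((k1 : ℝ) / 2)) := h1
    _ ≤ C * (y / R) ^ (-((k0 : ℝ) / 2)) * (y / R) ^ (-((k1 : ℝ) / 2)) := by
        have h4 : 0 ≤ W.im ^ (-((k1 : ℝ) / 2)) :=
          Real.rpow_nonneg (hyR.trans_le hW).le _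
        have h5 : 0 ≤ (y / R) ^ (-((k0 : ℝ) / 2)) := Real.rpow_nonneg hyR.le _
        exact mul_le_mul (mul_le_mul_of_nonneg_left h2 hC.le) h3 h4 (mul_nonneg hC.le h5)
    _ = C * R ^ kk k0 k1 * y ^ (-kk k0 k1) := by rw [mul_assoc, e1, mul_assoc]

/-- LA -/
theorem pf_cont (h : PF M k0 k1 P) (x x' : ZMod M) {s : Set ℝ} {f g : ℝ → ℂ}
    (hf : ContinuousOn f s) (hg : ContinuousOn g s) (hf0 : ∀ t ∈ s, 0 < (f t).im)
    (hg0 : ∀ t ∈ s, 0 < (g t).im) : ContinuousOn (fun t => P x x' (f t) (g t)) s :=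
  (h.holo x x').continuousOn.comp (hf.prodMk hg) fun t ht => ⟨hf0 t ht, hg0 t ht⟩


end Pool.Agent.HL4
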