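import Pool.Agent.Lib_helper68.HL4.Defs3
import Pool.Agent.Lib_helper68.HL4F.LA
namespace Pool.Agent.HL4

open UpperHalfPlane hiding I
open Complex MeasureTheory Filter Topology NumberField
open Pool.Agent.HSG (Em Lat IsInt nI NCl dgm lz)
open Pool.Agent.HSG.N (Prim LForm QF v2 HK LamH GG Gb pz)
open scoped nonZeroDivisors MatrixGroups

variable {M k0 k1 : ℕ} {P : ZMod M → ZMod M → ℂ → ℂ → ℂ}

theorem pf_per (h : PF M k0 k1 P) {Z W : ℂ} (hZ : 0 < Z.im) (hW : 0 < W.im) :
    P 0 1 (Z + 1) (W - 1) = P 0 1 Z W := by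
  have := h.mod 1 1 0 1 (by norm_num) 0 1 Z W hZ hW
  simpa using this

/-- the function of the shift -/
noncomputable def ma_phi (P : ZMod M → ZMod M → ℂ → ℂ → ℂ) (u1 u2 s : ℂ) : ℂ :=
  ∫ x in (0 : ℝ)..1, P 0 1 (x + u1 + s) (-x + u2 - s)

theorem ma_G_diff (h : PF M k0 k1 P) {u1 u2 : ℂ} (x : ℝ) :
    DifferentiableOn ℂ (fun s : ℂ => P 0 1 (x + u1 + s) (-x + u2 - s))
      {s : ℂ | -u1.im < s.im ∧ s.im < u2.im} := by
  refine (h.holo 0 1).comp (f := fun s : ℂ => ((x + u1 + s : ℂ), (-x + u2 - s : ℂ)))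
    (by fun_prop) (fun s hs => ?_)
  obtain ⟨h1, h2⟩ := hs
  constructor
  · show 0 < ((x : ℂ) + u1 + s).im
    simp only [Complex.add_im, Complex.ofReal_im]
    linarith
  · show 0 < (-(x : ℂ) + u2 - s).im
    simp only [Complex.add_im, Complex.sub_im, Complex.neg_im, Complex.ofReal_im]
    linarith

theorem ma_open (a b : ℝ) : IsOpen {s : ℂ | a < s.im ∧ s.im < b} :=
  (isOpen_lt continuous_const Complex.continuous_im).inter
    (isOpen_lt Complex.continuous_im continuous_const)

/-- the integrand is continuous in `x` -/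
theorem ma_G_cont (h : PF M k0 k1 P) {u1 u2 s : ℂ} (h1 : -u1.im < s.im) (h2 : s.im < u2.im) :
    Continuous (fun x : ℝ => P 0 1 (x + u1 + s) (-x + u2 - s)) := by
  rw [← continuousOn_univ]
  apply pf_cont h
  · fun_prop
  · fun_prop
  · intro x _
    simp only [Complex.add_im, Complex.ofReal_im]
    linarith
  · intro x _
    simp only [Complex.add_im, Complex.sub_im, Complex.neg_im, Complex.ofReal_im]
    linarith

theorem ma_phi_diff (h : PF M k0 k1 P) {u1 u2 : ℂ} :
    DifferentiableOn ℂ (ma_phi P u1 u2) {s : ℂ | -u1.im < s.im ∧ s.im < u2.im} := by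
  intro s0 hs0
  obtain ⟨h1, h2⟩ := hs0
  obtain ⟨r, hr, hr1, hr2⟩ : ∃ r : ℝ, 0 < r ∧ 2 * r < s0.im + u1.im ∧ 2 * r < u2.im - s0.im := by
    refine ⟨min (s0.im + u1.im) (u2.im - s0.im) / 4, ?_, ?_, ?_⟩
    · have := lt_min (show 0 < s0.im + u1.im by linarith) (show 0 < u2.im - s0.im by linarith)
      positivity
    · have := min_le_left (s0.im + u1.im) (u2.im - s0.im)
      have := lt_min (show 0 < s0.im + u1.im by linarith) (show 0 < u2.im - s0.im by linarith)
      linarith
    · have := min_le_right (s0.im + u1.im) (u2.im - s0.im)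
      have := lt_min (show 0 < s0.im + u1.im by linarith) (show 0 < u2.im - s0.im by linarith)
      linarith
  have hball : ∀ s : ℂ, ‖s - s0‖ ≤ r → -u1.im + r < s.im ∧ s.im < u2.im - r := by
    intro s hs
    have h3 := (Complex.abs_im_le_norm (s - s0)).trans hs
    rw [Complex.sub_im, abs_le] at h3
    constructor <;> linarith [h3.1, h3.2]
  -- bound on the region
  obtain ⟨C, hC, hb⟩ := pf_bd h (R := 1) le_rfl
  set A : ℝ := C * r ^ (-kk k0 k1) with hA
  have hbd : ∀ (s : ℂ) (x : ℝ), ‖s - s0‖ ≤ r → ‖P 0 1 (x + u1 + s) (-x + u2 - s)‖ ≤ A := by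
    intro s x hs
    obtain ⟨h4, h5⟩ := hball s hs
    refine hb r 0 1 _ _ hr ?_ ?_
    · simp only [Complex.add_im, Complex.ofReal_im, div_one]
      linarith
    · simp only [Complex.add_im, Complex.sub_im, Complex.neg_im, Complex.ofReal_im, div_one]
      linarith
  have hdiff : ∀ (x : ℝ) (s : ℂ), ‖s - s0‖ ≤ r → DifferentiableAt ℂ
      (fun s : ℂ => P 0 1 (x + u1 + s) (-x + u2 - s)) s := by
    intro x s hs
    obtain ⟨h4, h5⟩ := hball s hs
    exact (ma_G_diff h x s ⟨by linarith, by linarith⟩).differentiableAt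
      ((ma_open _ _).mem_nhds ⟨by linarith, by linarith⟩)
  have hdb : ∀ (x : ℝ) (s : ℂ), s ∈ Metric.ball s0 (r / 2) →
      ‖deriv (fun s : ℂ => P 0 1 (x + u1 + s) (-x + u2 - s)) s‖ ≤ A / (r / 2) := by
    intro x s hs
    rw [Metric.mem_ball, dist_eq_norm] at hs
    refine Complex.norm_deriv_le_of_forall_mem_sphere_norm_le (by positivity) ?_ ?_
    · refine DifferentiableOn.diffContOnCl ?_
      rw [closure_ball s (by positivity : r / 2 ≠ 0)]
      intro v hv
      rw [Metric.mem_closedBall, dist_eq_norm] at hv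
      refine (hdiff x v ?_).differentiableWithinAt
      have := norm_sub_le_norm_sub_add_norm_sub v s s0
      linarith
    · intro v hv
      rw [Metric.mem_sphere, dist_eq_norm] at hv
      apply hbd
      have := norm_sub_le_norm_sub_add_norm_sub v s s0
      linarith
  have hF := intervalIntegral.hasDerivAt_integral_of_dominated_loc_of_deriv_le
    (μ := volume) (a := 0) (b := 1) (𝕜 := ℂ)
    (F := fun (s : ℂ) (x : ℝ) => P 0 1 (x + u1 + s) (-x + u2 - s)) (x₀ := s0)
    (s := Metric.ball s0 (r / 2)) (bound := fun _ => A / (r / 2))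
    (F' := fun (s : ℂ) (x : ℝ) => deriv (fun s : ℂ => P 0 1 (x + u1 + s) (-x + u2 - s)) s)
    (Metric.ball_mem_nhds _ (by positivity)) ?_ ?_ ?_ ?_ ?_ ?_
  · exact hF.2.differentiableAt.differentiableWithinAt
  · filter_upwards [Metric.ball_mem_nhds s0 (show 0 < r by positivity)] with s hs
    rw [Metric.mem_ball, dist_eq_norm] at hs
    obtain ⟨h4, h5⟩ := hball s hs.le
    exact (ma_G_cont h (by linarith) (by linarith)).aestronglyMeasurable
  · exact (ma_G_cont h (u1 := u1) (u2 := u2) (s := s0) h1 h2).intervalIntegrable _ _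
  · -- the derivative in s is a limit of difference quotients in a sequence
    have hlim : ∀ x : ℝ, Tendsto (fun n : ℕ => ((n : ℂ) + 1) *
        (P 0 1 (x + u1 + (s0 + (((r / 4) / (n + 1) : ℝ) : ℂ))) (-x + u2 - (s0 + (((r / 4) / (n + 1) : ℝ) : ℂ))) -
          P 0 1 (x + u1 + s0) (-x + u2 - s0)) / (((r / 4 : ℝ)) : ℂ)) atTop
        (𝓝 (deriv (fun s : ℂ => P 0 1 (x + u1 + s) (-x + u2 - s)) s0)) := by
      intro x
      have h7 := (hdiff x s0 (by simpa using hr.le)).hasDerivAt
      have h8 := h7.tendsto_slope_zero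
      have h9 : Tendsto (fun n : ℕ => ((((r / 4) / ((n : ℝ) + 1) : ℝ)) : ℂ)) atTop (𝓝[≠] 0) := by
        rw [tendsto_nhdsWithin_iff]
        constructor
        · have : Tendsto (fun n : ℕ => (r / 4) / ((n : ℝ) + 1)) atTop (𝓝 0) :=
            tendsto_const_nhds.div_atTop (tendsto_atTop_add_const_right _ _ tendsto_natCast_atTop_atTop)
          exact (by simpa using (Complex.continuous_ofReal.tendsto 0).comp this :
            Tendsto (Complex.ofReal ∘ fun n : ℕ => (r / 4) / ((n : ℝ) + 1)) atTop (𝓝 0))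
        · refine Eventually.of_forall fun n => ?_
          have : (0 : ℝ) < (r / 4) / ((n : ℝ) + 1) := by positivity
          show ((((r / 4) / ((n : ℝ) + 1) : ℝ)) : ℂ) ≠ 0
          exact_mod_cast this.ne'
      refine (h8.comp h9).congr fun n => ?_
      have hn : ((n : ℂ) + 1) ≠ 0 := Nat.cast_add_one_ne_zero n
      have hr4 : ((r : ℝ) : ℂ) ≠ 0 := by exact_mod_cast hr.ne'
      simp only [Function.comp, smul_eq_mul]
      push_cast
      field_simp
    refine aestronglyMeasurable_of_tendsto_ae atTop (f := fun (n : ℕ) (x : ℝ) => ((n : ℂ) + 1) *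
        (P 0 1 (x + u1 + (s0 + (((r / 4) / (n + 1) : ℝ) : ℂ))) (-x + u2 - (s0 + (((r / 4) / (n + 1) : ℝ) : ℂ))) -
          P 0 1 (x + u1 + s0) (-x + u2 - s0)) / (((r / 4 : ℝ)) : ℂ)) ?_ (Eventually.of_forall hlim)
    intro n
    have hc1 := ma_G_cont h (u1 := u1) (u2 := u2) (s := s0) h1 h2
    have hc2 := ma_G_cont h (u1 := u1) (u2 := u2) (s := s0 + (((r / 4) / (n + 1) : ℝ) : ℂ))
      (by rw [Complex.add_im, Complex.ofReal_im, add_zero]; exact h1)
      (by rw [Complex.add_im, Complex.ofReal_im, add_zero]; exact h2)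
    exact ((continuous_const.mul (hc2.sub hc1)).div_const _).aestronglyMeasurable
  · exact Eventually.of_forall fun x _ s hs => hdb x s hs
  · exact intervalIntegrable_const
  · refine Eventually.of_forall fun x _ s hs => ?_
    rw [Metric.mem_ball, dist_eq_norm] at hs
    exact (hdiff x s (by linarith)).hasDerivAt

/-- real shifts do not change the integral -/
theorem ma_phi_real (h : PF M k0 k1 P) {u1 u2 s : ℂ} (h1 : -u1.im < s.im) (h2 : s.im < u2.im)
    (t : ℝ) : ma_phi P u1 u2 (s + t) = ma_phi P u1 u2 s := by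
  unfold ma_phi
  set f : ℝ → ℂ := fun x => P 0 1 (x + u1 + s) (-x + u2 - s) with hf
  have hper : Function.Periodic f 1 := by
    intro x
    have h3 : 0 < ((x : ℂ) + u1 + s).im := by
      simp only [Complex.add_im, Complex.ofReal_im]
      linarith
    have h4 : 0 < (-(x : ℂ) + u2 - s).im := by
      simp only [Complex.add_im, Complex.sub_im, Complex.neg_im, Complex.ofReal_im]
      linarith
    have := pf_per h h3 h4
    simp only [hf]
    rw [← this]
    push_cast
    congr 1 <;> ring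
  have e1 : ∀ x : ℝ, P 0 1 (x + u1 + (s + t)) (-x + u2 - (s + t)) = f (x + t) := by
    intro x
    simp only [hf]
    push_cast
    congr 1 <;> ring
  simp_rw [e1]
  rw [intervalIntegral.integral_comp_add_right]
  have := hper.intervalIntegral_add_eq (0 + t) 0
  rw [zero_add] at this
  rw [show (1 : ℝ) + t = t + 1 by ring, zero_add, this, zero_add]

theorem ma_shift (h : PF M k0 k1 P) {u1 u2 : ℂ} (h1 : 0 < u1.im) (h2 : 0 < u2.im) :
    ∫ x in (0 : ℝ)..1, P 0 1 (x + u1) (-x + u2) = mA P (u1 + u2) := by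
  have hopen := ma_open (-u1.im) u2.im
  have hconv : Convex ℝ {s : ℂ | -u1.im < s.im ∧ s.im < u2.im} :=
    (convex_halfSpace_im_gt _).inter (convex_halfSpace_im_lt _)
  have hd := ma_phi_diff h (u1 := u1) (u2 := u2)
  have hz : ∀ s ∈ {s : ℂ | -u1.im < s.im ∧ s.im < u2.im}, deriv (ma_phi P u1 u2) s = 0 := by
    intro s hs
    have h3 := ((hd s hs).differentiableAt (hopen.mem_nhds hs)).hasDerivAt
    have h4 : HasDerivAt (fun t : ℝ => ma_phi P u1 u2 (s + t)) (deriv (ma_phi P u1 u2) s) 0 := by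
      have h5 : HasDerivAt (fun z : ℂ => ma_phi P u1 u2 (s + z)) (deriv (ma_phi P u1 u2) s)
          ((0 : ℝ) : ℂ) := by
        have h6 : HasDerivAt (fun z : ℂ => s + z) 1 ((0 : ℝ) : ℂ) := (hasDerivAt_id _).const_add s
        have h7 : HasDerivAt (ma_phi P u1 u2) (deriv (ma_phi P u1 u2) s) (s + ((0 : ℝ) : ℂ)) := by
          simpa using h3
        have := h7.comp ((0 : ℝ) : ℂ) h6
        rwa [mul_one] at this
      exact h5.comp_ofReal
    have h8 : (fun t : ℝ => ma_phi P u1 u2 (s + t)) = fun _ => ma_phi P u1 u2 s := by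
      funext t
      exact ma_phi_real h hs.1 hs.2 t
    rw [h8] at h4
    exact h4.unique (hasDerivAt_const _ _)
  have h0 : (0 : ℂ) ∈ {s : ℂ | -u1.im < s.im ∧ s.im < u2.im} := by
    constructor <;> simp [h1, h2]
  have hs : ((u2 - u1) / 2) ∈ {s : ℂ | -u1.im < s.im ∧ s.im < u2.im} := by
    have e : ((u2 - u1) / 2).im = (u2.im - u1.im) / 2 := by
      rw [show (2 : ℂ) = ((2 : ℝ) : ℂ) by norm_num, Complex.div_ofReal_im, Complex.sub_im]
    constructor
    · show -u1.im < ((u2 - u1) / 2).im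
      rw [e]
      linarith
    · show ((u2 - u1) / 2).im < u2.im
      rw [e]
      linarith
  have key := hconv.is_const_of_fderivWithin_eq_zero (𝕜 := ℂ) hd (fun s hs => by
    rw [fderivWithin_of_isOpen hopen hs]
    ext
    simpa using hz s hs) h0 hs
  have e1 : ma_phi P u1 u2 0 = ∫ x in (0 : ℝ)..1, P 0 1 (x + u1) (-x + u2) := by
    unfold ma_phi
    simp
  have e2 : ma_phi P u1 u2 ((u2 - u1) / 2) = mA P (u1 + u2) := by
    unfold ma_phi mA
    congr 1
    funext x
    congr 1 <;> ring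
  rw [← e1, key, e2]


end Pool.Agent.HL4
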