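import Pool.Agent.Lib_helper68.HL4.Defs3
/-!
# HL4, block CA: facts about `h` on the real line
-/

set_option autoImplicit false

namespace Pool.Agent.HL4

open UpperHalfPlane hiding I
open Complex MeasureTheory Filter Topology NumberField
open Pool.Agent.HSG (Em Lat IsInt nI NCl dgm lz)
open Pool.Agent.HSG.N (Prim LForm QF v2 HK LamH GG Gb pz)
open scoped nonZeroDivisors MatrixGroups

theorem ca_deriv (v : ℝ) : HasDerivAt hr (hd v) v := by
  have h0 : Real.exp v + 1 ≠ 0 := (by positivity : 0 < Real.exp v + 1).ne'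
  have h1 : HasDerivAt (fun v : ℝ => (Real.exp v - 1) / (Real.exp v + 1))
      ((Real.exp v * (Real.exp v + 1) - (Real.exp v - 1) * Real.exp v) / (Real.exp v + 1) ^ 2) v :=
    ((Real.hasDerivAt_exp v).sub_const 1).div ((Real.hasDerivAt_exp v).add_const 1) h0
  have h2 : (Real.exp v * (Real.exp v + 1) - (Real.exp v - 1) * Real.exp v) /
      (Real.exp v + 1) ^ 2 = hd v := by
    unfold hd
    congr 1
    ring
  rw [h2] at h1
  exact h1

theorem ca_hd_deriv (v : ℝ) : HasDerivAt hd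
    ((2 * Real.exp v * (Real.exp v + 1) ^ 2 -
      2 * Real.exp v * (2 * (Real.exp v + 1) * Real.exp v)) / ((Real.exp v + 1) ^ 2) ^ 2) v := by
  have h0 : (Real.exp v + 1) ^ 2 ≠ 0 := (by positivity : 0 < (Real.exp v + 1) ^ 2).ne'
  have h1 : HasDerivAt (fun v : ℝ => 2 * Real.exp v) (2 * Real.exp v) v :=
    (Real.hasDerivAt_exp v).const_mul 2
  have h2 : HasDerivAt (fun v : ℝ => (Real.exp v + 1) ^ 2) (2 * (Real.exp v + 1) * Real.exp v) v := by
    have h := ((Real.hasDerivAt_exp v).add_const 1).fun_pow 2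
    simpa using h
  exact h1.div h2 h0

theorem ca_hd_bd (v : ℝ) : |(2 * Real.exp v * (Real.exp v + 1) ^ 2 -
      2 * Real.exp v * (2 * (Real.exp v + 1) * Real.exp v)) / ((Real.exp v + 1) ^ 2) ^ 2| ≤ 1 := by
  have hx : 0 < Real.exp v := Real.exp_pos v
  generalize Real.exp v = x at hx
  have h0 : 0 < ((x + 1) ^ 2) ^ 2 := by positivity
  rw [abs_div, abs_of_pos h0, div_le_one h0, abs_le]
  constructor
  · nlinarith [mul_pos hx hx, mul_pos (mul_pos hx hx) hx, pow_pos hx 4]
  · nlinarith [mul_pos hx hx, mul_pos (mul_pos hx hx) hx, pow_pos hx 4]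

theorem ca_pos (v : ℝ) : 0 < hd v ∧ hd v ≤ 1 / 2 := by
  unfold hd
  have hx : 0 < Real.exp v := Real.exp_pos v
  generalize Real.exp v = x at hx
  refine ⟨by positivity, ?_⟩
  rw [div_le_div_iff₀ (by positivity) (by norm_num)]
  nlinarith [sq_nonneg (x - 1)]

theorem hr_facts : (∀ v : ℝ, hh v = hr v) ∧ (∀ v : ℝ, HasDerivAt hr (hd v) v) ∧
    Continuous hd ∧ (∀ v : ℝ, 0 < hd v ∧ hd v ≤ 1 / 2) ∧
    (∀ v v' : ℝ, |hd v - hd v'| ≤ |v - v'|) ∧ (∀ v v' : ℝ, |hr v - hr v'| ≤ |v - v'|) := by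
  refine ⟨fun v => ?_, ca_deriv, ?_, ca_pos, fun v v' => ?_, fun v v' => ?_⟩
  · unfold hh hr
    push_cast
    rfl
  · exact continuous_iff_continuousAt.2 fun v => (ca_hd_deriv v).continuousAt
  · have h := Convex.norm_image_sub_le_of_norm_hasDerivWithin_le (f := hd)
      (f' := fun v => (2 * Real.exp v * (Real.exp v + 1) ^ 2 -
      2 * Real.exp v * (2 * (Real.exp v + 1) * Real.exp v)) / ((Real.exp v + 1) ^ 2) ^ 2)
      (s := Set.univ) (C := 1) (x := v') (y := v)
      (fun x _ => (ca_hd_deriv x).hasDerivWithinAt) (fun x _ => ca_hd_bd x) convex_univ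
      (Set.mem_univ _) (Set.mem_univ _)
    simpa using h
  · have h := Convex.norm_image_sub_le_of_norm_hasDerivWithin_le (f := hr)
      (f' := hd) (s := Set.univ) (C := 1) (x := v') (y := v)
      (fun x _ => (ca_deriv x).hasDerivWithinAt) (fun x _ => by
        rw [Real.norm_eq_abs, abs_of_pos (ca_pos x).1]
        linarith [(ca_pos x).2]) convex_univ
      (Set.mem_univ _) (Set.mem_univ _)
    simpa using h


end Pool.Agent.HL4
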