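import Pool.Agent.Lib_helper68.HL4.Defs3
/-!
# HL4, block CB: the imaginary part of `h`
-/

set_option autoImplicit false

namespace Pool.Agent.HL4

open UpperHalfPlane hiding I
open Complex MeasureTheory Filter Topology NumberField
open Pool.Agent.HSG (Em Lat IsInt nI NCl dgm lz)
open Pool.Agent.HSG.N (Prim LForm QF v2 HK LamH GG Gb pz)
open scoped nonZeroDivisors MatrixGroups

theorem cb_im (w : ℂ) : ((w - 1) / (w + 1)).im = 2 * w.im / normSq (w + 1) := by
  rw [Complex.div_im]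
  simp only [sub_im, one_im, sub_zero, add_re, one_re, sub_re, add_im, add_zero]
  ring

theorem cb_hh (z : ℂ) : (hh z).im = 2 * (Real.exp z.re * Real.sin z.im) /
    ((Real.exp z.re * Real.cos z.im + 1) ^ 2 + (Real.exp z.re * Real.sin z.im) ^ 2) := by
  unfold hh
  rw [cb_im, normSq_apply, add_re, add_im, one_re, one_im, exp_re, exp_im, add_zero, sq, sq]

/-- bounds for `2 e^p sin q / |e^z + 1|²` -/
theorem cb_bd (V p q : ℝ) (hp : |p| ≤ V + 1 / 2) (hq0 : 0 < q) (hq : q ≤ 1 / 2) :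
    2 * Real.exp (-(V + 1 / 2)) * (2 / Real.pi) / (Real.exp (V + 1 / 2) + 1) ^ 2 * q ≤
      2 * (Real.exp p * Real.sin q) /
        ((Real.exp p * Real.cos q + 1) ^ 2 + (Real.exp p * Real.sin q) ^ 2) ∧
    2 * (Real.exp p * Real.sin q) /
        ((Real.exp p * Real.cos q + 1) ^ 2 + (Real.exp p * Real.sin q) ^ 2) ≤
      2 * Real.exp (V + 1 / 2) * q := by
  have hp1 := (abs_le.1 hp).1
  have hp2 := (abs_le.1 hp).2
  have hpi := Real.pi_gt_three
  have hs1 : 2 / Real.pi * q ≤ Real.sin q := Real.mul_le_sin hq0.le (by linarith)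
  have hs2 : Real.sin q ≤ q := Real.sin_le hq0.le
  have hs0 : 0 < Real.sin q := lt_of_lt_of_le (by positivity) hs1
  have hc : 0 ≤ Real.cos q := Real.cos_nonneg_of_neg_pi_div_two_le_of_le (by linarith) (by linarith)
  have he : 0 < Real.exp p := Real.exp_pos p
  have he1 : Real.exp (-(V + 1 / 2)) ≤ Real.exp p := Real.exp_le_exp.2 (by linarith)
  have he2 : Real.exp p ≤ Real.exp (V + 1 / 2) := Real.exp_le_exp.2 (by linarith)
  have hD : (Real.exp p * Real.cos q + 1) ^ 2 + (Real.exp p * Real.sin q) ^ 2 =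
      Real.exp p ^ 2 + 2 * Real.exp p * Real.cos q + 1 := by
    have := Real.sin_sq_add_cos_sq q
    linear_combination Real.exp p ^ 2 * this
  rw [hD]
  have hD1 : 1 ≤ Real.exp p ^ 2 + 2 * Real.exp p * Real.cos q + 1 := by
    have : 0 ≤ Real.exp p * Real.cos q := mul_nonneg he.le hc
    nlinarith [sq_nonneg (Real.exp p)]
  have hD2 : Real.exp p ^ 2 + 2 * Real.exp p * Real.cos q + 1 ≤ (Real.exp (V + 1 / 2) + 1) ^ 2 := by
    have h1 : Real.exp p * Real.cos q ≤ Real.exp p :=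
      mul_le_of_le_one_right he.le (Real.cos_le_one q)
    have h2 : (Real.exp p + 1) ^ 2 ≤ (Real.exp (V + 1 / 2) + 1) ^ 2 :=
      pow_le_pow_left₀ (by linarith) (by linarith) 2
    nlinarith
  have hD0 : 0 < Real.exp p ^ 2 + 2 * Real.exp p * Real.cos q + 1 := by linarith
  constructor
  · calc 2 * Real.exp (-(V + 1 / 2)) * (2 / Real.pi) / (Real.exp (V + 1 / 2) + 1) ^ 2 * q
        = (2 * (Real.exp (-(V + 1 / 2)) * (2 / Real.pi * q))) / (Real.exp (V + 1 / 2) + 1) ^ 2 := by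
          ring
      _ ≤ (2 * (Real.exp p * Real.sin q)) / (Real.exp (V + 1 / 2) + 1) ^ 2 := by
          have : Real.exp (-(V + 1 / 2)) * (2 / Real.pi * q) ≤ Real.exp p * Real.sin q :=
            mul_le_mul he1 hs1 (by positivity) he.le
          gcongr
      _ ≤ _ := by
          apply div_le_div_of_nonneg_left _ hD0 hD2
          positivity
  · calc 2 * (Real.exp p * Real.sin q) / (Real.exp p ^ 2 + 2 * Real.exp p * Real.cos q + 1)
        ≤ 2 * (Real.exp p * Real.sin q) := div_le_self (by positivity) hD1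
      _ ≤ 2 * (Real.exp (V + 1 / 2) * q) := by
          have : Real.exp p * Real.sin q ≤ Real.exp (V + 1 / 2) * q :=
            mul_le_mul he2 hs2 hs0.le (Real.exp_pos _).le
          linarith
      _ = _ := by ring

theorem hh_im (V : ℝ) : ∃ c C : ℝ, 0 < c ∧ 0 < C ∧ ∀ v δ x : ℝ, |v| ≤ V → 0 < δ → δ ≤ 1 →
    |x| ≤ 1 →
    c * δ ≤ (hh (v + om2 δ x)).im ∧ (hh (v + om2 δ x)).im ≤ C * δ ∧
    c * δ ≤ (-hh (v - om2 δ x)).im ∧ (-hh (v - om2 δ x)).im ≤ C * δ := by
  refine ⟨Real.exp (-(V + 1 / 2)) * (2 / Real.pi) / (Real.exp (V + 1 / 2) + 1) ^ 2,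
    Real.exp (V + 1 / 2), by positivity, by positivity, ?_⟩
  intro v δ x hv hδ hδ1 hx
  have hx' := abs_le.1 hx
  have hv' := abs_le.1 hv
  have hre1 : ((v : ℂ) + om2 δ x).re = v + x / 2 := by
    simp [om2]
  have him1 : ((v : ℂ) + om2 δ x).im = δ / 2 := by
    simp [om2]
  have hre2 : ((v : ℂ) - om2 δ x).re = v - x / 2 := by
    simp [om2]
  have him2 : ((v : ℂ) - om2 δ x).im = -(δ / 2) := by
    simp [om2]
  have h1 := cb_bd V (v + x / 2) (δ / 2) (abs_le.2 ⟨by linarith, by linarith⟩) (by linarith)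
    (by linarith)
  have h2 := cb_bd V (v - x / 2) (δ / 2) (abs_le.2 ⟨by linarith, by linarith⟩) (by linarith)
    (by linarith)
  have e1 : (hh (v + om2 δ x)).im = 2 * (Real.exp (v + x / 2) * Real.sin (δ / 2)) /
        ((Real.exp (v + x / 2) * Real.cos (δ / 2) + 1) ^ 2 +
          (Real.exp (v + x / 2) * Real.sin (δ / 2)) ^ 2) := by
    rw [cb_hh, hre1, him1]
  have e2 : (-hh (v - om2 δ x)).im = 2 * (Real.exp (v - x / 2) * Real.sin (δ / 2)) /
        ((Real.exp (v - x / 2) * Real.cos (δ / 2) + 1) ^ 2 +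
          (Real.exp (v - x / 2) * Real.sin (δ / 2)) ^ 2) := by
    rw [neg_im, cb_hh, hre2, him2, Real.sin_neg, Real.cos_neg]
    ring
  rw [← e1] at h1
  rw [← e2] at h2
  refine ⟨?_, ?_, ?_, ?_⟩
  · refine le_trans (le_of_eq ?_) h1.1
    ring
  · refine le_trans h1.2 (le_of_eq ?_)
    ring
  · refine le_trans (le_of_eq ?_) h2.1
    ring
  · refine le_trans h2.2 (le_of_eq ?_)
    ring


end Pool.Agent.HL4
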