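import Pool.Agent.Lib_helper68.HL4.Defs3
/-!
# HL4, block CC: Taylor expansion of `h`
-/

namespace Pool.Agent.HL4

open UpperHalfPlane hiding I
open Complex MeasureTheory Filter Topology NumberField
open Pool.Agent.HSG (Em Lat IsInt nI NCl dgm lz)
open Pool.Agent.HSG.N (Prim LForm QF v2 HK LamH GG Gb pz)
open scoped nonZeroDivisors MatrixGroups

/-- the basic estimate -/
theorem cc_main (v : ℝ) (w : ℂ) (hw : ‖w‖ ≤ 1) (hwi : |w.im| ≤ 1 / 2) :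
    ‖hh (v + w) - ((hr v : ℂ) + hd v * w)‖ ≤ 6 * (Real.exp v + 1) * ‖w‖ ^ 2 := by
  set E : ℝ := Real.exp v with hE
  have hE0 : 0 < E := Real.exp_pos v
  set q : ℂ := cexp w with hq
  have hexp : cexp (v + w) = E * q := by
    rw [Complex.exp_add, hE, Complex.ofReal_exp]
  have hE1 : (0 : ℝ) < E + 1 := by linarith
  have hE1c : (E : ℂ) + 1 ≠ 0 := by
    have : ((E + 1 : ℝ) : ℂ) ≠ 0 := by exact_mod_cast hE1.ne'
    simpa using this
  -- real part of `q`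
  have hqre : 0 < q.re := by
    rw [hq, Complex.exp_re]
    apply mul_pos (Real.exp_pos _)
    apply Real.cos_pos_of_mem_Ioo
    have h1 := abs_le.1 hwi
    have h2 := Real.pi_gt_three
    constructor
    · linarith [h1.1]
    · linarith [h1.2]
  have hD : 1 ≤ ‖(E : ℂ) * q + 1‖ := by
    have h1 : 1 ≤ ((E : ℂ) * q + 1).re := by
      rw [Complex.add_re, Complex.one_re, Complex.re_ofReal_mul]
      nlinarith [mul_pos hE0 hqre]
    exact h1.trans (Complex.re_le_norm _)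
  have hD0 : (E : ℂ) * q + 1 ≠ 0 := by
    intro h
    rw [h, norm_zero] at hD
    linarith
  have key : hh (v + w) - ((hr v : ℂ) + hd v * w) =
      2 * E / ((E + 1) ^ 2 * (E * q + 1)) * ((q - 1 - w) * (E + 1) - w * E * (q - 1)) := by
    unfold hh hr hd
    rw [hexp, ← hE]
    push_cast
    field_simp
    ring
  have h3 : ‖q - 1 - w‖ ≤ ‖w‖ ^ 2 := Complex.norm_exp_sub_one_sub_id_le hw
  have h4 : ‖q - 1‖ ≤ 2 * ‖w‖ := by
    have e : q - 1 = (q - 1 - w) + w := by ring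
    rw [e]
    calc ‖(q - 1 - w) + w‖ ≤ ‖q - 1 - w‖ + ‖w‖ := norm_add_le _ _
      _ ≤ ‖w‖ ^ 2 + ‖w‖ := by linarith
      _ ≤ 2 * ‖w‖ := by nlinarith [norm_nonneg w]
  have hEn : ‖(E : ℂ)‖ = E := by rw [Complex.norm_real, Real.norm_of_nonneg hE0.le]
  have hE1n : ‖(E : ℂ) + 1‖ = E + 1 := by
    have : ((E : ℂ) + 1) = ((E + 1 : ℝ) : ℂ) := by push_cast; ring
    rw [this, Complex.norm_real, Real.norm_of_nonneg hE1.le]
  have h5 : ‖(q - 1 - w) * (E + 1) - w * E * (q - 1)‖ ≤ 3 * (E + 1) * ‖w‖ ^ 2 := by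
    calc ‖(q - 1 - w) * (E + 1) - w * E * (q - 1)‖
        ≤ ‖(q - 1 - w) * (E + 1)‖ + ‖w * E * (q - 1)‖ := norm_sub_le _ _
      _ = ‖q - 1 - w‖ * (E + 1) + ‖w‖ * E * ‖q - 1‖ := by
          rw [norm_mul, norm_mul, norm_mul, hEn, hE1n]
      _ ≤ ‖w‖ ^ 2 * (E + 1) + ‖w‖ * E * (2 * ‖w‖) := by
          apply add_le_add
          · exact mul_le_mul_of_nonneg_right h3 hE1.le
          · exact mul_le_mul_of_nonneg_left h4 (by positivity)
      _ ≤ 3 * (E + 1) * ‖w‖ ^ 2 := by nlinarith [sq_nonneg ‖w‖]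
  have h6 : ‖(2 * E / ((E + 1) ^ 2 * (E * q + 1)) : ℂ)‖ ≤ 2 := by
    rw [norm_div, norm_mul, norm_mul, norm_pow, hEn, hE1n]
    have h2 : ‖(2 : ℂ)‖ = 2 := by norm_num
    rw [h2]
    rw [div_le_iff₀ (by positivity)]
    have h7 : (E + 1) ^ 2 * 1 ≤ (E + 1) ^ 2 * ‖(E : ℂ) * q + 1‖ :=
      mul_le_mul_of_nonneg_left hD (by positivity)
    nlinarith [sq_nonneg E]
  rw [key, norm_mul]
  calc ‖(2 * E / ((E + 1) ^ 2 * (E * q + 1)) : ℂ)‖ *
        ‖(q - 1 - w) * (E + 1) - w * E * (q - 1)‖ ≤ 2 * (3 * (E + 1) * ‖w‖ ^ 2) :=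
        mul_le_mul h6 h5 (norm_nonneg _) (by norm_num)
    _ = 6 * (E + 1) * ‖w‖ ^ 2 := by ring

theorem cc_om {δ x : ℝ} (hδ : 0 < δ) : ‖om2 δ x‖ ≤ (δ + |x|) / 2 := by
  unfold om2
  rw [norm_div]
  have h2 : ‖(2 : ℂ)‖ = 2 := by norm_num
  rw [h2]
  apply div_le_div_of_nonneg_right _ (by norm_num)
  calc ‖(x : ℂ) + δ * I‖ ≤ ‖(x : ℂ)‖ + ‖(δ : ℂ) * I‖ := norm_add_le _ _
    _ = |x| + δ := by
        rw [norm_mul, Complex.norm_I, mul_one, Complex.norm_real, Complex.norm_real,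
          Real.norm_eq_abs, Real.norm_of_nonneg hδ.le]
    _ = δ + |x| := add_comm _ _

/-- CC -/
theorem hh_taylor (V : ℝ) : ∃ C : ℝ, 0 < C ∧ ∀ v δ x : ℝ, |v| ≤ V → 0 < δ → δ ≤ 1 → |x| ≤ 1 →
    ‖hh (v + om2 δ x) - ((hr v : ℂ) + hd v * om2 δ x)‖ ≤ C * (δ + |x|) ^ 2 ∧
    ‖hh (v - om2 δ x) - ((hr v : ℂ) - hd v * om2 δ x)‖ ≤ C * (δ + |x|) ^ 2 := by
  refine ⟨6 * (Real.exp V + 1), by positivity, ?_⟩
  intro v δ x hv hδ hδ1 hx
  have hE : Real.exp v ≤ Real.exp V := Real.exp_le_exp.2 ((le_abs_self v).trans hv)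
  have hw : ‖om2 δ x‖ ≤ (δ + |x|) / 2 := cc_om hδ
  have hw1 : ‖om2 δ x‖ ≤ 1 := by linarith
  have him : (om2 δ x).im = δ / 2 := by
    unfold om2
    simp
  have hwi : |(om2 δ x).im| ≤ 1 / 2 := by
    rw [him, abs_of_pos (by linarith)]
    linarith
  have hbound : ∀ w : ℂ, ‖w‖ = ‖om2 δ x‖ →
      6 * (Real.exp v + 1) * ‖w‖ ^ 2 ≤ 6 * (Real.exp V + 1) * (δ + |x|) ^ 2 := by
    intro w h
    rw [h]
    have h1 : ‖om2 δ x‖ ^ 2 ≤ (δ + |x|) ^ 2 := by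
      apply pow_le_pow_left₀ (norm_nonneg _)
      have := abs_nonneg x
      linarith
    apply mul_le_mul _ h1 (by positivity) (by positivity)
    linarith
  refine ⟨(cc_main v (om2 δ x) hw1 hwi).trans (hbound _ rfl), ?_⟩
  have h2 := cc_main v (-om2 δ x) (by rwa [norm_neg]) (by rwa [Complex.neg_im, abs_neg])
  rw [← sub_eq_add_neg, mul_neg, ← sub_eq_add_neg] at h2
  exact h2.trans (hbound _ (norm_neg _))


end Pool.Agent.HL4
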