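import Pool.Agent.Lib_helper68.HL4.Defs3
/-!
# HL4, block CD: continuity of the curve
-/

namespace Pool.Agent.HL4

open UpperHalfPlane hiding I
open Complex MeasureTheory Filter Topology NumberField
open Pool.Agent.HSG (Em Lat IsInt nI NCl dgm lz)
open Pool.Agent.HSG.N (Prim LForm QF v2 HK LamH GG Gb pz)
open scoped nonZeroDivisors MatrixGroups

/-- `e^z ≠ -1` for `0 < |Im z| < π` -/
theorem cd_ne {z : ℂ} (h0 : z.im ≠ 0) (h1 : |z.im| < Real.pi) : cexp z + 1 ≠ 0 := by
  intro h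
  have h2 : (cexp z).im = 0 := by
    have h3 := congrArg Complex.im h
    simpa using h3
  rw [Complex.exp_im] at h2
  rcases mul_eq_zero.1 h2 with h3 | h3
  · exact (Real.exp_pos _).ne' h3
  · rw [abs_lt] at h1
    exact h0 ((Real.sin_eq_zero_iff_of_lt_of_lt h1.1 h1.2).1 h3)

theorem cd_half {δ : ℝ} (h0 : 0 < δ) (h1 : δ ≤ 1) : |δ / 2| < Real.pi ∧ |-(δ / 2)| < Real.pi := by
  have h2 := Real.pi_gt_three
  rw [abs_neg, abs_of_pos (by linarith)]
  constructor <;> linarith

theorem cd_im (v δ x : ℝ) : ((v : ℂ) - om2 δ x).im = -(δ / 2) ∧ ((v : ℂ) + om2 δ x).im = δ / 2 := by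
  unfold om2
  constructor <;> simp

theorem cd_cont {f : ℝ → ℂ} (hf : Continuous f) (h : ∀ v, cexp (f v) + 1 ≠ 0) :
    Continuous (fun v => hh (f v)) := by
  unfold hh
  exact ((Complex.continuous_exp.comp hf).sub continuous_const).div
    ((Complex.continuous_exp.comp hf).add continuous_const) h

theorem hh_cont {δ x : ℝ} (h0 : 0 < δ) (h1 : δ ≤ 1) :
    Continuous (fun v : ℝ => hh (v - om2 δ x)) ∧ Continuous (fun v : ℝ => hh (v + om2 δ x)) := by
  obtain ⟨h2, h3⟩ := cd_half h0 h1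
  refine ⟨cd_cont (Complex.continuous_ofReal.sub continuous_const) fun v => cd_ne ?_ ?_,
    cd_cont (Complex.continuous_ofReal.add continuous_const) fun v => cd_ne ?_ ?_⟩
  · rw [(cd_im v δ x).1]
    linarith
  · rw [(cd_im v δ x).1]
    exact h3
  · rw [(cd_im v δ x).2]
    linarith
  · rw [(cd_im v δ x).2]
    exact h2


end Pool.Agent.HL4
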