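import Pool.Agent.Lib_helper68.HL4.Defs3
import Pool.Agent.Lib_helper68.HL4F.LA
namespace Pool.Agent.HL4

open UpperHalfPlane hiding I
open Complex MeasureTheory Filter Topology NumberField
open Pool.Agent.HSG (Em Lat IsInt nI NCl dgm lz)
open Pool.Agent.HSG.N (Prim LForm QF v2 HK LamH GG Gb pz)
open scoped nonZeroDivisors MatrixGroups

variable {M k0 k1 : ℕ} {P : ZMod M → ZMod M → ℂ → ℂ → ℂ}

/-- Lipschitz bound on a half plane from a bound on a slightly larger one -/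
theorem lb_one {f : ℂ → ℂ} {s A : ℝ} (hs : 0 < s) (hf : DifferentiableOn ℂ f {z | 0 < z.im})
    (hA : ∀ z : ℂ, s ≤ z.im → ‖f z‖ ≤ A) {z z' : ℂ} (hz : 2 * s ≤ z.im) (hz' : 2 * s ≤ z'.im) :
    ‖f z - f z'‖ ≤ A / s * ‖z - z'‖ := by
  have hopen : IsOpen {z : ℂ | 0 < z.im} := isOpen_lt continuous_const Complex.continuous_im
  have hd : ∀ w ∈ {w : ℂ | 2 * s ≤ w.im}, DifferentiableAt ℂ f w := by
    intro w hw
    refine (hf w ?_).differentiableAt (hopen.mem_nhds ?_) <;>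
    · show 0 < w.im
      have : 2 * s ≤ w.im := hw
      linarith
  have hb : ∀ w ∈ {w : ℂ | 2 * s ≤ w.im}, ‖deriv f w‖ ≤ A / s := by
    intro w hw
    have hw' : 2 * s ≤ w.im := hw
    refine Complex.norm_deriv_le_of_forall_mem_sphere_norm_le hs ?_ ?_
    · refine DifferentiableOn.diffContOnCl ?_
      rw [closure_ball w hs.ne']
      intro v hv
      refine ((hf v ?_).differentiableAt (hopen.mem_nhds ?_)).differentiableWithinAt <;>
      · show 0 < v.im
        have h1 : |(v - w).im| ≤ s := (Complex.abs_im_le_norm _).trans (by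
          rw [← dist_eq_norm]; exact hv)
        rw [Complex.sub_im] at h1
        have := (abs_le.1 h1).1
        linarith
    · intro v hv
      apply hA
      have h1 : |(v - w).im| ≤ s := (Complex.abs_im_le_norm _).trans (by
          rw [← dist_eq_norm]; exact (Metric.mem_sphere.1 hv).le)
      rw [Complex.sub_im] at h1
      have := (abs_le.1 h1).1
      linarith
  have hconv : Convex ℝ {w : ℂ | 2 * s ≤ w.im} := convex_halfSpace_im_ge _
  exact hconv.norm_image_sub_le_of_norm_deriv_le hd hb hz' hz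

theorem lb_diffZ (h : PF M k0 k1 P) (x x' : ZMod M) {W : ℂ} (hW : 0 < W.im) :
    DifferentiableOn ℂ (fun Z => P x x' Z W) {Z | 0 < Z.im} :=
  (h.holo x x').comp (f := fun Z : ℂ => (Z, W)) (by fun_prop) (fun _ hZ => ⟨hZ, hW⟩)

theorem lb_diffW (h : PF M k0 k1 P) (x x' : ZMod M) {Z : ℂ} (hZ : 0 < Z.im) :
    DifferentiableOn ℂ (fun W => P x x' Z W) {W | 0 < W.im} :=
  (h.holo x x').comp (f := fun W : ℂ => (Z, W)) (by fun_prop) (fun _ hW => ⟨hZ, hW⟩)

theorem pf_lip (h : PF M k0 k1 P) {R : ℝ} (hR : 1 ≤ R) : ∃ C : ℝ, 0 < C ∧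
    ∀ (y : ℝ) (x x' : ZMod M) (Z W Z' W' : ℂ), 0 < y → y / R ≤ Z.im → y / R ≤ W.im →
      y / R ≤ Z'.im → y / R ≤ W'.im →
      ‖P x x' Z W - P x x' Z' W'‖ ≤ C * y ^ (-kk k0 k1 - 1) * (‖Z - Z'‖ + ‖W - W'‖) := by
  have hR0 : 0 < R := by linarith
  obtain ⟨C, hC, hb⟩ := pf_bd h (R := 2 * R) (by linarith)
  refine ⟨C * (2 * R), by positivity, ?_⟩
  intro y x x' Z W Z' W' hy hZ hW hZ' hW'
  have hs : 0 < y / (2 * R) := by positivity
  have e2 : 2 * (y / (2 * R)) = y / R := by field_simp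
  have hpos : 0 < y / R := by positivity
  have hle : y / (2 * R) ≤ y / R := by
    rw [← e2]
    linarith
  have h1 := lb_one hs (lb_diffZ h x x' (W := W) (by linarith))
    (A := C * y ^ (-kk k0 k1)) (fun z hz => hb y x x' z W hy hz (hle.trans hW))
    (z := Z) (z' := Z') (by rw [e2]; exact hZ) (by rw [e2]; exact hZ')
  have h2 := lb_one hs (lb_diffW h x x' (Z := Z') (by linarith))
    (A := C * y ^ (-kk k0 k1)) (fun w hw => hb y x x' Z' w hy (hle.trans hZ') hw)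
    (z := W) (z' := W') (by rw [e2]; exact hW) (by rw [e2]; exact hW')
  have e3 : C * y ^ (-kk k0 k1) / (y / (2 * R)) = C * (2 * R) * y ^ (-kk k0 k1 - 1) := by
    rw [Real.rpow_sub_one hy.ne']
    field_simp
  rw [e3] at h1 h2
  calc ‖P x x' Z W - P x x' Z' W'‖
      ≤ ‖P x x' Z W - P x x' Z' W‖ + ‖P x x' Z' W - P x x' Z' W'‖ := norm_sub_le_norm_sub_add_norm_sub _ _ _
    _ ≤ C * (2 * R) * y ^ (-kk k0 k1 - 1) * ‖Z - Z'‖ + C * (2 * R) * y ^ (-kk k0 k1 - 1) * ‖W - W'‖ :=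
        add_le_add h1 h2
    _ = _ := by ring


end Pool.Agent.HL4
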