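import Pool.Agent.Lib_helper68.HL4.Defs3
import Pool.Agent.Lib_helper68.HL4F.CA
import Pool.Agent.Lib_helper68.HL4F.CB
import Pool.Agent.Lib_helper68.HL4F.CC
import Pool.Agent.Lib_helper68.HL4F.LA
import Pool.Agent.Lib_helper68.HL4F.LB
/-!
# HL4, block CE: comparison at a point of a piece of the curve
-/

namespace Pool.Agent.HL4

open UpperHalfPlane hiding I
open Complex MeasureTheory Filter Topology NumberField
open Pool.Agent.HSG (Em Lat IsInt nI NCl dgm lz)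
open Pool.Agent.HSG.N (Prim LForm QF v2 HK LamH GG Gb pz)
open scoped nonZeroDivisors MatrixGroups

variable {M k0 k1 : ℕ} {P : ZMod M → ZMod M → ℂ → ℂ → ℂ}

/-- `t ↦ t^κ` is Lipschitz on `[0,1]`, `κ ≥ 1`. -/
theorem ce_rpow_lip {κ : ℝ} (hκ : 1 ≤ κ) {s t : ℝ} (hs0 : 0 ≤ s) (hs1 : s ≤ 1) (ht0 : 0 ≤ t)
    (ht1 : t ≤ 1) : |s ^ κ - t ^ κ| ≤ κ * |s - t| := by
  have := (convex_Icc (0 : ℝ) 1).norm_image_sub_le_of_norm_hasDerivWithin_le
    (f := fun x : ℝ => x ^ κ) (f' := fun x : ℝ => κ * x ^ (κ - 1)) (C := κ) (x := t) (y := s)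
    (fun x _ => (Real.hasDerivAt_rpow_const (Or.inr hκ)).hasDerivWithinAt)
    (fun x hx => by
      rw [Real.norm_eq_abs, abs_mul, abs_of_nonneg (by linarith : (0 : ℝ) ≤ κ),
        abs_of_nonneg (Real.rpow_nonneg hx.1 _)]
      exact mul_le_of_le_one_right (by linarith) (Real.rpow_le_one hx.1 hx.2 (by linarith)))
    ⟨ht0, ht1⟩ ⟨hs0, hs1⟩
  simpa [Real.norm_eq_abs] using this

/-- lower bound for `h'` -/
theorem ce_hd_min (V : ℝ) : ∃ m : ℝ, 0 < m ∧ ∀ v : ℝ, |v| ≤ V → m ≤ hd v := by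
  rcases lt_or_ge V 0 with hV | hV
  · exact ⟨1, one_pos, fun v hv => absurd hv (not_le.2 (lt_of_lt_of_le hV (abs_nonneg v)))⟩
  obtain ⟨_, _, hc, hp, _, _⟩ := hr_facts
  obtain ⟨z, hz, hmin⟩ := (isCompact_Icc (a := -V) (b := V)).exists_isMinOn
    ⟨0, by constructor <;> linarith⟩ hc.continuousOn
  refine ⟨hd z, (hp z).1, fun v hv => hmin (abs_le.1 hv)⟩

/-- the distance of the points -/
theorem ce_dist {r CT : ℝ} (hr0 : 0 < r) {hrv hdv hdj : ℝ} {om h : ℂ} {s δx l : ℝ}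
    (hs : s = 1 ∨ s = -1)
    (h1 : ‖h - ((hrv : ℂ) + s * (hdv * om))‖ ≤ CT * δx ^ 2) (h2 : |hdv - hdj| ≤ l)
    (h3 : ‖om‖ ≤ δx) (hl : 0 ≤ l) :
    ‖s * h / r - (s * (hrv / r : ℝ) + hdj * om / r)‖ ≤ (CT * δx ^ 2 + l * δx) / r := by
  have hs2 : (s : ℂ) * s = 1 := by rcases hs with rfl | rfl <;> norm_num
  have hsn : ‖(s : ℂ)‖ = 1 := by rcases hs with rfl | rfl <;> norm_num
  have hr' : (r : ℂ) ≠ 0 := by exact_mod_cast hr0.ne'
  have e : (s : ℂ) * h / r - (s * (hrv / r : ℝ) + hdj * om / r) =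
      (s * (h - ((hrv : ℂ) + s * (hdv * om))) + ((hdv - hdj : ℝ) : ℂ) * om) / r := by
    push_cast
    field_simp
    linear_combination (om * hdv) * hs2
  rw [e, norm_div, Complex.norm_real, Real.norm_eq_abs, abs_of_pos hr0]
  gcongr
  refine (norm_add_le _ _).trans (add_le_add ?_ ?_)
  · rw [norm_mul, hsn, one_mul]; exact h1
  · rw [norm_mul, Complex.norm_real, Real.norm_eq_abs]
    exact mul_le_mul h2 h3 (norm_nonneg _) hl

set_option maxHeartbeats 4000000 in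
/-- CE: comparison at a point of a piece of the curve -/
theorem cv_pt (h : PF M k0 k1 P) {r : ℝ} (hr0 : 0 < r) (a b B : ℝ) (hB : 0 ≤ B) :
    ∃ C : ℝ, 0 < C ∧ ∀ (g wt : ℝ → ℂ) (δ x l vj : ℝ), (∀ v ∈ Set.Icc a b, ‖g v‖ ≤ B) →
      (∀ v ∈ Set.Icc a b, ∀ v' ∈ Set.Icc a b, ‖g v - g v'‖ ≤ B * |v - v'|) →
      (∀ v ∈ Set.Icc a b, ‖wt v - g v * ((2 * hd v : ℝ) : ℂ) ^ (kk k0 k1 : ℂ)‖ ≤
          B * (δ + |x|)) →
      0 < δ → δ ≤ 1 → |x| ≤ 1 → 0 < l → l ≤ 1 → a ≤ vj → vj + l ≤ b →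
      ∀ v ∈ Set.Icc vj (vj + l),
      ‖P 0 1 (-hh (v - om2 δ x) / r) (hh (v + om2 δ x) / r) * wt v -
        P 0 1 (((-hr v / r : ℝ) : ℂ) + hd vj * om2 δ x / r)
          (-((-hr v / r : ℝ) : ℂ) + hd vj * om2 δ x / r) *
          (g vj * ((2 * hd vj : ℝ) : ℂ) ^ (kk k0 k1 : ℂ) * ((hd v / hd vj : ℝ) : ℂ))‖ ≤
        C * δ ^ (-kk k0 k1) * ((1 + |x| / δ) ^ 2 * δ + (1 + |x| / δ) * l) := by
  set κ : ℝ := kk k0 k1 with hκd
  have hκ : 1 ≤ κ := by
    have h0 : (1 : ℝ) ≤ k0 := by exact_mod_cast h.k0pos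
    have h1 : (1 : ℝ) ≤ k1 := by exact_mod_cast h.k1pos
    rw [hκd, kk]; linarith
  set V : ℝ := max |a| |b| with hV
  obtain ⟨ci, Ci, hci, hCi, him⟩ := hh_im V
  obtain ⟨CT, hCT, htay⟩ := hh_taylor V
  obtain ⟨m, hm, hmin⟩ := ce_hd_min V
  obtain ⟨_, _, _, hdp, hdl, _⟩ := hr_facts
  set R : ℝ := max 1 (max (r / ci) (2 * r / m)) with hR
  have hR1 : 1 ≤ R := le_max_left _ _
  have hR0 : 0 < R := lt_of_lt_of_le one_pos hR1
  have hRc : 1 / R ≤ ci / r := by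
    rw [div_le_div_iff₀ hR0 hr0, one_mul]
    have : r / ci ≤ R := (le_max_left _ _).trans (le_max_right _ _)
    rw [div_le_iff₀ hci] at this
    linarith
  have hRm : 1 / R ≤ m / (2 * r) := by
    rw [div_le_div_iff₀ hR0 (by positivity), one_mul]
    have : 2 * r / m ≤ R := (le_max_right _ _).trans (le_max_right _ _)
    rw [div_le_iff₀ hm] at this
    linarith
  obtain ⟨CL, hCL, hlip⟩ := pf_lip h hR1
  obtain ⟨CP, hCP, hbd⟩ := pf_bd h hR1
  set CC : ℝ := CL * (2 * (CT + 1) / r) * (3 * B) + CP * (B * (3 + κ * 2 + 1 / m)) + 1 with hCC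
  refine ⟨CC, by positivity, ?_⟩
  intro g wt δ x l vj hg hgl hwt hδ0 hδ1 hx hl0 hl1 haj hjb v hv
  have hvI : v ∈ Set.Icc a b := ⟨haj.trans hv.1, hv.2.trans hjb⟩
  have hjI : vj ∈ Set.Icc a b := ⟨haj, by linarith⟩
  have habs : ∀ t ∈ Set.Icc a b, |t| ≤ V := fun t ht => abs_le_max_abs_abs ht.1 ht.2
  have hvV := habs v hvI
  have hjV := habs vj hjI
  obtain ⟨i1, _, i2, _⟩ := him v δ x hvV hδ0 hδ1 hx
  obtain ⟨t1, t2⟩ := htay v δ x hvV hδ0 hδ1 hx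
  have hdj := hmin vj hjV
  have hdv := hmin v hvV
  have hdj2 := (hdp vj).2
  have hdv2 := (hdp v).2
  have hvj : |v - vj| ≤ l := by rw [abs_le]; constructor <;> linarith [hv.1, hv.2]
  have hdd : |hd v - hd vj| ≤ l := (hdl v vj).trans hvj
  set S : ℝ := 1 + |x| / δ with hS
  have hxn := abs_nonneg x
  have hS1 : 1 ≤ S := by rw [hS]; have : 0 ≤ |x| / δ := by positivity
                         linarith
  have hSδ : S * δ = δ + |x| := by rw [hS]; field_simp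
  have hom : ‖om2 δ x‖ ≤ δ + |x| := by
    rw [om2, norm_div, Complex.norm_two]
    have : ‖(x : ℂ) + δ * I‖ ≤ |x| + δ := by
      refine (norm_add_le _ _).trans ?_
      rw [norm_mul, Complex.norm_real, Complex.norm_real, Complex.norm_I, Real.norm_eq_abs,
        Real.norm_eq_abs, abs_of_pos hδ0, mul_one]
    rw [div_le_iff₀ two_pos]
    linarith
  -- the points
  set Z : ℂ := -hh (v - om2 δ x) / r with hZ
  set W : ℂ := hh (v + om2 δ x) / r with hW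
  set Z1 : ℂ := ((-hr v / r : ℝ) : ℂ) + hd vj * om2 δ x / r with hZ1
  set W1 : ℂ := -((-hr v / r : ℝ) : ℂ) + hd vj * om2 δ x / r with hW1
  have dZ : ‖Z - Z1‖ ≤ (CT * (δ + |x|) ^ 2 + l * (δ + |x|)) / r := by
    have := ce_dist (r := r) (CT := CT) hr0 (hrv := hr v) (hdv := hd v) (hdj := hd vj)
      (om := om2 δ x) (h := hh (v - om2 δ x)) (s := -1) (δx := δ + |x|) (l := l) (Or.inr rfl)
      (by convert t2 using 3; push_cast; ring) hdd hom hl0.le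
    convert this using 2
    rw [hZ, hZ1]; push_cast; ring
  have dW : ‖W - W1‖ ≤ (CT * (δ + |x|) ^ 2 + l * (δ + |x|)) / r := by
    have := ce_dist (r := r) (CT := CT) hr0 (hrv := hr v) (hdv := hd v) (hdj := hd vj)
      (om := om2 δ x) (h := hh (v + om2 δ x)) (s := 1) (δx := δ + |x|) (l := l) (Or.inl rfl)
      (by convert t1 using 3; push_cast; ring) hdd hom hl0.le
    convert this using 2
    rw [hW, hW1]; push_cast; ring
  have omim : (om2 δ x).im = δ / 2 := by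
    rw [om2, show (2 : ℂ) = ((2 : ℝ) : ℂ) by norm_num, Complex.div_ofReal_im]
    simp
  have iZ : δ / R ≤ Z.im := by
    rw [hZ, Complex.div_ofReal_im]
    calc δ / R = δ * (1 / R) := by ring
      _ ≤ δ * (ci / r) := by gcongr
      _ = ci * δ / r := by ring
      _ ≤ _ := by gcongr
  have iW : δ / R ≤ W.im := by
    rw [hW, Complex.div_ofReal_im]
    calc δ / R = δ * (1 / R) := by ring
      _ ≤ δ * (ci / r) := by gcongr
      _ = ci * δ / r := by ring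
      _ ≤ _ := by gcongr
  have i0 : (((hd vj : ℝ) : ℂ) * om2 δ x / r).im = hd vj * (δ / 2) / r := by
    rw [Complex.div_ofReal_im, Complex.im_ofReal_mul, omim]
  have i0' : δ / R ≤ hd vj * (δ / 2) / r := by
    calc δ / R = δ * (1 / R) := by ring
      _ ≤ δ * (m / (2 * r)) := by gcongr
      _ = m * (δ / 2) / r := by field_simp
      _ ≤ _ := by gcongr
  have iZ1 : δ / R ≤ Z1.im := by
    rw [hZ1, Complex.add_im, Complex.ofReal_im, zero_add, i0]; exact i0'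
  have iW1 : δ / R ≤ W1.im := by
    rw [hW1, Complex.add_im, Complex.neg_im, Complex.ofReal_im, neg_zero, zero_add, i0]; exact i0'
  have hP1 := hlip δ 0 1 Z W Z1 W1 hδ0 iZ iW iZ1 iW1
  have hP2 := hbd δ 0 1 Z1 W1 hδ0 iZ1 iW1
  have hcp : ∀ t : ℝ, 0 ≤ t → ((t : ℝ) : ℂ) ^ ((κ : ℝ) : ℂ) = ((t ^ κ : ℝ) : ℂ) := fun t ht =>
    (Complex.ofReal_cpow ht κ).symm
  have p0v : 0 ≤ 2 * hd v := by linarith
  have p1v : 2 * hd v ≤ 1 := by linarith
  have p0j : 0 ≤ 2 * hd vj := by linarith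
  have p1j : 2 * hd vj ≤ 1 := by linarith
  have q0v : 0 ≤ (2 * hd v) ^ κ := Real.rpow_nonneg p0v _
  have q1v : (2 * hd v) ^ κ ≤ 1 := Real.rpow_le_one p0v p1v (by linarith)
  have q0j : 0 ≤ (2 * hd vj) ^ κ := Real.rpow_nonneg p0j _
  have q1j : (2 * hd vj) ^ κ ≤ 1 := Real.rpow_le_one p0j p1j (by linarith)
  have hwtv := hwt v hvI
  rw [hcp _ p0v] at hwtv
  rw [hcp _ p0j]
  have ndx : B * (δ + |x|) ≤ 2 * B := by
    calc B * (δ + |x|) ≤ B * (1 + 1) := by gcongr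
      _ = 2 * B := by ring
  have nwt : ‖wt v‖ ≤ 3 * B := by
    have e : wt v = (wt v - g v * (((2 * hd v) ^ κ : ℝ) : ℂ)) + g v * (((2 * hd v) ^ κ : ℝ) : ℂ) := by
      ring
    rw [e]
    refine (norm_add_le _ _).trans ?_
    have : ‖g v * (((2 * hd v) ^ κ : ℝ) : ℂ)‖ ≤ B := by
      rw [norm_mul, Complex.norm_real, Real.norm_eq_abs, abs_of_nonneg q0v]
      calc ‖g v‖ * (2 * hd v) ^ κ ≤ B * 1 := mul_le_mul (hg v hvI) q1v q0v hB
        _ = B := mul_one _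
    linarith
  -- the weights
  have nw : ‖wt v - g vj * (((2 * hd vj) ^ κ : ℝ) : ℂ) * ((hd v / hd vj : ℝ) : ℂ)‖ ≤
      B * (δ + |x|) + B * (1 + κ * 2 + 1 / m) * l := by
    have e : wt v - g vj * (((2 * hd vj) ^ κ : ℝ) : ℂ) * ((hd v / hd vj : ℝ) : ℂ) =
        (wt v - g v * (((2 * hd v) ^ κ : ℝ) : ℂ)) +
        ((g v - g vj) * (((2 * hd v) ^ κ : ℝ) : ℂ) +
        (g vj * (((2 * hd v) ^ κ - (2 * hd vj) ^ κ : ℝ) : ℂ) +
        g vj * ((((2 * hd vj) ^ κ) * ((hd vj - hd v) / hd vj) : ℝ) : ℂ))) := by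
      have hdj0 : ((hd vj : ℝ) : ℂ) ≠ 0 := by
        have := (hdp vj).1
        exact_mod_cast this.ne'
      push_cast
      field_simp
      ring
    rw [e]
    refine (norm_add_le _ _).trans (add_le_add hwtv ?_)
    refine (norm_add_le _ _).trans ?_
    have a1 : ‖(g v - g vj) * (((2 * hd v) ^ κ : ℝ) : ℂ)‖ ≤ B * l := by
      rw [norm_mul, Complex.norm_real, Real.norm_eq_abs, abs_of_nonneg q0v]
      calc ‖g v - g vj‖ * (2 * hd v) ^ κ ≤ (B * l) * 1 :=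
            mul_le_mul ((hgl v hvI vj hjI).trans (by gcongr)) q1v q0v (by positivity)
        _ = B * l := mul_one _
    have a2 : ‖g vj * (((2 * hd v) ^ κ - (2 * hd vj) ^ κ : ℝ) : ℂ)‖ ≤ B * (κ * 2 * l) := by
      rw [norm_mul, Complex.norm_real, Real.norm_eq_abs]
      refine mul_le_mul (hg vj hjI) ?_ (abs_nonneg _) hB
      refine (ce_rpow_lip hκ p0v p1v p0j p1j).trans ?_
      rw [show 2 * hd v - 2 * hd vj = 2 * (hd v - hd vj) by ring, abs_mul, abs_two]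
      calc κ * (2 * |hd v - hd vj|) ≤ κ * (2 * l) := by gcongr
        _ = κ * 2 * l := by ring
    have a3 : ‖g vj * ((((2 * hd vj) ^ κ) * ((hd vj - hd v) / hd vj) : ℝ) : ℂ)‖ ≤
        B * (1 / m * l) := by
      rw [norm_mul, Complex.norm_real, Real.norm_eq_abs]
      refine mul_le_mul (hg vj hjI) ?_ (abs_nonneg _) hB
      rw [abs_mul, abs_of_nonneg q0j, abs_div, abs_of_pos (hdp vj).1, abs_sub_comm]
      calc (2 * hd vj) ^ κ * (|hd v - hd vj| / hd vj) ≤ 1 * (l / m) := by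
            refine mul_le_mul q1j ?_ (div_nonneg (abs_nonneg _) (hdp vj).1.le) one_pos.le
            gcongr
        _ = 1 / m * l := by ring
    calc _ ≤ B * l + (B * (κ * 2 * l) + B * (1 / m * l)) :=
          add_le_add a1 ((norm_add_le _ _).trans (add_le_add a2 a3))
      _ = _ := by ring
  -- the sum
  have hδκ : 0 < δ ^ (-κ) := Real.rpow_pos_of_pos hδ0 _
  have hδκ1 : δ ^ (-κ - 1) * δ = δ ^ (-κ) := by
    rw [← Real.rpow_add_one hδ0.ne']; congr 1; ring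
  have b1 : ‖P 0 1 Z W - P 0 1 Z1 W1‖ ≤
      δ ^ (-κ) * (CL * (2 * (CT + 1) / r)) * (S ^ 2 * δ + S * l) := by
    refine hP1.trans ?_
    calc CL * δ ^ (-κ - 1) * (‖Z - Z1‖ + ‖W - W1‖)
        ≤ CL * δ ^ (-κ - 1) * (2 * ((CT * (δ + |x|) ^ 2 + l * (δ + |x|)) / r)) := by
          gcongr; linarith
      _ = (δ ^ (-κ - 1) * δ) * (CL * (2 / r)) * (CT * (S ^ 2 * δ) + S * l) := by
          rw [← hSδ]; ring
      _ = δ ^ (-κ) * (CL * (2 / r)) * (CT * (S ^ 2 * δ) + S * l) := by rw [hδκ1]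
      _ ≤ δ ^ (-κ) * (CL * (2 / r)) * ((CT + 1) * (S ^ 2 * δ + S * l)) := by
          gcongr
          have h1 : 0 ≤ S ^ 2 * δ := by positivity
          have h2 : 0 ≤ S * l := by positivity
          nlinarith
      _ = _ := by ring
  have b2 : ‖wt v - g vj * (((2 * hd vj) ^ κ : ℝ) : ℂ) * ((hd v / hd vj : ℝ) : ℂ)‖ ≤
      (B * (3 + κ * 2 + 1 / m)) * (S ^ 2 * δ + S * l) := by
    refine nw.trans ?_
    have h1 : δ + |x| ≤ S ^ 2 * δ := by
      rw [← hSδ]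
      have : S * 1 ≤ S * S := by gcongr
      nlinarith
    have h2 : l ≤ S * l := by nlinarith
    have h3 : 0 ≤ S ^ 2 * δ := by positivity
    have h4 : 0 ≤ S * l := by positivity
    have h5 : 0 ≤ κ * 2 + 1 / m := by positivity
    calc B * (δ + |x|) + B * (1 + κ * 2 + 1 / m) * l
        ≤ B * (S ^ 2 * δ) + B * (1 + κ * 2 + 1 / m) * (S * l) := by gcongr
      _ ≤ B * ((3 + κ * 2 + 1 / m) * (S ^ 2 * δ)) + B * ((3 + κ * 2 + 1 / m) * (S * l)) := by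
          rw [mul_assoc B (1 + κ * 2 + 1 / m)]
          have t1 : S ^ 2 * δ ≤ (3 + κ * 2 + 1 / m) * (S ^ 2 * δ) :=
            le_mul_of_one_le_left h3 (by linarith)
          have t2 : (1 + κ * 2 + 1 / m) * (S * l) ≤ (3 + κ * 2 + 1 / m) * (S * l) :=
            mul_le_mul_of_nonneg_right (by linarith) h4
          exact add_le_add (mul_le_mul_of_nonneg_left t1 hB) (mul_le_mul_of_nonneg_left t2 hB)
      _ = _ := by ring
  have e : P 0 1 Z W * wt v - P 0 1 Z1 W1 *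
      (g vj * (((2 * hd vj) ^ κ : ℝ) : ℂ) * ((hd v / hd vj : ℝ) : ℂ)) =
      (P 0 1 Z W - P 0 1 Z1 W1) * wt v + P 0 1 Z1 W1 *
        (wt v - g vj * (((2 * hd vj) ^ κ : ℝ) : ℂ) * ((hd v / hd vj : ℝ) : ℂ)) := by ring
  rw [e]
  refine (norm_add_le _ _).trans ?_
  rw [norm_mul, norm_mul]
  have hX : 0 ≤ S ^ 2 * δ + S * l := by positivity
  calc ‖P 0 1 Z W - P 0 1 Z1 W1‖ * ‖wt v‖ + ‖P 0 1 Z1 W1‖ *
        ‖wt v - g vj * (((2 * hd vj) ^ κ : ℝ) : ℂ) * ((hd v / hd vj : ℝ) : ℂ)‖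
      ≤ (δ ^ (-κ) * (CL * (2 * (CT + 1) / r)) * (S ^ 2 * δ + S * l)) * (3 * B) +
        (CP * δ ^ (-κ)) * ((B * (3 + κ * 2 + 1 / m)) * (S ^ 2 * δ + S * l)) := by
        gcongr
    _ = (CC - 1) * δ ^ (-κ) * (S ^ 2 * δ + S * l) := by rw [hCC]; ring
    _ ≤ CC * δ ^ (-κ) * (S ^ 2 * δ + S * l) := by gcongr; linarith

end Pool.Agent.HL4
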