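import Pool.Agent.Lib_helper68.HL4.Defs3
/-!
# HL4, block LE
-/

namespace Pool.Agent.HL4

open UpperHalfPlane hiding I
open Complex MeasureTheory Filter Topology NumberField
open Pool.Agent.HSG (Em Lat IsInt nI NCl dgm lz)
open Pool.Agent.HSG.N (Prim LForm QF v2 HK LamH GG Gb pz)
open scoped nonZeroDivisors MatrixGroups

/-- LE -/
theorem const_of_hom {D : ℂ → ℂ} (hD : DifferentiableOn ℂ D {u : ℂ | 0 < u.im})
    (hh : ∀ u : ℂ, 0 < u.im → ∀ ρ : ℝ, 0 < ρ → D (ρ * u) = D u) :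
    ∃ c : ℂ, ∀ u : ℂ, 0 < u.im → D u = c := by
  have hopen : IsOpen {u : ℂ | 0 < u.im} := isOpen_lt continuous_const Complex.continuous_im
  have hconn : IsPreconnected {u : ℂ | 0 < u.im} := (convex_halfSpace_im_gt 0).isPreconnected
  have h0 : Set.EqOn (deriv D) 0 {u : ℂ | 0 < u.im} := by
    intro u hu
    have hu' : 0 < u.im := hu
    have hd : HasDerivAt D (deriv D u) u :=
      (hD.differentiableAt (hopen.mem_nhds hu)).hasDerivAt
    have h1 : HasDerivAt (fun ρ : ℝ => (ρ : ℂ) * u) u 1 := by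
      have h2 : HasDerivAt (fun ρ : ℝ => (ρ : ℂ)) 1 (1 : ℝ) := Complex.ofRealCLM.hasDerivAt
      simpa using h2.mul_const u
    have h3 : HasDerivAt (fun ρ : ℝ => D ((ρ : ℂ) * u)) (deriv D u * u) 1 := by
      have hd' : HasDerivAt D (deriv D u) (((1 : ℝ) : ℂ) * u) := by simpa using hd
      exact hd'.comp (1 : ℝ) h1
    have h4 : HasDerivAt (fun ρ : ℝ => D ((ρ : ℂ) * u)) 0 1 := by
      refine (hasDerivAt_const (1 : ℝ) (D u)).congr_of_eventuallyEq ?_
      filter_upwards [lt_mem_nhds (show (0 : ℝ) < 1 by norm_num)] with ρ hρ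
      exact hh u hu' ρ hρ
    have h5 : deriv D u * u = 0 := h3.unique h4
    have hune : u ≠ 0 := by
      rintro rfl
      simp at hu'
    simpa [hune] using h5
  obtain ⟨c, hc⟩ := hopen.exists_is_const_of_deriv_eq_zero hconn hD h0
  exact ⟨c, fun u hu => hc u hu⟩


end Pool.Agent.HL4
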