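import Pool.Agent.Lib_helper68.HL4.Defs3
/-!
# HL4, block LC
-/

namespace Pool.Agent.HL4

open UpperHalfPlane hiding I
open Complex MeasureTheory Filter Topology NumberField
open Pool.Agent.HSG (Em Lat IsInt nI NCl dgm lz)
open Pool.Agent.HSG.N (Prim LForm QF v2 HK LamH GG Gb pz)
open scoped nonZeroDivisors MatrixGroups

theorem lc_step {B : ℝ → ℂ} {D a : ℝ} (hD : 0 ≤ D) (ha : 0 < a)
    (hB : ∀ z ρ : ℝ, 0 < z → 1 ≤ ρ → ρ ≤ 4 → ρ * z ≤ 1 → ‖B z - B (ρ * z)‖ ≤ D * z ^ a)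
    {y : ℝ} (hy : 0 < y) (hy1 : y ≤ 1) (j : ℕ) :
    dist (B (y / 4 ^ j)) (B (y / 4 ^ (j + 1))) ≤ D * y ^ a * ((4 : ℝ) ^ (-a)) ^ j := by
  have h4 : (0 : ℝ) < 4 ^ (j + 1) := by positivity
  have h4' : (0 : ℝ) < 4 ^ j := by positivity
  have hz : 0 < y / 4 ^ (j + 1) := div_pos hy h4
  have he : 4 * (y / 4 ^ (j + 1)) = y / 4 ^ j := by
    rw [pow_succ]; field_simp
  have hle : y / 4 ^ j ≤ 1 := by
    rw [div_le_one h4']
    exact hy1.trans (one_le_pow₀ (by norm_num))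
  have h1 := hB (y / 4 ^ (j + 1)) 4 hz (by norm_num) le_rfl (by rw [he]; exact hle)
  rw [he] at h1
  rw [dist_comm, dist_eq_norm]
  refine h1.trans ?_
  have h2 : (y / 4 ^ (j + 1)) ^ a ≤ y ^ a * ((4 : ℝ) ^ (-a)) ^ j := by
    have h3 : ((4 : ℝ) ^ (-a)) ^ j = ((4 : ℝ) ^ j)⁻¹ ^ a := by
      rw [← Real.rpow_natCast, ← Real.rpow_mul (by norm_num), mul_comm, Real.rpow_mul (by norm_num),
        Real.rpow_natCast, Real.rpow_neg (by positivity), Real.inv_rpow (by positivity)]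
    rw [h3, ← Real.mul_rpow hy.le (by positivity)]
    apply Real.rpow_le_rpow hz.le _ ha.le
    rw [← div_eq_mul_inv]
    apply div_le_div_of_nonneg_left hy.le h4'
    exact pow_le_pow_right₀ (by norm_num) (by omega)
  calc D * (y / 4 ^ (j + 1)) ^ a ≤ D * (y ^ a * ((4 : ℝ) ^ (-a)) ^ j) :=
        mul_le_mul_of_nonneg_left h2 hD
    _ = D * y ^ a * ((4 : ℝ) ^ (-a)) ^ j := by ring

theorem lc_r {a : ℝ} (ha : 0 < a) : (4 : ℝ) ^ (-a) < 1 :=
  Real.rpow_lt_one_of_one_lt_of_neg (by norm_num) (by linarith)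

/-- LC -/
theorem lim_gen {B : ℝ → ℂ} {D a : ℝ} (hD : 0 ≤ D) (ha : 0 < a)
    (hB : ∀ z ρ : ℝ, 0 < z → 1 ≤ ρ → ρ ≤ 4 → ρ * z ≤ 1 → ‖B z - B (ρ * z)‖ ≤ D * z ^ a) :
    ∃ c : ℂ, ∀ y : ℝ, 0 < y → y ≤ 1 → ‖B y - c‖ ≤ D * (1 - (4 : ℝ) ^ (-a))⁻¹ * y ^ a := by
  have hex : ∀ y : ℝ, 0 < y → y ≤ 1 → ∃ c : ℂ, Tendsto (fun j : ℕ => B (y / 4 ^ j)) atTop (𝓝 c) := by
    intro y hy hy1
    exact cauchySeq_tendsto_of_complete
      (cauchySeq_of_le_geometric _ _ (lc_r ha) (lc_step hD ha hB hy hy1))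
  obtain ⟨c, hc⟩ := hex 1 one_pos le_rfl
  refine ⟨c, fun y hy hy1 => ?_⟩
  obtain ⟨c', hc'⟩ := hex y hy hy1
  have hcc : c' = c := by
    obtain ⟨i, hi1, hi2⟩ := exists_nat_pow_near (x := 1 / y) (y := 4)
      (by rw [le_div_iff₀ hy]; linarith) (by norm_num)
    have h4i : (0 : ℝ) < 4 ^ i := by positivity
    set ρ : ℝ := 1 / (4 ^ i * y) with hρ
    have hρ1 : 1 ≤ ρ := by
      rw [hρ, le_div_iff₀ (by positivity)]
      rw [le_div_iff₀ hy] at hi1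
      linarith
    have hρ4 : ρ ≤ 4 := by
      rw [hρ, div_le_iff₀ (by positivity)]
      rw [div_lt_iff₀ hy, pow_succ] at hi2
      nlinarith
    have hlim : Tendsto (fun m : ℕ => B (y / 4 ^ m) - B (1 / 4 ^ (m + i))) atTop (𝓝 (c' - c)) :=
      hc'.sub (hc.comp (tendsto_add_atTop_nat i))
    have hzero : Tendsto (fun m : ℕ => B (y / 4 ^ m) - B (1 / 4 ^ (m + i))) atTop (𝓝 0) := by
      rw [tendsto_zero_iff_norm_tendsto_zero]
      have hb : ∀ m : ℕ, ‖B (y / 4 ^ m) - B (1 / 4 ^ (m + i))‖ ≤ D * (y / 4 ^ m) ^ a := by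
        intro m
        have h4m : (0 : ℝ) < 4 ^ m := by positivity
        have he : ρ * (y / 4 ^ m) = 1 / 4 ^ (m + i) := by
          rw [hρ, pow_add]; field_simp
        have := hB (y / 4 ^ m) ρ (div_pos hy h4m) hρ1 hρ4 (by
          rw [he, div_le_one (by positivity)]
          exact one_le_pow₀ (by norm_num))
        rwa [he] at this
      have ht : Tendsto (fun m : ℕ => D * (y / 4 ^ m) ^ a) atTop (𝓝 0) := by
        have h1 : Tendsto (fun m : ℕ => y / (4 : ℝ) ^ m) atTop (𝓝 0) :=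
          tendsto_const_nhds.div_atTop (tendsto_pow_atTop_atTop_of_one_lt (by norm_num))
        have h2 := (h1.rpow_const (p := a) (Or.inr ha.le)).const_mul D
        rwa [Real.zero_rpow ha.ne', mul_zero] at h2
      exact squeeze_zero (fun m => norm_nonneg _) hb ht
    exact sub_eq_zero.1 (tendsto_nhds_unique hlim hzero)
  have h := dist_le_of_le_geometric_of_tendsto₀ _ _ (lc_r ha) (lc_step hD ha hB hy hy1) hc'
  rw [hcc, dist_eq_norm] at h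
  simp only [pow_zero, div_one] at h
  calc ‖B y - c‖ ≤ D * y ^ a / (1 - (4 : ℝ) ^ (-a)) := h
    _ = D * (1 - (4 : ℝ) ^ (-a))⁻¹ * y ^ a := by rw [div_eq_mul_inv]; ring


end Pool.Agent.HL4
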