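import Pool.Agent.Lib_helper68.HL4.Defs3
/-!
# HL4, block DA: the automorphy relation for (1 0; M 1)
-/

namespace Pool.Agent.HL4

open UpperHalfPlane hiding I
open Complex MeasureTheory Filter Topology NumberField
open Pool.Agent.HSG (Em Lat IsInt nI NCl dgm lz)
open Pool.Agent.HSG.N (Prim LForm QF v2 HK LamH GG Gb pz)
open scoped nonZeroDivisors MatrixGroups

variable {M k0 k1 : ℕ} {P : ZMod M → ZMod M → ℂ → ℂ → ℂ}

/-- DA -/
theorem dyn_id (h : PF M k0 k1 P) {t : ℝ} (ht : 0 < t) {q : ℂ} (hq : 0 < q.im) :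
    P 0 1 (-1 / M + t + q) (1 / M - t + q) =
      ((M * (t + q)) ^ k0)⁻¹ * ((M * (t - q)) ^ k1)⁻¹ *
      P 0 1 ((1 / M - 1 / (M ^ 2 * t)) + q / (M ^ 2 * t * (t + q)))
        (-(1 / M - 1 / (M ^ 2 * t)) + q / (M ^ 2 * t * (t - q))) := by
  have hM4 := h.Mpos
  have hM : (M : ℂ) ≠ 0 := by
    have : M ≠ 0 := by omega
    exact_mod_cast this
  have htc : (t : ℂ) ≠ 0 := by exact_mod_cast ht.ne'
  have h1 : (t : ℂ) + q ≠ 0 := by
    intro h0
    have := congrArg Complex.im h0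
    rw [add_im, ofReal_im, zero_add, zero_im] at this
    exact hq.ne' this
  have h2 : (t : ℂ) - q ≠ 0 := by
    intro h0
    have := congrArg Complex.im h0
    rw [sub_im, ofReal_im, zero_sub, zero_im, neg_eq_zero] at this
    exact hq.ne' this
  have e0 : (-1 / (M : ℂ)) = (((-1 / (M : ℝ)) : ℝ) : ℂ) := by push_cast; ring
  have e1 : (1 / (M : ℂ)) = (((1 / (M : ℝ)) : ℝ) : ℂ) := by push_cast; ring
  have hZ : 0 < ((-1 / M + t + q : ℂ)).im := by
    rw [e0, add_im, add_im, ofReal_im, ofReal_im]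
    linarith
  have hW : 0 < ((1 / M - t + q : ℂ)).im := by
    rw [e1, add_im, sub_im, ofReal_im, ofReal_im]
    linarith
  have hm := h.mod 1 0 (M : ℤ) 1 (by ring) 0 1 _ _ hZ hW
  have f1 : (((M : ℤ) : ℂ)) * (-1 / M + t + q) + ((1 : ℤ) : ℂ) = M * (t + q) := by
    push_cast
    field_simp
    ring
  have f2 : -(((M : ℤ) : ℂ)) * (1 / M - t + q) + ((1 : ℤ) : ℂ) = M * (t - q) := by
    push_cast
    field_simp
    ring
  rw [f1, f2] at hm
  have g1 : (((1 : ℤ) : ℂ) * (-1 / M + t + q) + ((0 : ℤ) : ℂ)) / (M * (t + q)) =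
      (1 / M - 1 / (M ^ 2 * t)) + q / (M ^ 2 * t * (t + q)) := by
    push_cast
    field_simp
    ring
  have g2 : (((1 : ℤ) : ℂ) * (1 / M - t + q) - ((0 : ℤ) : ℂ)) / (M * (t - q)) =
      -(1 / M - 1 / (M ^ 2 * t)) + q / (M ^ 2 * t * (t - q)) := by
    push_cast
    field_simp
    ring
  rw [g1, g2] at hm
  have z1 : (0 : ZMod M) * ((1 : ℤ) : ZMod M) + 1 * (((M : ℤ)) : ZMod M) = 0 := by
    simp
  have z2 : (0 : ZMod M) * ((0 : ℤ) : ZMod M) + 1 * ((1 : ℤ) : ZMod M) = 1 := by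
    simp
  rw [z1, z2] at hm
  rw [hm]
  have n1 : ((M : ℂ) * (t + q)) ^ k0 ≠ 0 := pow_ne_zero _ (mul_ne_zero hM h1)
  have n2 : ((M : ℂ) * (t - q)) ^ k1 ≠ 0 := pow_ne_zero _ (mul_ne_zero hM h2)
  field_simp


end Pool.Agent.HL4
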