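import Pool.Agent.Lib_helper68.HL4.Defs3
import Pool.Agent.Lib_helper68.HL4F.DA
import Pool.Agent.Lib_helper68.HL4F.LA
import Pool.Agent.Lib_helper68.HL4F.LB
namespace Pool.Agent.HL4

open UpperHalfPlane hiding I
open Complex MeasureTheory Filter Topology NumberField
open Pool.Agent.HSG (Em Lat IsInt nI NCl dgm lz)
open Pool.Agent.HSG.N (Prim LForm QF v2 HK LamH GG Gb pz)
open scoped nonZeroDivisors MatrixGroups

variable {M k0 k1 : ℕ} {P : ZMod M → ZMod M → ℂ → ℂ → ℂ}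

theorem db_pow {α γ : ℂ} (hα : ‖α‖ ≤ 1) (hγ : ‖γ‖ ≤ 1) (k : ℕ) :
    ‖α ^ k - γ ^ k‖ ≤ k * ‖α - γ‖ := by
  induction k with
  | zero => simp
  | succ k ih =>
    have e : α ^ (k + 1) - γ ^ (k + 1) = (α ^ k - γ ^ k) * α + γ ^ k * (α - γ) := by ring
    have h1 : ‖γ ^ k‖ ≤ 1 := by
      rw [norm_pow]
      exact pow_le_one₀ (norm_nonneg _) hγ
    rw [e]
    push_cast
    calc ‖(α ^ k - γ ^ k) * α + γ ^ k * (α - γ)‖
        ≤ ‖α ^ k - γ ^ k‖ * ‖α‖ + ‖γ ^ k‖ * ‖α - γ‖ := by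
          refine (norm_add_le _ _).trans ?_
          rw [norm_mul, norm_mul]
      _ ≤ (k * ‖α - γ‖) * 1 + 1 * ‖α - γ‖ := by
          refine add_le_add (mul_le_mul ih hα (norm_nonneg _) (by positivity))
            (mul_le_mul_of_nonneg_right h1 (norm_nonneg _))
      _ = (k + 1) * ‖α - γ‖ := by ring

theorem db_pow2 {α β γ : ℂ} (hα : ‖α‖ ≤ 1) (hβ : ‖β‖ ≤ 1) (hγ : ‖γ‖ ≤ 1) (k0 k1 : ℕ) :
    ‖α ^ k0 * β ^ k1 - γ ^ (k0 + k1)‖ ≤ k0 * ‖α - γ‖ + k1 * ‖β - γ‖ := by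
  have e : α ^ k0 * β ^ k1 - γ ^ (k0 + k1) = (α ^ k0 - γ ^ k0) * β ^ k1 +
      γ ^ k0 * (β ^ k1 - γ ^ k1) := by ring
  have h1 : ‖γ ^ k0‖ ≤ 1 := by
    rw [norm_pow]
    exact pow_le_one₀ (norm_nonneg _) hγ
  have h2 : ‖β ^ k1‖ ≤ 1 := by
    rw [norm_pow]
    exact pow_le_one₀ (norm_nonneg _) hβ
  rw [e]
  calc ‖(α ^ k0 - γ ^ k0) * β ^ k1 + γ ^ k0 * (β ^ k1 - γ ^ k1)‖
      ≤ ‖α ^ k0 - γ ^ k0‖ * ‖β ^ k1‖ + ‖γ ^ k0‖ * ‖β ^ k1 - γ ^ k1‖ := by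
        refine (norm_add_le _ _).trans ?_
        rw [norm_mul, norm_mul]
    _ ≤ (k0 * ‖α - γ‖) * 1 + 1 * (k1 * ‖β - γ‖) := by
        refine add_le_add (mul_le_mul (db_pow hα hγ _) h2 (norm_nonneg _) (by positivity))
          (mul_le_mul h1 (db_pow hβ hγ _) (norm_nonneg _) zero_le_one)
    _ = _ := by ring

/-- bounds for the size of `t ± q` -/
theorem db_size {t l t0 : ℝ} {q : ℂ} (h1 : 1 / 2 ≤ t0) (h2 : t0 ≤ 1) (hl : l ≤ 1 / 4)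
    (ht : t0 ≤ t) (ht' : t ≤ t0 + l) (hq : ‖q‖ ≤ 1 / 8) :
    3 / 8 ≤ ‖(t : ℂ) + q‖ ∧ ‖(t : ℂ) + q‖ ≤ 3 / 2 := by
  have e : ‖(t : ℂ)‖ = t := by
    rw [Complex.norm_real, Real.norm_of_nonneg (by linarith)]
  constructor
  · have := norm_sub_norm_le (t : ℂ) (-q)
    rw [norm_neg, e, sub_neg_eq_add] at this
    linarith
  · have := norm_add_le (t : ℂ) q
    rw [e] at this
    linarith

/-- the difference of the inverses -/
theorem db_inv {m t l t0 : ℝ} {q : ℂ} (hm : 4 ≤ m) (h1 : 1 / 2 ≤ t0) (h2 : t0 ≤ 1)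
    (hl : l ≤ 1 / 4) (ht : t0 ≤ t) (ht' : t ≤ t0 + l) (hq : ‖q‖ ≤ 1 / 8) :
    ‖((m : ℂ) * (t + q))⁻¹‖ ≤ 1 ∧
    ‖((m : ℂ) * (t + q))⁻¹ - ((m : ℂ) * t0)⁻¹‖ ≤ m * (l + ‖q‖) := by
  obtain ⟨h3, h4⟩ := db_size h1 h2 hl ht ht' hq
  have hm0 : ‖(m : ℂ)‖ = m := by
    rw [Complex.norm_real, Real.norm_of_nonneg (by linarith)]
  have ht00 : ‖(t0 : ℂ)‖ = t0 := by
    rw [Complex.norm_real, Real.norm_of_nonneg (by linarith)]
  have h5 : 1 ≤ ‖(m : ℂ) * (t + q)‖ := by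
    rw [norm_mul, hm0]
    nlinarith
  have h6 : 1 ≤ ‖(m : ℂ) * t0‖ := by
    rw [norm_mul, hm0, ht00]
    nlinarith
  refine ⟨by rw [norm_inv]; exact inv_le_one_of_one_le₀ h5, ?_⟩
  have h7 : (m : ℂ) * (t + q) ≠ 0 := norm_pos_iff.1 (by linarith)
  have h8 : (m : ℂ) * t0 ≠ 0 := norm_pos_iff.1 (by linarith)
  rw [inv_sub_inv h7 h8, norm_div, norm_mul ((m : ℂ) * (t + q))]
  have e : (m : ℂ) * t0 - m * (t + q) = -(m * (((t - t0 : ℝ) : ℂ) + q)) := by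
    push_cast
    ring
  rw [e, norm_neg, norm_mul, hm0]
  have h9 : ‖((t - t0 : ℝ) : ℂ) + q‖ ≤ l + ‖q‖ := by
    refine (norm_add_le _ _).trans ?_
    rw [Complex.norm_real, Real.norm_of_nonneg (by linarith)]
    linarith
  have h10 : 1 ≤ ‖(m : ℂ) * (t + q)‖ * ‖(m : ℂ) * t0‖ := by nlinarith
  rw [div_le_iff₀ (by linarith)]
  have h11 : 0 ≤ m * (l + ‖q‖) := mul_nonneg (by linarith) ((norm_nonneg _).trans h9)
  calc m * ‖((t - t0 : ℝ) : ℂ) + q‖ ≤ m * (l + ‖q‖) := mul_le_mul_of_nonneg_left h9 (by linarith)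
    _ ≤ m * (l + ‖q‖) * (‖(m : ℂ) * (t + q)‖ * ‖(m : ℂ) * t0‖) := le_mul_of_one_le_right h11 h10

/-- the difference of the points -/
theorem db_pts {m t l t0 : ℝ} {q : ℂ} (hm : 4 ≤ m) (h1 : 1 / 2 ≤ t0) (h2 : t0 ≤ 1)
    (hl0 : 0 < l) (hl : l ≤ 1 / 4) (ht : t0 ≤ t) (ht' : t ≤ t0 + l) (hq : ‖q‖ ≤ 1 / 8) (s : ℂ)
    (hs : ‖s‖ = 1) :
    ‖q / ((m : ℂ) ^ 2 * t * (t + s * q)) - q / ((m : ℂ) ^ 2 * t0 ^ 2)‖ ≤
      4 * (‖q‖ * (l + ‖q‖)) := by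
  have hq' : ‖s * q‖ ≤ 1 / 8 := by rw [norm_mul, hs, one_mul]; exact hq
  obtain ⟨h3, h4⟩ := db_size h1 h2 hl ht ht' hq'
  have hm0 : ‖(m : ℂ)‖ = m := by
    rw [Complex.norm_real, Real.norm_of_nonneg (by linarith)]
  have ht00 : ‖(t0 : ℂ)‖ = t0 := by
    rw [Complex.norm_real, Real.norm_of_nonneg (by linarith)]
  have htt : ‖(t : ℂ)‖ = t := by
    rw [Complex.norm_real, Real.norm_of_nonneg (by linarith)]
  have hm1 : (m : ℂ) ≠ 0 := norm_pos_iff.1 (by rw [hm0]; linarith)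
  have ht1 : (t : ℂ) ≠ 0 := norm_pos_iff.1 (by rw [htt]; linarith)
  have ht01 : (t0 : ℂ) ≠ 0 := norm_pos_iff.1 (by rw [ht00]; linarith)
  have h5 : (t : ℂ) + s * q ≠ 0 := norm_pos_iff.1 (by linarith)
  have e : q / ((m : ℂ) ^ 2 * t * (t + s * q)) - q / ((m : ℂ) ^ 2 * t0 ^ 2) =
      q * ((t0 : ℂ) ^ 2 - t * (t + s * q)) / ((m : ℂ) ^ 2 * (t * (t + s * q) * t0 ^ 2)) := by
    generalize (t : ℂ) + s * q = w at h5
    field_simp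
  have h6 : ‖(t0 : ℂ) ^ 2 - t * (t + s * q)‖ ≤ 3 * (l + ‖q‖) := by
    have e2 : (t0 : ℂ) ^ 2 - t * (t + s * q) = -(((t - t0) * (t + t0) : ℝ) : ℂ) - t * (s * q) := by
      push_cast
      ring
    rw [e2]
    refine (norm_sub_le _ _).trans ?_
    rw [norm_neg, Complex.norm_real, Real.norm_of_nonneg (mul_nonneg (by linarith) (by linarith)),
      norm_mul, norm_mul, hs, htt, one_mul]
    have := norm_nonneg q
    nlinarith
  have h7 : 3 / 4 ≤ ‖(m : ℂ) ^ 2 * (t * (t + s * q) * t0 ^ 2)‖ := by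
    rw [norm_mul, norm_mul, norm_mul, norm_pow, norm_pow, hm0, ht00, htt]
    have g1 : (16 : ℝ) ≤ m ^ 2 := by nlinarith
    have g2 : (1 / 4 : ℝ) ≤ t0 ^ 2 := by nlinarith
    have g3 : (3 / 16 : ℝ) ≤ t * ‖(t : ℂ) + s * q‖ := by nlinarith
    have g4 : (3 / 64 : ℝ) ≤ t * ‖(t : ℂ) + s * q‖ * t0 ^ 2 := by nlinarith
    nlinarith
  rw [e, norm_div, norm_mul, div_le_iff₀ (by linarith)]
  have h8 := norm_nonneg q
  have h9 : 0 ≤ ‖q‖ * (l + ‖q‖) := by positivity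
  calc ‖q‖ * ‖(t0 : ℂ) ^ 2 - t * (t + s * q)‖ ≤ ‖q‖ * (3 * (l + ‖q‖)) :=
        mul_le_mul_of_nonneg_left h6 h8
    _ = 4 * (‖q‖ * (l + ‖q‖)) * (3 / 4) := by ring
    _ ≤ _ := mul_le_mul_of_nonneg_left h7 (by linarith)

/-- the imaginary parts -/
theorem db_im {m t l t0 y R : ℝ} {q : ℂ} (hm : 4 ≤ m) (h1 : 1 / 2 ≤ t0) (h2 : t0 ≤ 1)
    (hl : l ≤ 1 / 4) (ht : t0 ≤ t) (ht' : t ≤ t0 + l) (hq : ‖q‖ ≤ 1 / 8) (hy : 0 < y)
    (hR : 1 ≤ R) (hqi : y / (2 * R) ≤ q.im) :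
    y / (5 * R * m ^ 2) ≤
      (((1 / m - 1 / (m ^ 2 * t) : ℂ)) + q / ((m : ℂ) ^ 2 * t * (t + q))).im ∧
    y / (5 * R * m ^ 2) ≤
      (-((1 / m - 1 / (m ^ 2 * t) : ℂ)) + q / ((m : ℂ) ^ 2 * t * (t - q))).im := by
  have hqn : ‖-q‖ ≤ 1 / 8 := by rwa [norm_neg]
  obtain ⟨h3, h4⟩ := db_size h1 h2 hl ht ht' hq
  obtain ⟨h3', h4'⟩ := db_size h1 h2 hl ht ht' hqn
  rw [← sub_eq_add_neg] at h3' h4'
  have hm1 : (m : ℂ) ≠ 0 := by exact_mod_cast (by linarith : (m : ℝ) ≠ 0)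
  have ht1 : (t : ℂ) ≠ 0 := by exact_mod_cast (by linarith : (t : ℝ) ≠ 0)
  have h5 : (t : ℂ) + q ≠ 0 := norm_pos_iff.1 (by linarith)
  have h5' : (t : ℂ) - q ≠ 0 := norm_pos_iff.1 (by linarith)
  have hm2 : (0 : ℝ) < m ^ 2 := by positivity
  have hq0 : 0 < q.im := lt_of_lt_of_le (by positivity) hqi
  have key : ∀ n : ℝ, 3 / 8 ≤ n → n ≤ 3 / 2 → y / (5 * R * m ^ 2) ≤ q.im / (m ^ 2 * n ^ 2) := by
    intro n hn hn'
    have g1 : n ^ 2 ≤ 9 / 4 := by nlinarith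
    have g2 : 0 < n ^ 2 := by positivity
    rw [div_le_div_iff₀ (by positivity) (by positivity)]
    have g3 : y ≤ q.im * (2 * R) := by rwa [div_le_iff₀ (by positivity)] at hqi
    have g4 : y * n ^ 2 ≤ q.im * (2 * R) * (9 / 4) :=
      mul_le_mul g3 g1 g2.le (by positivity)
    have g5 : 0 ≤ q.im * R := by positivity
    have g6 : q.im * (2 * R) * (9 / 4) ≤ q.im * (5 * R) := by linarith
    calc y * (m ^ 2 * n ^ 2) = (y * n ^ 2) * m ^ 2 := by ring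
      _ ≤ (q.im * (5 * R)) * m ^ 2 := mul_le_mul_of_nonneg_right (g4.trans g6) hm2.le
      _ = q.im * (5 * R * m ^ 2) := by ring
  have e1 : ((1 / m - 1 / (m ^ 2 * t) : ℂ)) + q / ((m : ℂ) ^ 2 * t * (t + q)) =
      ((1 / m : ℝ) : ℂ) - ((1 / m ^ 2 : ℝ) : ℂ) * (t + q)⁻¹ := by
    push_cast
    field_simp
    ring
  have e2 : -((1 / m - 1 / (m ^ 2 * t) : ℂ)) + q / ((m : ℂ) ^ 2 * t * (t - q)) =
      ((-1 / m : ℝ) : ℂ) + ((1 / m ^ 2 : ℝ) : ℂ) * (t - q)⁻¹ := by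
    push_cast
    field_simp
    ring
  rw [e1, e2, Complex.sub_im, Complex.add_im, Complex.im_ofReal_mul, Complex.im_ofReal_mul,
    Complex.ofReal_im, Complex.ofReal_im, Complex.inv_im, Complex.inv_im, Complex.normSq_eq_norm_sq,
    Complex.normSq_eq_norm_sq, Complex.add_im, Complex.sub_im, Complex.ofReal_im]
  constructor
  · refine (key _ h3 h4).trans (le_of_eq ?_)
    have : ‖(t : ℂ) + q‖ ≠ 0 := by linarith
    field_simp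
    ring
  · refine (key _ h3' h4').trans (le_of_eq ?_)
    have : ‖(t : ℂ) - q‖ ≠ 0 := by linarith
    field_simp
    ring

theorem dyn_pt (h : PF M k0 k1 P) {R : ℝ} (hR : 1 ≤ R) : ∃ C c : ℝ, 0 < C ∧ 0 < c ∧
    ∀ (y S t0 l : ℝ) (u : ℂ), 0 < y → y ≤ 1 → 1 / R ≤ u.im → u.im ≤ R → 1 ≤ S → ‖u‖ ≤ S →
      1 / 2 ≤ t0 → t0 ≤ 1 → 0 < l → S * (l + y * S) ≤ c → ∀ t ∈ Set.Icc t0 (t0 + l),
      ‖P 0 1 (-1 / M + t + y * u / 2) (1 / M - t + y * u / 2) -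
        ((M * t0 : ℂ) ^ (k0 + k1))⁻¹ *
          P 0 1 ((1 / M - 1 / (M ^ 2 * t)) + ((y / (M * t0) ^ 2 : ℝ) : ℂ) * u / 2)
            (-(1 / M - 1 / (M ^ 2 * t)) + ((y / (M * t0) ^ 2 : ℝ) : ℂ) * u / 2)‖ ≤
        C * (S * (l + y * S)) * y ^ (-kk k0 k1) := by
  have hM4 : (4 : ℝ) ≤ (M : ℝ) := by exact_mod_cast h.Mpos
  have hM0 : (0 : ℝ) < (M : ℝ) := by linarith
  have hMc : ((M : ℝ) : ℂ) = (M : ℂ) := by norm_cast
  have hR' : 1 ≤ 5 * R * (M : ℝ) ^ 2 := by nlinarith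
  obtain ⟨C1, hC1, hlip⟩ := pf_lip h hR'
  obtain ⟨C2, hC2, hbd⟩ := pf_bd h hR'
  refine ⟨((k0 : ℝ) + k1) * M * C2 + C1 * 8, 1 / 4, by positivity, by norm_num, ?_⟩
  intro y S t0 l u hy hy1 hui hui' hS hu ht0 ht01 hl hc t ht
  obtain ⟨ht1, ht2⟩ := ht
  set q : ℂ := y * u / 2 with hq
  have hqn : ‖q‖ ≤ y * S / 2 := by
    rw [hq, norm_div, norm_mul, Complex.norm_real, Real.norm_of_nonneg hy.le,
      Complex.norm_ofNat]
    have := mul_le_mul_of_nonneg_left hu hy.le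
    linarith
  have hyS : 0 < y * S := by positivity
  have hsum : l + y * S ≤ 1 / 4 := by
    have : 1 * (l + y * S) ≤ S * (l + y * S) := mul_le_mul_of_nonneg_right hS (by positivity)
    linarith
  have hl4 : l ≤ 1 / 4 := by linarith
  have hq8 : ‖q‖ ≤ 1 / 8 := by linarith
  have hqim : q.im = y * u.im / 2 := by
    rw [hq, show (y : ℂ) * u / 2 = ((y / 2 : ℝ) : ℂ) * u by push_cast; ring, Complex.im_ofReal_mul]
    ring
  have hqi : y / (2 * R) ≤ q.im := by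
    rw [hqim]
    have := mul_le_mul_of_nonneg_left hui hy.le
    have e : y / (2 * R) = y * (1 / R) / 2 := by
      have : R ≠ 0 := by linarith
      field_simp
    rw [e]
    linarith
  have hq0 : 0 < q.im := lt_of_lt_of_le (by positivity) hqi
  have ht0' : 0 < t := by linarith
  -- the four points
  have hid := dyn_id h ht0' hq0
  obtain ⟨i1, i2⟩ := db_im hM4 ht0 ht01 hl4 ht1 ht2 hq8 hy hR hqi
  rw [hMc] at i1 i2
  have hy' : ((y / (M * t0) ^ 2 : ℝ) : ℂ) * u / 2 = q / ((M : ℂ) ^ 2 * t0 ^ 2) := by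
    have : (M : ℂ) ≠ 0 := by exact_mod_cast hM0.ne'
    have : (t0 : ℂ) ≠ 0 := by exact_mod_cast (by linarith : t0 ≠ 0)
    rw [hq]
    push_cast
    field_simp
  have hxim : ((1 / M - 1 / (M ^ 2 * t) : ℂ)).im = 0 := by
    have : ((1 / M - 1 / (M ^ 2 * t) : ℂ)) = ((1 / M - 1 / (M ^ 2 * t) : ℝ) : ℂ) := by
      push_cast
      ring
    rw [this, Complex.ofReal_im]
  have hy'im : y / (5 * R * (M : ℝ) ^ 2) ≤ (q / ((M : ℂ) ^ 2 * t0 ^ 2)).im := by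
    have e : (q / ((M : ℂ) ^ 2 * t0 ^ 2)) = ((1 / (M ^ 2 * t0 ^ 2) : ℝ) : ℂ) * q := by
      push_cast
      ring
    rw [e, Complex.im_ofReal_mul]
    have g1 : t0 ^ 2 ≤ 1 := by nlinarith
    have g2 : 0 < t0 ^ 2 := by positivity
    have g3 : 1 / (M : ℝ) ^ 2 ≤ 1 / ((M : ℝ) ^ 2 * t0 ^ 2) := by
      apply one_div_le_one_div_of_le (by positivity)
      exact mul_le_of_le_one_right (by positivity) g1
    calc y / (5 * R * (M : ℝ) ^ 2) ≤ y / (2 * R) * (1 / (M : ℝ) ^ 2) := by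
          rw [div_mul_div_comm, mul_one]
          apply div_le_div_of_nonneg_left hy.le (by positivity)
          apply mul_le_mul_of_nonneg_right _ (by positivity)
          linarith
      _ ≤ q.im * (1 / ((M : ℝ) ^ 2 * t0 ^ 2)) := mul_le_mul hqi g3 (by positivity) hq0.le
      _ = _ := by ring
  have i3 : y / (5 * R * (M : ℝ) ^ 2) ≤
      ((1 / M - 1 / (M ^ 2 * t) : ℂ) + q / ((M : ℂ) ^ 2 * t0 ^ 2)).im := by
    rw [Complex.add_im, hxim, zero_add]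
    exact hy'im
  have i4 : y / (5 * R * (M : ℝ) ^ 2) ≤
      (-(1 / M - 1 / (M ^ 2 * t) : ℂ) + q / ((M : ℂ) ^ 2 * t0 ^ 2)).im := by
    rw [Complex.add_im, Complex.neg_im, hxim, neg_zero, zero_add]
    exact hy'im
  have hL := hlip y 0 1 _ _ _ _ hy i1 i2 i3 i4
  have hB := hbd y 0 1 _ _ hy i1 i2
  rw [hid, hy']
  set p1 := P 0 1 ((1 / M - 1 / (M ^ 2 * t) : ℂ) + q / ((M : ℂ) ^ 2 * t * (t + q)))
    (-(1 / M - 1 / (M ^ 2 * t) : ℂ) + q / ((M : ℂ) ^ 2 * t * (t - q))) with hp1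
  set p2 := P 0 1 ((1 / M - 1 / (M ^ 2 * t) : ℂ) + q / ((M : ℂ) ^ 2 * t0 ^ 2))
    (-(1 / M - 1 / (M ^ 2 * t) : ℂ) + q / ((M : ℂ) ^ 2 * t0 ^ 2)) with hp2
  -- the coefficients
  obtain ⟨a1, a2⟩ := db_inv hM4 ht0 ht01 hl4 ht1 ht2 hq8
  have hqn8 : ‖-q‖ ≤ 1 / 8 := by rwa [norm_neg]
  obtain ⟨b1, b2⟩ := db_inv hM4 ht0 ht01 hl4 ht1 ht2 hqn8
  rw [norm_neg] at b2
  rw [← sub_eq_add_neg] at b1 b2
  have g1 : ‖(((M : ℝ) : ℂ) * t0)⁻¹‖ ≤ 1 := by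
    have : (((M : ℝ) : ℂ) * t0)⁻¹ = (((M * t0)⁻¹ : ℝ) : ℂ) := by push_cast; ring
    rw [this, Complex.norm_real, Real.norm_of_nonneg (by positivity)]
    apply inv_le_one_of_one_le₀
    nlinarith
  rw [hMc] at a1 a2 b1 b2 g1
  have hco := db_pow2 a1 b1 g1 k0 k1
  have e5 : (((M : ℂ) * (t + q)) ^ k0)⁻¹ * (((M : ℂ) * (t - q)) ^ k1)⁻¹ =
      (((M : ℂ) * (t + q))⁻¹) ^ k0 * (((M : ℂ) * (t - q))⁻¹) ^ k1 := by
    rw [inv_pow, inv_pow]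
  have e6 : (((M : ℂ) * t0) ^ (k0 + k1))⁻¹ = (((M : ℂ) * t0)⁻¹) ^ (k0 + k1) := by rw [inv_pow]
  rw [e5, e6]
  set A := (((M : ℂ) * (t + q))⁻¹) ^ k0 * (((M : ℂ) * (t - q))⁻¹) ^ k1 with hA
  set B := (((M : ℂ) * t0)⁻¹) ^ (k0 + k1) with hBd
  have hBn : ‖B‖ ≤ 1 := by
    rw [hBd, norm_pow]
    exact pow_le_one₀ (norm_nonneg _) g1
  have hco' : ‖A - B‖ ≤ ((k0 : ℝ) + k1) * M * (l + y * S) := by
    have g2 : l + ‖q‖ ≤ l + y * S := by linarith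
    have g3 : (M : ℝ) * (l + ‖q‖) ≤ M * (l + y * S) := mul_le_mul_of_nonneg_left g2 hM0.le
    calc ‖A - B‖ ≤ k0 * (M * (l + y * S)) + k1 * (M * (l + y * S)) :=
          hco.trans (add_le_add (mul_le_mul_of_nonneg_left (a2.trans g3) (by positivity))
            (mul_le_mul_of_nonneg_left (b2.trans g3) (by positivity)))
      _ = _ := by ring
  -- the points
  have d1 := db_pts hM4 ht0 ht01 hl hl4 ht1 ht2 hq8 1 (by simp)
  have d2 := db_pts hM4 ht0 ht01 hl hl4 ht1 ht2 hq8 (-1) (by simp)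
  rw [one_mul, hMc] at d1
  rw [neg_one_mul, ← sub_eq_add_neg, hMc] at d2
  have hdis : 4 * (‖q‖ * (l + ‖q‖)) ≤ 4 * (y * S * (l + y * S)) := by
    have g4 : ‖q‖ ≤ y * S := by linarith
    have g5 := norm_nonneg q
    apply mul_le_mul_of_nonneg_left _ (by norm_num)
    exact mul_le_mul g4 (by linarith) (by positivity) hyS.le
  have hdd : ‖p1 - p2‖ ≤ C1 * y ^ (-kk k0 k1 - 1) * (8 * (y * S * (l + y * S))) := by
    refine hL.trans ?_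
    apply mul_le_mul_of_nonneg_left _ (by positivity)
    have g6 : ((1 / M - 1 / (M ^ 2 * t) : ℂ) + q / ((M : ℂ) ^ 2 * t * (t + q))) -
        ((1 / M - 1 / (M ^ 2 * t) : ℂ) + q / ((M : ℂ) ^ 2 * t0 ^ 2)) =
        q / ((M : ℂ) ^ 2 * t * (t + q)) - q / ((M : ℂ) ^ 2 * t0 ^ 2) := by ring
    have g7 : (-(1 / M - 1 / (M ^ 2 * t) : ℂ) + q / ((M : ℂ) ^ 2 * t * (t - q))) -
        (-(1 / M - 1 / (M ^ 2 * t) : ℂ) + q / ((M : ℂ) ^ 2 * t0 ^ 2)) =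
        q / ((M : ℂ) ^ 2 * t * (t - q)) - q / ((M : ℂ) ^ 2 * t0 ^ 2) := by ring
    rw [g6, g7]
    linarith
  have e7 : C1 * y ^ (-kk k0 k1 - 1) * (8 * (y * S * (l + y * S))) =
      C1 * 8 * (S * (l + y * S)) * y ^ (-kk k0 k1) := by
    rw [Real.rpow_sub_one hy.ne']
    field_simp
  have e8 : A * p1 - B * p2 = (A - B) * p1 + B * (p1 - p2) := by ring
  rw [e8]
  have hyk : 0 < y ^ (-kk k0 k1) := Real.rpow_pos_of_pos hy _
  calc ‖(A - B) * p1 + B * (p1 - p2)‖ ≤ ‖A - B‖ * ‖p1‖ + ‖B‖ * ‖p1 - p2‖ := by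
        refine (norm_add_le _ _).trans ?_
        rw [norm_mul, norm_mul]
    _ ≤ (((k0 : ℝ) + k1) * M * (l + y * S)) * (C2 * y ^ (-kk k0 k1)) +
        1 * (C1 * 8 * (S * (l + y * S)) * y ^ (-kk k0 k1)) := by
        refine add_le_add (mul_le_mul hco' hB (norm_nonneg _) (by positivity))
          (mul_le_mul hBn (by rw [← e7]; exact hdd) (norm_nonneg _) zero_le_one)
    _ ≤ (((k0 : ℝ) + k1) * M * (S * (l + y * S))) * (C2 * y ^ (-kk k0 k1)) +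
        1 * (C1 * 8 * (S * (l + y * S)) * y ^ (-kk k0 k1)) := by
        have g8 : l + y * S ≤ S * (l + y * S) := le_mul_of_one_le_left (by positivity) hS
        have g9 : ((k0 : ℝ) + k1) * M * (l + y * S) ≤ ((k0 : ℝ) + k1) * M * (S * (l + y * S)) :=
          mul_le_mul_of_nonneg_left g8 (by positivity)
        have g10 := mul_le_mul_of_nonneg_right g9 (show 0 ≤ C2 * y ^ (-kk k0 k1) by positivity)
        linarith
    _ = _ := by ring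


end Pool.Agent.HL4
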