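import Pool.Agent.Lib_helper68.HL4.Defs3
import Pool.Agent.Lib_helper68.HL4F.LA
/-!
# HL4, block MB
-/

namespace Pool.Agent.HL4

open UpperHalfPlane hiding I
open Complex MeasureTheory Filter Topology NumberField
open Pool.Agent.HSG (Em Lat IsInt nI NCl dgm lz)
open Pool.Agent.HSG.N (Prim LForm QF v2 HK LamH GG Gb pz)
open scoped nonZeroDivisors MatrixGroups

variable {M k0 k1 : ℕ} {P : ZMod M → ZMod M → ℂ → ℂ → ℂ}

theorem mb_im1 (x : ℝ) (u : ℂ) : ((x : ℂ) + u / 2).im = u.im / 2 := by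
  simp

theorem mb_im2 (x : ℝ) (u : ℂ) : (-(x : ℂ) + u / 2).im = u.im / 2 := by
  simp

theorem mb_cont (h : PF M k0 k1 P) {u : ℂ} (hu : 0 < u.im) :
    Continuous (fun x : ℝ => P 0 1 (x + u / 2) (-x + u / 2)) := by
  rw [← continuousOn_univ]
  refine pf_cont h 0 1 (s := Set.univ) ?_ ?_ ?_ ?_
  · exact (Complex.continuous_ofReal.add continuous_const).continuousOn
  · exact (Complex.continuous_ofReal.neg.add continuous_const).continuousOn
  · intro t _; rw [mb_im1]; linarith
  · intro t _; rw [mb_im2]; linarith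

theorem mb_diff (h : PF M k0 k1 P) (x : ℝ) {u : ℂ} (hu : 0 < u.im) :
    DifferentiableAt ℂ (fun u : ℂ => P 0 1 (x + u / 2) (-x + u / 2)) u := by
  have hopen : IsOpen {p : ℂ × ℂ | 0 < p.1.im ∧ 0 < p.2.im} :=
    (isOpen_lt continuous_const (Complex.continuous_im.comp continuous_fst)).inter
      (isOpen_lt continuous_const (Complex.continuous_im.comp continuous_snd))
  have h1 : DifferentiableAt ℂ (fun p : ℂ × ℂ => P 0 1 p.1 p.2)
      ((x : ℂ) + u / 2, -(x : ℂ) + u / 2) := by
    apply (h.holo 0 1).differentiableAt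
    apply hopen.mem_nhds
    constructor
    · show 0 < ((x : ℂ) + u / 2).im
      rw [mb_im1]; linarith
    · show 0 < (-(x : ℂ) + u / 2).im
      rw [mb_im2]; linarith
  have h2 : DifferentiableAt ℂ (fun u : ℂ => ((x : ℂ) + u / 2, -(x : ℂ) + u / 2)) u := by
    fun_prop
  exact h1.comp u h2

/-- MB -/
theorem ma_bd (h : PF M k0 k1 P) : ∃ C : ℝ, 0 < C ∧ ∀ u : ℂ, 0 < u.im →
    ‖mA P u‖ ≤ C * u.im ^ (-kk k0 k1) := by
  obtain ⟨C, hC, hb⟩ := pf_bd h (R := 2) (by norm_num)
  refine ⟨C, hC, fun u hu => ?_⟩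
  unfold mA
  have h1 := intervalIntegral.norm_integral_le_of_norm_le_const (a := (0 : ℝ)) (b := 1)
    (f := fun x : ℝ => P 0 1 (x + u / 2) (-x + u / 2)) (C := C * u.im ^ (-kk k0 k1))
    (fun x _ => hb u.im 0 1 _ _ hu (by rw [mb_im1]) (by rw [mb_im2]))
  simpa using h1

/-- MB -/
theorem ma_holo (h : PF M k0 k1 P) : DifferentiableOn ℂ (mA P) {u : ℂ | 0 < u.im} := by
  intro u0 hu0
  have hu0' : 0 < u0.im := hu0
  obtain ⟨C, hC, hb⟩ := pf_bd h (R := 1) le_rfl
  set ρ : ℝ := u0.im / 4 with hρ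
  have hρ0 : 0 < ρ := by positivity
  have him : ∀ u ∈ Metric.ball u0 ρ, ∀ z ∈ Metric.closedBall u ρ, 2 * ρ ≤ z.im := by
    intro u hu z hz
    have h1 : |(u - u0).im| ≤ ‖u - u0‖ := Complex.abs_im_le_norm _
    have h2 : |(z - u).im| ≤ ‖z - u‖ := Complex.abs_im_le_norm _
    rw [Metric.mem_ball, dist_eq_norm] at hu
    rw [Metric.mem_closedBall, dist_eq_norm] at hz
    rw [Complex.sub_im] at h1 h2
    have h3 := (abs_le.1 (h1.trans hu.le)).1
    have h4 := (abs_le.1 (h2.trans hz)).1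
    have h5 : u0.im = 4 * ρ := by rw [hρ]; ring
    linarith
  have hpos : ∀ u ∈ Metric.ball u0 ρ, 0 < u.im := by
    intro u hu
    have := him u hu u (Metric.mem_closedBall_self hρ0.le)
    linarith
  have hbd : ∀ u ∈ Metric.ball u0 ρ, ∀ x : ℝ,
      ‖deriv (fun u : ℂ => P 0 1 (x + u / 2) (-x + u / 2)) u‖ ≤ C * ρ ^ (-kk k0 k1) / ρ := by
    intro u hu x
    apply Complex.norm_deriv_le_of_forall_mem_sphere_norm_le hρ0
    · apply DifferentiableOn.diffContOnCl
      rw [closure_ball u hρ0.ne']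
      intro z hz
      have := him u hu z hz
      exact (mb_diff h x (by linarith)).differentiableWithinAt
    · intro z hz
      have := him u hu z (Metric.sphere_subset_closedBall hz)
      apply hb ρ 0 1 _ _ hρ0
      · rw [mb_im1]; linarith
      · rw [mb_im2]; linarith
  have hmeas : AEStronglyMeasurable
      (fun x : ℝ => deriv (fun u : ℂ => P 0 1 (x + u / 2) (-x + u / 2)) u0)
      (volume.restrict (Set.uIoc (0 : ℝ) 1)) := by
    -- limit of difference quotients
    have hseq : ∀ n : ℕ, 0 < (u0 + ((1 / ((n : ℝ) + 1) : ℝ) : ℂ)).im := by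
      intro n
      simpa using hu0'
    refine aestronglyMeasurable_of_tendsto_ae atTop
      (f := fun (n : ℕ) (x : ℝ) => (((1 / ((n : ℝ) + 1) : ℝ) : ℂ))⁻¹ *
        (P 0 1 (x + (u0 + ((1 / ((n : ℝ) + 1) : ℝ) : ℂ)) / 2)
          (-x + (u0 + ((1 / ((n : ℝ) + 1) : ℝ) : ℂ)) / 2) -
          P 0 1 (x + u0 / 2) (-x + u0 / 2))) ?_ ?_
    · intro n
      exact (continuous_const.mul ((mb_cont h (hseq n)).sub (mb_cont h hu0'))).aestronglyMeasurable
    · refine Filter.Eventually.of_forall fun x => ?_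
      have hd : HasDerivAt (fun u : ℂ => P 0 1 (x + u / 2) (-x + u / 2))
          (deriv (fun u : ℂ => P 0 1 (x + u / 2) (-x + u / 2)) u0) u0 :=
        (mb_diff h x hu0').hasDerivAt
      rw [hasDerivAt_iff_tendsto_slope_zero] at hd
      have ht : Tendsto (fun n : ℕ => (((1 / ((n : ℝ) + 1) : ℝ) : ℂ))) atTop (𝓝[≠] 0) := by
        rw [tendsto_nhdsWithin_iff]
        constructor
        · have h1 : Tendsto (fun n : ℕ => (1 / ((n : ℝ) + 1) : ℝ)) atTop (𝓝 0) :=
            tendsto_one_div_add_atTop_nhds_zero_nat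
          have h2 := (Complex.continuous_ofReal.tendsto 0).comp h1
          rw [Complex.ofReal_zero] at h2
          exact h2
        · refine Filter.Eventually.of_forall fun n => ?_
          have : (0 : ℝ) < 1 / ((n : ℝ) + 1) := by positivity
          exact Complex.ofReal_ne_zero.2 this.ne'
      have := hd.comp ht
      simpa [Function.comp_def, smul_eq_mul] using this
  have hkey := intervalIntegral.hasDerivAt_integral_of_dominated_loc_of_deriv_le
    (μ := volume) (a := (0 : ℝ)) (b := 1) (bound := fun _ => C * ρ ^ (-kk k0 k1) / ρ)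
    (F := fun (u : ℂ) (x : ℝ) => P 0 1 (x + u / 2) (-x + u / 2))
    (F' := fun (u : ℂ) (x : ℝ) => deriv (fun u : ℂ => P 0 1 (x + u / 2) (-x + u / 2)) u)
    (x₀ := u0) (s := Metric.ball u0 ρ) (Metric.ball_mem_nhds u0 hρ0)
    (by
      filter_upwards [Metric.ball_mem_nhds u0 hρ0] with u hu
      exact (mb_cont h (hpos u hu)).aestronglyMeasurable)
    ((mb_cont h hu0').intervalIntegrable _ _) hmeas
    (Filter.Eventually.of_forall fun x _ u hu => hbd u hu x)
    (continuous_const.intervalIntegrable _ _)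
    (Filter.Eventually.of_forall fun x _ u hu => (mb_diff h x (hpos u hu)).hasDerivAt)
  exact hkey.2.differentiableAt.differentiableWithinAt


end Pool.Agent.HL4
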