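import Pool.Agent.Lib_helper68.HL4.Defs3
import Pool.Agent.Lib_helper68.HL4F.AM
import Pool.Agent.Lib_helper68.HL4F.LA
import Pool.Agent.Lib_helper68.HL4F.MB
/-!
# Block DC: the integral of the main term
-/

namespace Pool.Agent.HL4

open UpperHalfPlane hiding I
open Complex MeasureTheory Filter Topology NumberField
open Pool.Agent.HSG (Em Lat IsInt nI NCl dgm lz)
open Pool.Agent.HSG.N (Prim LForm QF v2 HK LamH GG Gb pz)
open scoped nonZeroDivisors MatrixGroups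

variable {M k0 k1 : ℕ} {P : ZMod M → ZMod M → ℂ → ℂ → ℂ}

theorem dc_deriv {m t : ℝ} (hm : m ≠ 0) (ht : t ≠ 0) :
    HasDerivAt (fun t : ℝ => 1 / m - 1 / (m ^ 2 * t)) (1 / (m ^ 2 * t ^ 2)) t := by
  have h1 : HasDerivAt (fun t : ℝ => m ^ 2 * t) (m ^ 2) t := by
    simpa using (hasDerivAt_id t).const_mul (m ^ 2)
  have h2 : m ^ 2 * t ≠ 0 := by positivity
  have h3 := (h1.inv h2).const_sub (1 / m)
  refine (h3.congr_deriv ?_).congr_of_eventuallyEq (Filter.Eventually.of_forall fun s => ?_)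
  · field_simp
  · simp [one_div]

theorem dyn_main (h : PF M k0 k1 P) {R : ℝ} (hR : 1 ≤ R) : ∃ C : ℝ, 0 < C ∧
    ∀ (y S t0 l : ℝ) (u : ℂ), 0 < y → y ≤ 1 → 1 / R ≤ u.im → u.im ≤ R → 1 ≤ S → ‖u‖ ≤ S →
      1 / 2 ≤ t0 → t0 ≤ 1 → 0 < l → l ≤ 1 →
      ‖(∫ t in t0..(t0 + l), P 0 1 ((1 / M - 1 / (M ^ 2 * t)) + y * u / 2)
          (-(1 / M - 1 / (M ^ 2 * t)) + y * u / 2)) - l * mA P (y * u)‖ ≤
        C * (S ^ 2 * y ^ (3 / 25 : ℝ) + l ^ 2) * y ^ (-kk k0 k1) := by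
  obtain ⟨C1, hC1, hb⟩ := pf_bd h (R := 2 * R) (by linarith)
  obtain ⟨C2, hC2, ha⟩ := arcm h (R := 2 * R) (by linarith)
  obtain ⟨C3, hC3, hm⟩ := ma_bd h
  have hM : (4 : ℝ) ≤ M := by exact_mod_cast h.Mpos
  have hM0 : (0 : ℝ) < M := by linarith
  have hR0 : 0 < R := by linarith
  have hkk : 0 ≤ kk k0 k1 := by unfold kk; positivity
  refine ⟨4 * C1 + M ^ 2 * C2 + 2 * C3 * R ^ kk k0 k1, by positivity, ?_⟩
  intro y S t0 l u hy hy1 hu1 hu2 hS huS ht0 ht1 hl hl1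
  have huim : 0 < u.im := lt_of_lt_of_le (by positivity) hu1
  obtain ⟨q, hq⟩ : ∃ q : ℂ, q = (y : ℂ) * u / 2 := ⟨_, rfl⟩
  have hqim : q.im = y * u.im / 2 := by
    rw [hq, show (y : ℂ) * u / 2 = ((y / 2 : ℝ) : ℂ) * u by push_cast; ring, Complex.im_ofReal_mul]
    ring
  have hqn : ‖q‖ = y * ‖u‖ / 2 := by
    rw [hq, norm_div, norm_mul, Complex.norm_real, Real.norm_eq_abs, abs_of_pos hy]
    norm_num
  have hqpos : 0 < q.im := by rw [hqim]; positivity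
  have hqlow : y / (2 * R) ≤ q.im := by
    rw [hqim, div_le_div_iff₀ (by positivity) (by norm_num)]
    have h1 : 1 ≤ u.im * R := by
      rw [div_le_iff₀ hR0] at hu1
      exact hu1
    nlinarith
  have hqup : q.im ≤ 2 * R * y := by
    rw [hqim]
    nlinarith
  have hqS : ‖q‖ ≤ S * y := by
    rw [hqn]
    nlinarith [norm_nonneg u]
  have hqq : q + q = (y : ℂ) * u := by rw [hq]; ring
  obtain ⟨X, hX⟩ : ∃ X : ℝ → ℝ, X = fun t => 1 / (M : ℝ) - 1 / ((M : ℝ) ^ 2 * t) := ⟨_, rfl⟩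
  obtain ⟨g, hg⟩ : ∃ g : ℝ → ℂ, g = fun x : ℝ => P 0 1 ((x : ℂ) + q) (-(x : ℂ) + q) := ⟨_, rfl⟩
  have hgc : Continuous g := by
    rw [← continuousOn_univ, hg]
    refine pf_cont h 0 1 ?_ ?_ ?_ ?_
    · exact (Complex.continuous_ofReal.add continuous_const).continuousOn
    · exact (Complex.continuous_ofReal.neg.add continuous_const).continuousOn
    · intro t _
      simpa using hqpos
    · intro t _
      simpa using hqpos
  have hgb : ∀ x, ‖g x‖ ≤ C1 * y ^ (-kk k0 k1) := by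
    intro x
    rw [hg]
    refine hb y 0 1 _ _ hy ?_ ?_
    · simpa using hqlow
    · simpa using hqlow
  have hfg : ∀ t : ℝ, P 0 1 ((1 / M - 1 / (M ^ 2 * t)) + y * u / 2)
      (-(1 / M - 1 / (M ^ 2 * t)) + y * u / 2) = g (X t) := by
    intro t
    rw [hg, hX, ← hq]
    push_cast
    rfl
  -- the interval
  have hI : ∀ t ∈ Set.uIcc t0 (t0 + l), t0 ≤ t ∧ t ≤ t0 + l := by
    intro t ht
    rw [Set.uIcc_of_le (by linarith)] at ht
    exact ht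
  have hder : ∀ t ∈ Set.uIcc t0 (t0 + l), HasDerivAt X (1 / ((M : ℝ) ^ 2 * t ^ 2)) t := by
    intro t ht
    rw [hX]
    exact dc_deriv hM0.ne' (by linarith [(hI t ht).1])
  have hXc : ContinuousOn X (Set.uIcc t0 (t0 + l)) :=
    fun t ht => (hder t ht).continuousAt.continuousWithinAt
  have hdc : ContinuousOn (fun t : ℝ => 1 / ((M : ℝ) ^ 2 * t ^ 2)) (Set.uIcc t0 (t0 + l)) := by
    refine ContinuousOn.div continuousOn_const (by fun_prop) ?_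
    intro t ht
    have : 0 < t := by linarith [(hI t ht).1]
    positivity
  have hsub : ∫ t in t0..(t0 + l), (1 / ((M : ℝ) ^ 2 * t ^ 2)) • g (X t) =
      ∫ x in X t0..X (t0 + l), g x :=
    intervalIntegral.integral_comp_smul_deriv hder hdc hgc
  have hgX : ContinuousOn (fun t => g (X t)) (Set.uIcc t0 (t0 + l)) :=
    hgc.comp_continuousOn hXc
  have hsq : ContinuousOn (fun t : ℝ => ((1 - t0 ^ 2 / t ^ 2 : ℝ) : ℂ)) (Set.uIcc t0 (t0 + l)) := by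
    refine Complex.continuous_ofReal.comp_continuousOn ?_
    refine continuousOn_const.sub (ContinuousOn.div continuousOn_const (by fun_prop) ?_)
    intro t ht
    have : 0 < t := by linarith [(hI t ht).1]
    positivity
  have hi1 : IntervalIntegrable (fun t : ℝ => ((1 - t0 ^ 2 / t ^ 2 : ℝ) : ℂ) * g (X t)) volume
      t0 (t0 + l) := (hsq.mul hgX).intervalIntegrable
  have hi2 : IntervalIntegrable (fun t : ℝ => (((t0 ^ 2 * M ^ 2 : ℝ)) : ℂ) *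
      ((1 / ((M : ℝ) ^ 2 * t ^ 2)) • g (X t))) volume t0 (t0 + l) :=
    (continuousOn_const.mul (hdc.smul hgX)).intervalIntegrable
  have hsplit : ∫ t in t0..(t0 + l), g (X t) =
      (∫ t in t0..(t0 + l), ((1 - t0 ^ 2 / t ^ 2 : ℝ) : ℂ) * g (X t)) +
      ((t0 ^ 2 * M ^ 2 : ℝ) : ℂ) * ∫ x in X t0..X (t0 + l), g x := by
    rw [← hsub, ← intervalIntegral.integral_const_mul, ← intervalIntegral.integral_add hi1 hi2]
    refine intervalIntegral.integral_congr fun t ht => ?_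
    have ht' : 0 < t := by linarith [(hI t ht).1]
    have h1 : (((t0 ^ 2 * M ^ 2 : ℝ)) : ℂ) * ((1 / ((M : ℝ) ^ 2 * t ^ 2)) • g (X t)) =
        ((t0 ^ 2 / t ^ 2 : ℝ) : ℂ) * g (X t) := by
      rw [Complex.real_smul, ← mul_assoc, ← Complex.ofReal_mul]
      congr 2
      field_simp
    show g (X t) = ((1 - t0 ^ 2 / t ^ 2 : ℝ) : ℂ) * g (X t) + (((t0 ^ 2 * M ^ 2 : ℝ)) : ℂ) *
      ((1 / ((M : ℝ) ^ 2 * t ^ 2)) • g (X t))
    rw [h1]
    push_cast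
    ring
  -- the first part
  have hpart1 : ‖∫ t in t0..(t0 + l), ((1 - t0 ^ 2 / t ^ 2 : ℝ) : ℂ) * g (X t)‖ ≤
      4 * l * (C1 * y ^ (-kk k0 k1)) * l := by
    have h1 : ∀ t ∈ Set.uIoc t0 (t0 + l), ‖((1 - t0 ^ 2 / t ^ 2 : ℝ) : ℂ) * g (X t)‖ ≤
        4 * l * (C1 * y ^ (-kk k0 k1)) := by
      intro t ht
      rw [Set.uIoc_of_le (by linarith)] at ht
      obtain ⟨ht1', ht2'⟩ := ht
      have ht' : 0 < t := by linarith
      rw [norm_mul, Complex.norm_real, Real.norm_eq_abs]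
      have h2 : |1 - t0 ^ 2 / t ^ 2| ≤ 4 * l := by
        have h3 : t0 ^ 2 / t ^ 2 ≤ 1 := by
          rw [div_le_one (by positivity)]
          nlinarith
        rw [abs_of_nonneg (by linarith), sub_le_iff_le_add, ← sub_le_iff_le_add',
          le_div_iff₀ (by positivity)]
        have h5 : t ^ 2 - t0 ^ 2 ≤ 4 * l * t ^ 2 := by
          have h6 : t ^ 2 - t0 ^ 2 = (t - t0) * (t + t0) := by ring
          have h7 : (t - t0) * (t + t0) ≤ l * (t + t) :=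
            mul_le_mul (by linarith) (by linarith) (by linarith) hl.le
          have h8 : 0 ≤ l * t * (2 * t - 1) :=
            mul_nonneg (mul_nonneg hl.le ht'.le) (by linarith)
          nlinarith
        linarith
      exact mul_le_mul h2 (hgb _) (norm_nonneg _) (by positivity)
    have h2 := intervalIntegral.norm_integral_le_of_norm_le_const h1
    rwa [show t0 + l - t0 = l by ring, abs_of_pos hl] at h2
  -- the second part
  have hX1 : X (t0 + l) - X t0 = l / (M ^ 2 * (t0 * (t0 + l))) := by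
    rw [hX]
    have h1 : t0 + l ≠ 0 := by positivity
    have h2 : t0 ≠ 0 := by positivity
    have h3 : (M : ℝ) ≠ 0 := hM0.ne'
    field_simp
    ring
  have hXle : l / ((M : ℝ) ^ 2 * (t0 * (t0 + l))) ≤ 1 := by
    rw [div_le_one (by positivity)]
    have h1 : (16 : ℝ) ≤ M ^ 2 := by nlinarith
    have h2 : (1 / 4 : ℝ) ≤ t0 * (t0 + l) := by nlinarith
    nlinarith
  have hpart2 := ha y q q S (X t0) (X (t0 + l)) hy hy1 hqlow hqup hqlow hqup hS hqS hqS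
    (by have : 0 ≤ l / ((M : ℝ) ^ 2 * (t0 * (t0 + l))) := by positivity
        linarith) (by linarith)
  rw [hqq] at hpart2
  have hmb : ‖mA P (y * u)‖ ≤ C3 * (R ^ kk k0 k1 * y ^ (-kk k0 k1)) := by
    have h1 : ((y : ℂ) * u).im = y * u.im := Complex.im_ofReal_mul _ _
    have h2 := hm ((y : ℂ) * u) (by rw [h1]; positivity)
    rw [h1, Real.mul_rpow hy.le huim.le] at h2
    refine h2.trans (mul_le_mul_of_nonneg_left ?_ hC3.le)
    rw [mul_comm]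
    refine mul_le_mul_of_nonneg_right ?_ (by positivity)
    rw [Real.rpow_neg huim.le, ← Real.inv_rpow huim.le]
    refine Real.rpow_le_rpow (by positivity) ?_ hkk
    rw [inv_le_comm₀ huim hR0]
    rwa [one_div] at hu1
  have hcoef : t0 ^ 2 * (M : ℝ) ^ 2 * (X (t0 + l) - X t0) = l - l ^ 2 / (t0 + l) := by
    rw [hX1]
    have h1 : t0 + l ≠ 0 := by positivity
    have h2 : t0 ≠ 0 := by positivity
    have h3 : (M : ℝ) ≠ 0 := hM0.ne'
    have h4 : t0 ^ 2 * (M : ℝ) ^ 2 * (l / ((M : ℝ) ^ 2 * (t0 * (t0 + l)))) =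
        t0 * l / (t0 + l) := by
      field_simp
    rw [h4, eq_sub_iff_add_eq, ← add_div, div_eq_iff h1]
    ring
  have hint : (∫ t in t0..(t0 + l), P 0 1 ((1 / M - 1 / (M ^ 2 * t)) + y * u / 2)
      (-(1 / M - 1 / (M ^ 2 * t)) + y * u / 2)) = ∫ t in t0..(t0 + l), g (X t) :=
    intervalIntegral.integral_congr fun t _ => hfg t
  rw [hint, hsplit]
  have hgi : (∫ x in X t0..X (t0 + l), g x) =
      ∫ x in X t0..X (t0 + l), P 0 1 ((x : ℂ) + q) (-(x : ℂ) + q) := by rw [hg]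
  rw [hgi]
  obtain ⟨J, hJ⟩ : ∃ J : ℂ, J = ∫ x in X t0..X (t0 + l), P 0 1 ((x : ℂ) + q) (-(x : ℂ) + q) :=
    ⟨_, rfl⟩
  obtain ⟨I1, hI1⟩ : ∃ I1 : ℂ, I1 =
    ∫ t in t0..(t0 + l), ((1 - t0 ^ 2 / t ^ 2 : ℝ) : ℂ) * g (X t) := ⟨_, rfl⟩
  rw [← hJ, ← hI1]
  rw [← hJ] at hpart2
  rw [← hI1] at hpart1
  have hid : I1 + ((t0 ^ 2 * M ^ 2 : ℝ) : ℂ) * J - l * mA P (y * u) =
      I1 + ((t0 ^ 2 * M ^ 2 : ℝ) : ℂ) * (J - ((X (t0 + l) : ℂ) - X t0) * mA P (y * u)) -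
      ((l ^ 2 / (t0 + l) : ℝ) : ℂ) * mA P (y * u) := by
    have h1 : ((t0 ^ 2 * M ^ 2 : ℝ) : ℂ) * ((X (t0 + l) : ℂ) - X t0) =
        (l : ℂ) - ((l ^ 2 / (t0 + l) : ℝ) : ℂ) := by
      rw [← Complex.ofReal_sub, ← Complex.ofReal_mul, hcoef, Complex.ofReal_sub]
    linear_combination (mA P (y * u)) * h1
  rw [hid]
  have e1 : ‖((t0 ^ 2 * M ^ 2 : ℝ) : ℂ) * (J - ((X (t0 + l) : ℂ) - X t0) * mA P (y * u))‖ ≤
      M ^ 2 * (C2 * S ^ 2 * y ^ (-kk k0 k1 + 3 / 25)) := by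
    rw [norm_mul, Complex.norm_real, Real.norm_eq_abs, abs_of_nonneg (by positivity)]
    refine mul_le_mul ?_ hpart2 (norm_nonneg _) (by positivity)
    have : t0 ^ 2 ≤ 1 := by nlinarith
    nlinarith [sq_nonneg (M : ℝ)]
  have e2 : ‖((l ^ 2 / (t0 + l) : ℝ) : ℂ) * mA P (y * u)‖ ≤
      2 * l ^ 2 * (C3 * (R ^ kk k0 k1 * y ^ (-kk k0 k1))) := by
    rw [norm_mul, Complex.norm_real, Real.norm_eq_abs, abs_of_nonneg (by positivity)]
    refine mul_le_mul ?_ hmb (norm_nonneg _) (by positivity)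
    rw [div_le_iff₀ (by positivity)]
    nlinarith [sq_nonneg l]
  have e3 : y ^ (-kk k0 k1 + 3 / 25) = y ^ (3 / 25 : ℝ) * y ^ (-kk k0 k1) := by
    rw [add_comm, Real.rpow_add hy]
  rw [e3] at e1
  have ey : 0 < y ^ (-kk k0 k1) := Real.rpow_pos_of_pos hy _
  have ey2 : 0 < y ^ (3 / 25 : ℝ) := Real.rpow_pos_of_pos hy _
  have eR : 0 < R ^ kk k0 k1 := Real.rpow_pos_of_pos hR0 _
  calc ‖I1 + ((t0 ^ 2 * M ^ 2 : ℝ) : ℂ) * (J - ((X (t0 + l) : ℂ) - X t0) * mA P (y * u)) -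
      ((l ^ 2 / (t0 + l) : ℝ) : ℂ) * mA P (y * u)‖ ≤
      4 * l * (C1 * y ^ (-kk k0 k1)) * l +
        M ^ 2 * (C2 * S ^ 2 * (y ^ (3 / 25 : ℝ) * y ^ (-kk k0 k1))) +
        2 * l ^ 2 * (C3 * (R ^ kk k0 k1 * y ^ (-kk k0 k1))) :=
      (norm_sub_le _ _).trans (add_le_add ((norm_add_le _ _).trans (add_le_add hpart1 e1)) e2)
    _ ≤ (4 * C1 + M ^ 2 * C2 + 2 * C3 * R ^ kk k0 k1) * (S ^ 2 * y ^ (3 / 25 : ℝ) + l ^ 2) *
        y ^ (-kk k0 k1) := by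
      have f1 : 0 ≤ C1 * (S ^ 2 * y ^ (3 / 25 : ℝ)) * y ^ (-kk k0 k1) := by positivity
      have f2 : 0 ≤ (M : ℝ) ^ 2 * C2 * l ^ 2 * y ^ (-kk k0 k1) := by positivity
      have f3 : 0 ≤ C3 * R ^ kk k0 k1 * (S ^ 2 * y ^ (3 / 25 : ℝ)) * y ^ (-kk k0 k1) := by
        positivity
      nlinarith

end Pool.Agent.HL4

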