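import Pool.Agent.Lib_helper68.HL4.Defs3
import Pool.Agent.Lib_helper68.HL4F.AM
import Pool.Agent.Lib_helper68.HL4F.DB
import Pool.Agent.Lib_helper68.HL4F.DC
import Pool.Agent.Lib_helper68.HL4F.LA
import Pool.Agent.Lib_helper68.HL4F.MB
/-!
# HL4, block DD: the relation (DYN)
-/

set_option autoImplicit false

namespace Pool.Agent.HL4

open UpperHalfPlane hiding I
open Complex MeasureTheory Filter Topology NumberField
open Pool.Agent.HSG (Em Lat IsInt nI NCl dgm lz)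
open Pool.Agent.HSG.N (Prim LForm QF v2 HK LamH GG Gb pz)
open scoped nonZeroDivisors MatrixGroups

variable {M k0 k1 : ℕ} {P : ZMod M → ZMod M → ℂ → ℂ → ℂ}

/-- trivial bound -/
theorem dd_triv {C R K y : ℝ} {A : ℂ → ℂ} {u : ℂ} (hC : 0 < C) (hR : 1 ≤ R) (hK : 0 ≤ K)
    (hA : ∀ u : ℂ, 0 < u.im → ‖A u‖ ≤ C * u.im ^ (-K)) (hy : 0 < y) (hu : 1 / R ≤ u.im) :
    ‖((y ^ K : ℝ) : ℂ) * A (y * u)‖ ≤ C * R ^ K := by
  have hR0 : 0 < R := by linarith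
  have hui : 0 < u.im := lt_of_lt_of_le (by positivity) hu
  have him : ((y : ℂ) * u).im = y * u.im := by simp
  have h1 := hA (y * u) (by rw [him]; positivity)
  rw [him] at h1
  rw [norm_mul, Complex.norm_real, Real.norm_of_nonneg (by positivity)]
  calc y ^ K * ‖A (y * u)‖ ≤ y ^ K * (C * (y * u.im) ^ (-K)) := by gcongr
    _ = C * (y ^ K * y ^ (-K)) * u.im ^ (-K) := by
        rw [Real.mul_rpow hy.le hui.le]; ring
    _ = C * u.im ^ (-K) := by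
        rw [← Real.rpow_add hy, add_neg_cancel, Real.rpow_zero, mul_one]
    _ ≤ C * R ^ K := by
        have h2 : u.im ^ (-K) ≤ R ^ K := by
          have h3 : u.im ^ (-K) ≤ (1 / R) ^ (-K) :=
            Real.rpow_le_rpow_of_nonpos (by positivity) hu (by linarith)
          have h4 : (1 / R) ^ (-K) = R ^ K := by
            rw [one_div, Real.inv_rpow hR0.le, Real.rpow_neg hR0.le, inv_inv]
          rwa [h4] at h3
        gcongr

theorem dd_kk_nonneg (k0 k1 : ℕ) : 0 ≤ kk k0 k1 := by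
  unfold kk
  positivity

/-- the integral of the left side -/
theorem dd_left (h : PF M k0 k1 P) {R : ℝ} (hR : 1 ≤ R) : ∃ C : ℝ, 0 < C ∧
    ∀ (y S t0 l : ℝ) (u : ℂ), 0 < y → y ≤ 1 → 1 / R ≤ u.im → u.im ≤ R → 1 ≤ S → ‖u‖ ≤ S →
      0 < l → l ≤ 1 →
      ‖(∫ t in t0..(t0 + l), P 0 1 (-1 / M + t + y * u / 2) (1 / M - t + y * u / 2)) -
        l * mA P (y * u)‖ ≤ C * S ^ 2 * y ^ (-kk k0 k1 + 3 / 25) := by
  obtain ⟨C, hC, hA⟩ := arcm h (R := 2 * R) (by linarith)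
  refine ⟨C, hC, ?_⟩
  intro y S t0 l u hy hy1 hu1 hu2 hS hS2 hl hl1
  have hR0 : 0 < R := by linarith
  have him : ((y : ℂ) * u / 2).im = y * u.im / 2 := by
    have : ((y : ℂ) * u / 2) = ((y / 2 : ℝ) : ℂ) * u := by push_cast; ring
    rw [this, Complex.im_ofReal_mul]
    ring
  have hn : ‖(y : ℂ) * u / 2‖ ≤ S * y := by
    rw [norm_div, norm_mul, Complex.norm_real, Real.norm_of_nonneg hy.le]
    have : ‖(2 : ℂ)‖ = 2 := by norm_num
    rw [this]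
    have h2 : y * ‖u‖ ≤ y * S := by gcongr
    have h3 : 0 ≤ y * ‖u‖ := by positivity
    linarith
  have h1 : y / (2 * R) ≤ ((y : ℂ) * u / 2).im := by
    rw [him]
    have : y * (1 / R) ≤ y * u.im := by gcongr
    calc y / (2 * R) = y * (1 / R) / 2 := by field_simp
      _ ≤ _ := by linarith
  have h2 : ((y : ℂ) * u / 2).im ≤ 2 * R * y := by
    rw [him]
    have : y * u.im ≤ y * R := by gcongr
    have h4 : 0 ≤ y * R := by positivity
    nlinarith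
  have key := hA y ((y : ℂ) * u / 2) ((y : ℂ) * u / 2) S (t0 - 1 / M) (t0 + l - 1 / M) hy hy1 h1 h2
    h1 h2 hS hn hn (by linarith) (by linarith)
  rw [← intervalIntegral.integral_comp_sub_right (fun x : ℝ => P 0 1 (x + (y : ℂ) * u / 2)
    (-x + (y : ℂ) * u / 2)) (1 / (M : ℝ))] at key
  have e1 : ∀ t : ℝ, P 0 1 (((t - 1 / (M : ℝ) : ℝ) : ℂ) + (y : ℂ) * u / 2)
    (-((t - 1 / (M : ℝ) : ℝ) : ℂ) + (y : ℂ) * u / 2) =
      P 0 1 (-1 / M + t + y * u / 2) (1 / M - t + y * u / 2) := by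
    intro t
    congr 1
    · push_cast; ring
    · push_cast; ring
  simp only [e1] at key
  have e2 : (((t0 + l - 1 / (M : ℝ) : ℝ) : ℂ) - ((t0 - 1 / (M : ℝ) : ℝ) : ℂ)) *
      mA P ((y : ℂ) * u / 2 + (y : ℂ) * u / 2) = l * mA P (y * u) := by
    congr 1
    · push_cast; ring
    · congr 1; ring
  rw [e2] at key
  exact key

/-- continuity of the left side -/
theorem dd_int1 (h : PF M k0 k1 P) {y t0 l : ℝ} {u : ℂ} (hy : 0 < y) (hu : 0 < u.im) :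
    IntervalIntegrable (fun t : ℝ => P 0 1 (-1 / M + t + y * u / 2) (1 / M - t + y * u / 2))
      volume t0 (t0 + l) := by
  apply ContinuousOn.intervalIntegrable
  have him : ((y : ℂ) * u / 2).im = y * u.im / 2 := by
    have : ((y : ℂ) * u / 2) = ((y / 2 : ℝ) : ℂ) * u := by push_cast; ring
    rw [this, Complex.im_ofReal_mul]
    ring
  have hr : ∀ a : ℝ, ((a : ℂ) + (y : ℂ) * u / 2).im = y * u.im / 2 := by
    intro a
    rw [add_im, ofReal_im, zero_add, him]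
  apply pf_cont h
  · fun_prop
  · fun_prop
  · intro t _
    have : (-1 / (M : ℂ) + t + y * u / 2) = (((-1 / (M : ℝ) + t : ℝ) : ℂ) + (y : ℂ) * u / 2) := by
      push_cast; ring
    rw [this, hr]
    positivity
  · intro t _
    have : (1 / (M : ℂ) - t + y * u / 2) = (((1 / (M : ℝ) - t : ℝ) : ℂ) + (y : ℂ) * u / 2) := by
      push_cast; ring
    rw [this, hr]
    positivity

/-- continuity of the right side -/
theorem dd_int2 (h : PF M k0 k1 P) {y t0 l : ℝ} {u : ℂ} (hy : 0 < y) (hu : 0 < u.im) (ht0 : 0 < t0)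
    (hl : 0 < l) :
    IntervalIntegrable (fun t : ℝ => P 0 1 ((1 / M - 1 / (M ^ 2 * t)) + (y : ℂ) * u / 2)
            (-(1 / M - 1 / (M ^ 2 * t)) + (y : ℂ) * u / 2))
      volume t0 (t0 + l) := by
  apply ContinuousOn.intervalIntegrable
  rw [Set.uIcc_of_le (by linarith)]
  have hM : (M : ℝ) ≠ 0 := by
    have := h.Mpos
    have h2 : 0 < M := by omega
    positivity
  have him : ((y : ℂ) * u / 2).im = y * u.im / 2 := by
    have : ((y : ℂ) * u / 2) = ((y / 2 : ℝ) : ℂ) * u := by push_cast; ring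
    rw [this, Complex.im_ofReal_mul]
    ring
  have hr : ∀ a : ℝ, ((a : ℂ) + (y : ℂ) * u / 2).im = y * u.im / 2 := by
    intro a
    rw [add_im, ofReal_im, zero_add, him]
  have hc : ContinuousOn (fun t : ℝ => (1 / (M : ℝ) - 1 / ((M : ℝ) ^ 2 * t))) (Set.Icc t0 (t0 + l)) := by
    apply ContinuousOn.sub continuousOn_const
    apply ContinuousOn.div continuousOn_const (by fun_prop)
    intro t ht
    have : 0 < t := lt_of_lt_of_le ht0 ht.1
    positivity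
  have hc2 : ContinuousOn (fun t : ℝ => (((1 / (M : ℝ) - 1 / ((M : ℝ) ^ 2 * t)) : ℝ) : ℂ))
      (Set.Icc t0 (t0 + l)) := Complex.continuous_ofReal.comp_continuousOn hc
  have e1 : ∀ t : ℝ, ((1 / (M : ℂ) - 1 / (M ^ 2 * t)) + (y : ℂ) * u / 2) =
      (((1 / (M : ℝ) - 1 / ((M : ℝ) ^ 2 * t)) : ℝ) : ℂ) + (y : ℂ) * u / 2 := by
    intro t; push_cast; ring
  have e2 : ∀ t : ℝ, (-(1 / (M : ℂ) - 1 / (M ^ 2 * t)) + (y : ℂ) * u / 2) =
      ((-(1 / (M : ℝ) - 1 / ((M : ℝ) ^ 2 * t)) : ℝ) : ℂ) + (y : ℂ) * u / 2 := by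
    intro t; push_cast; ring
  apply pf_cont h
  · simp only [e1]
    exact hc2.add continuousOn_const
  · simp only [e2]
    have hc3 : ContinuousOn (fun t : ℝ => ((-(1 / (M : ℝ) - 1 / ((M : ℝ) ^ 2 * t)) : ℝ) : ℂ))
      (Set.Icc t0 (t0 + l)) := Complex.continuous_ofReal.comp_continuousOn hc.neg
    exact hc3.add continuousOn_const
  · intro t _
    rw [e1, hr]
    positivity
  · intro t _
    rw [e2, hr]
    positivity

/-- the small case -/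
theorem dd_small (h : PF M k0 k1 P) {R : ℝ} (hR : 1 ≤ R) : ∃ C c : ℝ, 0 < C ∧ 0 < c ∧
    ∀ (y S t0 : ℝ) (u : ℂ), 0 < y → y ≤ 1 → 1 / R ≤ u.im → u.im ≤ R → 1 ≤ S → ‖u‖ ≤ S →
      1 / 2 ≤ t0 → t0 ≤ 1 → S ^ 2 * y ^ (3 / 50 : ℝ) ≤ c →
      ‖((y ^ kk k0 k1 : ℝ) : ℂ) * mA P (y * u) -
        (((y / (M * t0) ^ 2) ^ kk k0 k1 : ℝ) : ℂ) * mA P (((y / (M * t0) ^ 2 : ℝ) : ℂ) * u)‖ ≤
        C * S ^ 2 * y ^ (3 / 50 : ℝ) := by
  obtain ⟨Ca, hCa, ha⟩ := dd_left h hR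
  obtain ⟨Cp, c, hCp, hc, hp⟩ := dyn_pt h hR
  obtain ⟨Cm, hCm, hm⟩ := dyn_main h hR
  refine ⟨Ca + 2 * Cp + 2 * Cm, c / 2, by positivity, by positivity, ?_⟩
  intro y S t0 u hy hy1 hu1 hu2 hS hS2 ht0 ht1 hsm
  set l : ℝ := y ^ (3 / 50 : ℝ) with hl
  have hl0 : 0 < l := Real.rpow_pos_of_pos hy _
  have hl1 : l ≤ 1 := Real.rpow_le_one hy.le hy1 (by norm_num)
  have hyl : y ≤ l := by
    calc y = y ^ (1 : ℝ) := (Real.rpow_one y).symm
      _ ≤ y ^ (3 / 50 : ℝ) := Real.rpow_le_rpow_of_exponent_ge hy hy1 (by norm_num)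
  have hR0 : 0 < R := by linarith
  have hui : 0 < u.im := lt_of_lt_of_le (by positivity) hu1
  have hSS : S * (l + y * S) ≤ 2 * (S ^ 2 * l) := by
    have h1 : S * l ≤ S ^ 2 * l := by
      have : S ≤ S ^ 2 := by nlinarith
      gcongr
    have h2 : S * (y * S) ≤ S ^ 2 * l := by
      calc S * (y * S) = S ^ 2 * y := by ring
        _ ≤ S ^ 2 * l := by gcongr
    calc S * (l + y * S) = S * l + S * (y * S) := by ring
      _ ≤ _ := by linarith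
  have hSc : S * (l + y * S) ≤ c := by linarith
  have hM4 : (4 : ℝ) ≤ M := by exact_mod_cast h.Mpos
  have hMt : 2 ≤ M * t0 := by nlinarith
  have hMt0 : 0 < M * t0 := by linarith
  set y' : ℝ := y / (M * t0) ^ 2 with hy'
  have hy'0 : 0 < y' := by positivity
  have hy'y : y' ≤ y := by
    rw [hy']
    apply div_le_self hy.le
    nlinarith
  have hy'1 : y' ≤ 1 := hy'y.trans hy1
  set K : ℝ := kk k0 k1 with hK
  have hK0 : 0 ≤ K := dd_kk_nonneg k0 k1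
  -- the three integrals
  set F : ℝ → ℂ := fun t => P 0 1 (-1 / M + t + y * u / 2) (1 / M - t + y * u / 2) with hF
  set G : ℝ → ℂ := fun t => P 0 1 ((1 / M - 1 / (M ^ 2 * t)) + (y' : ℂ) * u / 2)
            (-(1 / M - 1 / (M ^ 2 * t)) + (y' : ℂ) * u / 2) with hG
  set κ : ℂ := ((M * t0 : ℂ) ^ (k0 + k1))⁻¹ with hκ
  have hFi : IntervalIntegrable F volume t0 (t0 + l) := dd_int1 h hy hui
  have hGi : IntervalIntegrable G volume t0 (t0 + l) := dd_int2 h hy'0 hui (by linarith) hl0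
  have h1 : ‖(∫ t in t0..(t0 + l), F t) - l * mA P (y * u)‖ ≤ Ca * S ^ 2 * y ^ (-K + 3 / 25) :=
    ha y S t0 l u hy hy1 hu1 hu2 hS hS2 hl0 hl1
  have h2 : ‖(∫ t in t0..(t0 + l), G t) - l * mA P (y' * u)‖ ≤
      Cm * (S ^ 2 * y' ^ (3 / 25 : ℝ) + l ^ 2) * y' ^ (-K) :=
    hm y' S t0 l u hy'0 hy'1 hu1 hu2 hS hS2 ht0 ht1 hl0 hl1
  have h3 : ‖∫ t in t0..(t0 + l), (F t - κ * G t)‖ ≤ Cp * (S * (l + y * S)) * y ^ (-K) * l := by
    have hb : ∀ t ∈ Set.uIoc t0 (t0 + l), ‖F t - κ * G t‖ ≤ Cp * (S * (l + y * S)) * y ^ (-K) := by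
      intro t ht
      rw [Set.uIoc_of_le (by linarith)] at ht
      exact hp y S t0 l u hy hy1 hu1 hu2 hS hS2 ht0 ht1 hl0 hSc t ⟨ht.1.le, ht.2⟩
    have := intervalIntegral.norm_integral_le_of_norm_le_const hb
    rwa [show t0 + l - t0 = l by ring, abs_of_pos hl0] at this
  have h4 : ∫ t in t0..(t0 + l), (F t - κ * G t) =
      (∫ t in t0..(t0 + l), F t) - κ * ∫ t in t0..(t0 + l), G t := by
    rw [intervalIntegral.integral_sub hFi (hGi.const_mul κ), intervalIntegral.integral_const_mul]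
  rw [h4] at h3
  have hκn : ‖κ‖ = ((M * t0) ^ (k0 + k1))⁻¹ := by
    rw [hκ, norm_inv, norm_pow, norm_mul, Complex.norm_natCast, Complex.norm_real,
      Real.norm_of_nonneg (by linarith)]
  have hκr : κ = ((((M * t0) ^ (k0 + k1))⁻¹ : ℝ) : ℂ) := by
    rw [hκ]; push_cast; rfl
  -- y'^(-K) κ = y^(-K)
  have hpow : (((M : ℝ) * t0) ^ 2) ^ K = (M * t0) ^ (k0 + k1) := by
    rw [← Real.rpow_natCast (M * t0) 2, ← Real.rpow_mul hMt0.le, ← Real.rpow_natCast (M * t0) (k0 + k1)]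
    congr 1
    rw [hK]
    unfold kk
    push_cast
    ring
  have hy'K : y' ^ K = y ^ K * ((M * t0) ^ (k0 + k1))⁻¹ := by
    rw [hy', Real.div_rpow hy.le (by positivity), hpow, div_eq_mul_inv]
  have hκy : ((M * t0) ^ (k0 + k1))⁻¹ * y' ^ (-K) = y ^ (-K) := by
    have hA : (0 : ℝ) < (M * t0) ^ (k0 + k1) := by positivity
    rw [Real.rpow_neg hy'0.le, hy'K, mul_inv, inv_inv, Real.rpow_neg hy.le]
    field_simp
  -- combine
  have h5 : ‖(l : ℂ) * (mA P (y * u) - κ * mA P (y' * u))‖ ≤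
      Ca * S ^ 2 * y ^ (-K + 3 / 25) + Cp * (S * (l + y * S)) * y ^ (-K) * l +
        Cm * (S ^ 2 * y ^ (3 / 25 : ℝ) + l ^ 2) * y ^ (-K) := by
    have e : (l : ℂ) * (mA P (y * u) - κ * mA P (y' * u)) =
        -((∫ t in t0..(t0 + l), F t) - l * mA P (y * u)) +
        ((∫ t in t0..(t0 + l), F t) - κ * ∫ t in t0..(t0 + l), G t) +
        κ * ((∫ t in t0..(t0 + l), G t) - l * mA P (y' * u)) := by ring
    rw [e]
    have t1 := norm_add₃_le (a := -((∫ t in t0..(t0 + l), F t) - l * mA P (y * u)))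
      (b := ((∫ t in t0..(t0 + l), F t) - κ * ∫ t in t0..(t0 + l), G t))
      (c := κ * ((∫ t in t0..(t0 + l), G t) - l * mA P (y' * u)))
    rw [norm_neg, norm_mul κ, hκn] at t1
    have t2 : ((M * t0) ^ (k0 + k1))⁻¹ * ‖(∫ t in t0..(t0 + l), G t) - l * mA P (y' * u)‖ ≤
        Cm * (S ^ 2 * y ^ (3 / 25 : ℝ) + l ^ 2) * y ^ (-K) := by
      calc ((M * t0) ^ (k0 + k1))⁻¹ * ‖(∫ t in t0..(t0 + l), G t) - l * mA P (y' * u)‖
          ≤ ((M * t0) ^ (k0 + k1))⁻¹ * (Cm * (S ^ 2 * y' ^ (3 / 25 : ℝ) + l ^ 2) * y' ^ (-K)) := by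
            gcongr
        _ = Cm * (S ^ 2 * y' ^ (3 / 25 : ℝ) + l ^ 2) * (((M * t0) ^ (k0 + k1))⁻¹ * y' ^ (-K)) := by
            ring
        _ = Cm * (S ^ 2 * y' ^ (3 / 25 : ℝ) + l ^ 2) * y ^ (-K) := by rw [hκy]
        _ ≤ _ := by gcongr
    linarith
  rw [norm_mul, Complex.norm_real, Real.norm_of_nonneg hl0.le] at h5
  have hgoal : ((y ^ K : ℝ) : ℂ) * mA P (y * u) - ((y' ^ K : ℝ) : ℂ) * mA P ((y' : ℂ) * u) =
      ((y ^ K : ℝ) : ℂ) * (mA P (y * u) - κ * mA P (y' * u)) := by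
    rw [hy'K, hκr]; push_cast; ring
  rw [hgoal, norm_mul, Complex.norm_real, Real.norm_of_nonneg (by positivity)]
  have hl2 : y ^ (3 / 25 : ℝ) = l * l := by
    rw [hl, ← Real.rpow_add hy]; norm_num
  have hyK : y ^ (-K + 3 / 25) = y ^ (-K) * (l * l) := by
    rw [Real.rpow_add hy, hl2]
  rw [hyK, hl2] at h5
  have h6 : ‖mA P (y * u) - κ * mA P (y' * u)‖ ≤
      y ^ (-K) * (Ca * S ^ 2 * l + Cp * (S * (l + y * S)) + Cm * (S ^ 2 * l + l)) := by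
    have : l * ‖mA P (y * u) - κ * mA P (y' * u)‖ ≤
        l * (y ^ (-K) * (Ca * S ^ 2 * l + Cp * (S * (l + y * S)) + Cm * (S ^ 2 * l + l))) := by
      calc l * ‖mA P (y * u) - κ * mA P (y' * u)‖ ≤ _ := h5
        _ = _ := by ring
    exact le_of_mul_le_mul_left this hl0
  have h7 : y ^ K * y ^ (-K) = 1 := by
    rw [← Real.rpow_add hy, add_neg_cancel, Real.rpow_zero]
  calc y ^ K * ‖mA P (y * u) - κ * mA P (y' * u)‖
      ≤ y ^ K * (y ^ (-K) * (Ca * S ^ 2 * l + Cp * (S * (l + y * S)) + Cm * (S ^ 2 * l + l))) := by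
        gcongr
    _ = (Ca * S ^ 2 * l + Cp * (S * (l + y * S)) + Cm * (S ^ 2 * l + l)) := by
        rw [← mul_assoc, h7, one_mul]
    _ ≤ Ca * S ^ 2 * l + Cp * (2 * (S ^ 2 * l)) + Cm * (S ^ 2 * l + S ^ 2 * l) := by
        have : l ≤ S ^ 2 * l := by
          have : 1 ≤ S ^ 2 := by nlinarith
          nlinarith
        gcongr
    _ = (Ca + 2 * Cp + 2 * Cm) * S ^ 2 * l := by ring

theorem dyn (h : PF M k0 k1 P) {R : ℝ} (hR : 1 ≤ R) : ∃ C : ℝ, 0 < C ∧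
    ∀ (y S t0 : ℝ) (u : ℂ), 0 < y → y ≤ 1 → 1 / R ≤ u.im → u.im ≤ R → 1 ≤ S → ‖u‖ ≤ S →
      1 / 2 ≤ t0 → t0 ≤ 1 →
      ‖((y ^ kk k0 k1 : ℝ) : ℂ) * mA P (y * u) -
        (((y / (M * t0) ^ 2) ^ kk k0 k1 : ℝ) : ℂ) * mA P (((y / (M * t0) ^ 2 : ℝ) : ℂ) * u)‖ ≤
        C * S ^ 2 * y ^ (3 / 50 : ℝ) := by
  obtain ⟨C1, c, hC1, hc, h1⟩ := dd_small h hR
  obtain ⟨C2, hC2, h2⟩ := ma_bd h
  have hR0 : 0 < R := by linarith
  refine ⟨C1 + 2 * (C2 * R ^ kk k0 k1) / c, by positivity, ?_⟩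
  intro y S t0 u hy hy1 hu1 hu2 hS hS2 ht0 ht1
  have hl0 : 0 < y ^ (3 / 50 : ℝ) := Real.rpow_pos_of_pos hy _
  by_cases hs : S ^ 2 * y ^ (3 / 50 : ℝ) ≤ c
  · refine (h1 y S t0 u hy hy1 hu1 hu2 hS hS2 ht0 ht1 hs).trans ?_
    have : 0 ≤ 2 * (C2 * R ^ kk k0 k1) / c := by positivity
    gcongr
    linarith
  · push Not at hs
    have hM4 : (4 : ℝ) ≤ M := by exact_mod_cast h.Mpos
    have hMt0 : 0 < M * t0 := by nlinarith
    have b1 := dd_triv (A := mA P) hC2 hR (dd_kk_nonneg k0 k1) h2 hy hu1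
    have b2 := dd_triv (A := mA P) (y := y / (M * t0) ^ 2) hC2 hR (dd_kk_nonneg k0 k1) h2
      (by positivity) hu1
    calc _ ≤ ‖((y ^ kk k0 k1 : ℝ) : ℂ) * mA P (y * u)‖ +
        ‖(((y / (M * t0) ^ 2) ^ kk k0 k1 : ℝ) : ℂ) * mA P (((y / (M * t0) ^ 2 : ℝ) : ℂ) * u)‖ :=
          norm_sub_le _ _
      _ ≤ C2 * R ^ kk k0 k1 + C2 * R ^ kk k0 k1 := add_le_add b1 b2
      _ = 2 * (C2 * R ^ kk k0 k1) / c * c := by field_simp; ring
      _ ≤ 2 * (C2 * R ^ kk k0 k1) / c * (S ^ 2 * y ^ (3 / 50 : ℝ)) := by gcongr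
      _ ≤ (C1 + 2 * (C2 * R ^ kk k0 k1) / c) * (S ^ 2 * y ^ (3 / 50 : ℝ)) := by
          gcongr
          linarith
      _ = _ := by ring


end Pool.Agent.HL4
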