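import Pool.Agent.Lib_helper68.HL4.Defs3
import Pool.Agent.Lib_helper68.HL4F.LE
import Pool.Agent.Lib_helper68.HL4F.LF
import Pool.Agent.Lib_helper68.HL4F.MB
/-!
# HL4, part III, block LG: the limit is `c (u/i)^(-kk)` (helper16)
-/

namespace Pool.Agent.HL4

open UpperHalfPlane hiding I
open Complex MeasureTheory Filter Topology NumberField
open Pool.Agent.HSG (Em Lat IsInt nI NCl dgm lz)
open Pool.Agent.HSG.N (Prim LForm QF v2 HK LamH GG Gb pz)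
open scoped nonZeroDivisors MatrixGroups

variable {M k0 k1 : ℕ} {P : ZMod M → ZMod M → ℂ → ℂ → ℂ}

/-- convergence at a point -/
theorem lg_tend {cu : ℂ → ℂ} (hcu : ∀ R : ℝ, 1 ≤ R → ∃ C : ℝ, 0 < C ∧
    ∀ (y S : ℝ) (u : ℂ), 0 < y → y ≤ 1 → 1 / R ≤ u.im → u.im ≤ R → 1 ≤ S → ‖u‖ ≤ S →
      ‖((y ^ kk k0 k1 : ℝ) : ℂ) * mA P (y * u) - cu u‖ ≤ C * S ^ 2 * y ^ (3 / 50 : ℝ))
    {u : ℂ} (hu : 0 < u.im) :
    Tendsto (fun y : ℝ => ((y ^ kk k0 k1 : ℝ) : ℂ) * mA P (y * u)) (𝓝[>] 0) (𝓝 (cu u)) := by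
  obtain ⟨R, hR⟩ : ∃ R : ℝ, R = max 1 (max (1 / u.im) u.im) := ⟨_, rfl⟩
  have hR1 : 1 ≤ R := by rw [hR]; exact le_max_left _ _
  have hR2 : 1 / u.im ≤ R := by rw [hR]; exact (le_max_left _ _).trans (le_max_right _ _)
  have hR3 : u.im ≤ R := by rw [hR]; exact (le_max_right _ _).trans (le_max_right _ _)
  have hR4 : 1 / R ≤ u.im := by
    rw [div_le_iff₀ (by linarith)]
    rw [div_le_iff₀ hu] at hR2
    linarith
  obtain ⟨C, hC, hb⟩ := hcu R hR1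
  rw [tendsto_iff_norm_sub_tendsto_zero]
  have h0 : Tendsto (fun y : ℝ => C * (max 1 ‖u‖) ^ 2 * y ^ (3 / 50 : ℝ)) (𝓝[>] 0) (𝓝 0) := by
    have h1 : Tendsto (fun y : ℝ => y ^ (3 / 50 : ℝ)) (𝓝[>] 0) (𝓝 0) := by
      have h2 := (Real.continuousAt_rpow_const 0 (3 / 50 : ℝ) (Or.inr (by norm_num))).tendsto
      rw [Real.zero_rpow (by norm_num)] at h2
      exact h2.mono_left nhdsWithin_le_nhds
    have h2 := h1.const_mul (C * (max 1 ‖u‖) ^ 2)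
    rwa [mul_zero] at h2
  refine squeeze_zero' (Eventually.of_forall fun y => norm_nonneg _) ?_ h0
  have h1 : ∀ᶠ y : ℝ in 𝓝[>] 0, y < 1 :=
    nhdsWithin_le_nhds (Iio_mem_nhds (by norm_num))
  filter_upwards [h1, self_mem_nhdsWithin] with y hy1 hy0
  exact hb y (max 1 ‖u‖) u hy0 hy1.le hR4 hR3 (le_max_left _ _) (le_max_right _ _)

/-- the limit is holomorphic -/
theorem lg_holo (h : PF M k0 k1 P) {cu : ℂ → ℂ} (hcu : ∀ R : ℝ, 1 ≤ R → ∃ C : ℝ, 0 < C ∧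
    ∀ (y S : ℝ) (u : ℂ), 0 < y → y ≤ 1 → 1 / R ≤ u.im → u.im ≤ R → 1 ≤ S → ‖u‖ ≤ S →
      ‖((y ^ kk k0 k1 : ℝ) : ℂ) * mA P (y * u) - cu u‖ ≤ C * S ^ 2 * y ^ (3 / 50 : ℝ)) :
    DifferentiableOn ℂ cu {u : ℂ | 0 < u.im} := by
  have hopen : IsOpen {u : ℂ | 0 < u.im} := isOpen_lt continuous_const Complex.continuous_im
  have hyt : Tendsto (fun n : ℕ => (((n : ℝ) + 1)⁻¹) ^ (3 / 50 : ℝ)) atTop (𝓝 0) := by
    have h1 : Tendsto (fun n : ℕ => ((n : ℝ) + 1)⁻¹) atTop (𝓝 0) :=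
      tendsto_inv_atTop_zero.comp (tendsto_atTop_add_const_right _ _ tendsto_natCast_atTop_atTop)
    have h2 := (Real.continuousAt_rpow_const 0 (3 / 50 : ℝ) (Or.inr (by norm_num))).tendsto.comp h1
    rw [Real.zero_rpow (by norm_num)] at h2
    exact h2
  have hlim : TendstoLocallyUniformlyOn (fun (n : ℕ) (u : ℂ) =>
      (((((n : ℝ) + 1)⁻¹) ^ kk k0 k1 : ℝ) : ℂ) * mA P (((((n : ℝ) + 1)⁻¹ : ℝ) : ℂ) * u)) cu atTop
      {u : ℂ | 0 < u.im} := by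
    rw [Metric.tendstoLocallyUniformlyOn_iff]
    intro ε hε x hx
    have hx0 : 0 < x.im := hx
    obtain ⟨R, hR⟩ : ∃ R : ℝ, R = max 1 (max (2 / x.im) (2 * x.im)) := ⟨_, rfl⟩
    have hR1 : 1 ≤ R := by rw [hR]; exact le_max_left _ _
    have hR2 : 2 / x.im ≤ R := by rw [hR]; exact (le_max_left _ _).trans (le_max_right _ _)
    have hR3 : 2 * x.im ≤ R := by rw [hR]; exact (le_max_right _ _).trans (le_max_right _ _)
    have hR4 : 1 / R ≤ x.im / 2 := by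
      rw [div_le_iff₀ (by linarith)]
      rw [div_le_iff₀ hx0] at hR2
      linarith
    obtain ⟨C, hC, hb⟩ := hcu R hR1
    refine ⟨Metric.ball x (x.im / 2), mem_nhdsWithin_of_mem_nhds
      (Metric.ball_mem_nhds _ (by linarith)), ?_⟩
    have h1 := (hyt.const_mul (C * (1 + ‖x‖ + x.im) ^ 2)).eventually_lt_const
      (by rw [mul_zero]; exact hε)
    filter_upwards [h1] with n hn u hu
    rw [Metric.mem_ball, dist_eq_norm] at hu
    have h2 := (Complex.abs_im_le_norm (u - x)).trans hu.le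
    rw [Complex.sub_im, abs_le] at h2
    have hn0 : (0 : ℝ) < (n : ℝ) + 1 := by positivity
    have hu2 : ‖u‖ ≤ 1 + ‖x‖ + x.im := by
      have h3 := norm_le_norm_add_norm_sub' u x
      linarith
    rw [dist_comm, dist_eq_norm]
    refine (hb ((n : ℝ) + 1)⁻¹ (1 + ‖x‖ + x.im) u (by positivity)
      (inv_le_one_of_one_le₀ (by linarith [(Nat.cast_nonneg n : (0 : ℝ) ≤ n)])) (by linarith)
      (by linarith) (by linarith [norm_nonneg x]) hu2).trans_lt hn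
  refine hlim.differentiableOn (Eventually.of_forall fun n => ?_) hopen
  refine DifferentiableOn.const_mul ?_ _
  refine (ma_holo h).comp (by fun_prop) fun u hu => ?_
  have hu0 : 0 < u.im := hu
  show 0 < (((((n : ℝ) + 1)⁻¹ : ℝ) : ℂ) * u).im
  rw [Complex.im_ofReal_mul]
  positivity

theorem lg_cpow {ρ : ℝ} (hρ : 0 < ρ) {z : ℂ} (hz : z ≠ 0) (κ : ℝ) :
    ((ρ : ℂ) * z) ^ (κ : ℂ) = ((ρ ^ κ : ℝ) : ℂ) * z ^ (κ : ℂ) := by
  have hρ' : (ρ : ℂ) ≠ 0 := by exact_mod_cast hρ.ne'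
  rw [Complex.cpow_def_of_ne_zero (mul_ne_zero hρ' hz), Complex.cpow_def_of_ne_zero hz,
    Complex.log_ofReal_mul hρ hz, add_mul, Complex.exp_add, Complex.ofReal_cpow hρ.le,
    Complex.cpow_def_of_ne_zero hρ', Complex.ofReal_log hρ.le]

theorem ma_lim (h : PF M k0 k1 P) : ∃ c : ℂ, ∀ R : ℝ, 1 ≤ R → ∃ C : ℝ, 0 < C ∧
    ∀ (y S : ℝ) (u : ℂ), 0 < y → y ≤ 1 → 1 / R ≤ u.im → u.im ≤ R → 1 ≤ S → ‖u‖ ≤ S →
      ‖((y ^ kk k0 k1 : ℝ) : ℂ) * mA P (y * u) - c * (u / I) ^ (-(kk k0 k1 : ℂ))‖ ≤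
        C * S ^ 2 * y ^ (3 / 50 : ℝ) := by
  obtain ⟨cu, hcu⟩ := ma_lim0 h
  have hopen : IsOpen {u : ℂ | 0 < u.im} := isOpen_lt continuous_const Complex.continuous_im
  have hre : ∀ u : ℂ, (u / I).re = u.im := by
    intro u
    rw [Complex.div_I, Complex.neg_re, Complex.mul_I_re, neg_neg]
  have hslit : ∀ u : ℂ, 0 < u.im → u / I ∈ Complex.slitPlane := by
    intro u hu
    left
    rw [hre]
    exact hu
  have hhol := lg_holo h hcu
  -- homogeneity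
  have hhom : ∀ u : ℂ, 0 < u.im → ∀ ρ : ℝ, 0 < ρ →
      cu u = ((ρ ^ kk k0 k1 : ℝ) : ℂ) * cu (ρ * u) := by
    intro u hu ρ hρ
    have hρu : 0 < ((ρ : ℂ) * u).im := by rw [Complex.im_ofReal_mul]; positivity
    have h1 := lg_tend hcu hρu
    have h2 := lg_tend hcu hu
    have h3 : Tendsto (fun y : ℝ => ρ * y) (𝓝[>] 0) (𝓝[>] 0) := by
      refine tendsto_nhdsWithin_iff.2 ⟨?_, ?_⟩
      · have : Tendsto (fun y : ℝ => ρ * y) (𝓝 0) (𝓝 (ρ * 0)) := tendsto_id.const_mul ρ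
        rw [mul_zero] at this
        exact this.mono_left nhdsWithin_le_nhds
      · filter_upwards [self_mem_nhdsWithin] with y hy
        exact mul_pos hρ hy
    have h4 := h2.comp h3
    have h5 := h1.const_mul (((ρ ^ kk k0 k1 : ℝ) : ℂ))
    refine tendsto_nhds_unique h4 (h5.congr' ?_)
    filter_upwards [self_mem_nhdsWithin] with y hy
    have hy0 : (0 : ℝ) < y := hy
    show _ = (((ρ * y) ^ kk k0 k1 : ℝ) : ℂ) * mA P (((ρ * y : ℝ) : ℂ) * u)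
    rw [Real.mul_rpow hρ.le hy0.le]
    push_cast
    rw [show ((ρ : ℂ) * y) * u = y * (ρ * u) by ring]
    ring
  obtain ⟨c, hc⟩ := const_of_hom (D := fun u => cu u * (u / I) ^ (kk k0 k1 : ℂ)) (by
    refine hhol.mul ?_
    intro u hu
    refine DifferentiableAt.differentiableWithinAt ?_
    refine DifferentiableAt.cpow (by fun_prop) (by fun_prop) (hslit u hu)) (by
    intro u hu ρ hρ
    have hne : u / I ≠ 0 := Complex.slitPlane_ne_zero (hslit u hu)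
    rw [hhom u hu ρ hρ, mul_div_assoc, lg_cpow hρ hne]
    ring)
  refine ⟨c, fun R hR => ?_⟩
  obtain ⟨C, hC, hb⟩ := hcu R hR
  refine ⟨C, hC, fun y S u hy hy1 h1 h2 hS hu => ?_⟩
  have hu0 : 0 < u.im := lt_of_lt_of_le (by positivity) h1
  have hne : u / I ≠ 0 := Complex.slitPlane_ne_zero (hslit u hu0)
  have hcne : (u / I) ^ (kk k0 k1 : ℂ) ≠ 0 := by
    rw [Complex.cpow_def_of_ne_zero hne]
    exact Complex.exp_ne_zero _
  have e : c * (u / I) ^ (-(kk k0 k1 : ℂ)) = cu u := by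
    rw [← hc u hu0, Complex.cpow_neg, mul_assoc, mul_inv_cancel₀ hcne, mul_one]
  rw [e]
  exact hb y S u hy hy1 h1 h2 hS hu


end Pool.Agent.HL4
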