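import Pool.Agent.Lib_helper68.HL4.Defs3
import Pool.Agent.Lib_helper68.HL4F.AM
import Pool.Agent.Lib_helper68.HL4F.LG
/-!
# HL4, block EQ
-/

namespace Pool.Agent.HL4

open UpperHalfPlane hiding I
open Complex MeasureTheory Filter Topology NumberField
open Pool.Agent.HSG (Em Lat IsInt nI NCl dgm lz)
open Pool.Agent.HSG.N (Prim LForm QF v2 HK LamH GG Gb pz)
open scoped nonZeroDivisors MatrixGroups

variable {M k0 k1 : ℕ} {P : ZMod M → ZMod M → ℂ → ℂ → ℂ}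

theorem eq_cpow {y : ℝ} (hy : 0 < y) {z : ℂ} (hz : z ≠ 0) (κ : ℝ) :
    ((y : ℂ) * z) ^ (-(κ : ℂ)) = ((y ^ (-κ) : ℝ) : ℂ) * z ^ (-(κ : ℂ)) := by
  have hy0 : (y : ℂ) ≠ 0 := by exact_mod_cast hy.ne'
  rw [Complex.cpow_def_of_ne_zero (mul_ne_zero hy0 hz), Complex.cpow_def_of_ne_zero hz,
    Complex.log_ofReal_mul hy hz, add_mul, Complex.exp_add, Real.rpow_def_of_pos hy]
  push_cast
  rfl

/-- EQ -/
theorem eqd (h : PF M k0 k1 P) :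
    ∃ c : ℂ, ∀ R : ℝ, 1 ≤ R → ∃ C : ℝ, 0 < C ∧ ∀ (y : ℝ) (u1 u2 : ℂ) (S α β : ℝ), 0 < y → y ≤ 1 →
      y / R ≤ u1.im → u1.im ≤ R * y → y / R ≤ u2.im → u2.im ≤ R * y → 1 ≤ S → ‖u1‖ ≤ S * y →
      ‖u2‖ ≤ S * y → α ≤ β → β ≤ α + 1 →
      ‖(∫ x in α..β, P 0 1 (x + u1) (-x + u2)) -
        (β - α) * (c * ((u1 + u2) / I) ^ (-(kk k0 k1 : ℂ)))‖ ≤
        C * S ^ 2 * y ^ (-kk k0 k1 + 3 / 50) := by
  obtain ⟨c, hc⟩ := ma_lim h
  refine ⟨c, fun R hR => ?_⟩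
  obtain ⟨C1, hC1, H1⟩ := arcm h hR
  obtain ⟨C2, hC2, H2⟩ := hc (2 * R) (by linarith)
  refine ⟨C1 + 4 * C2, by positivity, ?_⟩
  intro y u1 u2 S α β hy hy1 h1 h1' h2 h2' hS hu1 hu2 hαβ hβα
  have hR0 : 0 < R := by linarith
  have hy0 : (y : ℂ) ≠ 0 := by exact_mod_cast hy.ne'
  set κ := kk k0 k1 with hκ
  set u : ℂ := (u1 + u2) / y with hu
  have huy : (y : ℂ) * u = u1 + u2 := by rw [hu]; field_simp
  have him : u.im = (u1.im + u2.im) / y := by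
    rw [hu, Complex.div_ofReal_im, Complex.add_im]
  have e1 : 1 / (2 * R) ≤ u.im := by
    rw [him, le_div_iff₀ hy]
    have e2 : 1 / (2 * R) * y ≤ y / R := by
      rw [one_div, inv_mul_eq_div]
      exact div_le_div_of_nonneg_left hy.le hR0 (by linarith)
    have e3 : 0 ≤ y / R := by positivity
    linarith
  have e2 : u.im ≤ 2 * R := by
    rw [him, div_le_iff₀ hy]
    linarith
  have e3 : ‖u‖ ≤ 2 * S := by
    rw [hu, norm_div, Complex.norm_real, Real.norm_of_nonneg hy.le, div_le_iff₀ hy]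
    calc ‖u1 + u2‖ ≤ ‖u1‖ + ‖u2‖ := norm_add_le _ _
      _ ≤ 2 * S * y := by linarith
  have huim : 0 < u.im := lt_of_lt_of_le (by positivity) e1
  have hu0 : u ≠ 0 := by
    intro h0
    rw [h0] at huim
    simp at huim
  have huI : u / I ≠ 0 := div_ne_zero hu0 I_ne_zero
  have A1 := H1 y u1 u2 S α β hy hy1 h1 h1' h2 h2' hS hu1 hu2 hαβ hβα
  have A2 := H2 y (2 * S) u hy hy1 e1 e2 (by linarith) e3
  rw [huy] at A2
  have hpos : 0 < y ^ (-κ) := Real.rpow_pos_of_pos hy _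
  have hyy : y ^ (-κ) * y ^ κ = 1 := by
    rw [← Real.rpow_add hy, neg_add_cancel, Real.rpow_zero]
  have A3 : mA P (u1 + u2) - c * ((u1 + u2) / I) ^ (-(κ : ℂ)) =
      ((y ^ (-κ) : ℝ) : ℂ) * (((y ^ κ : ℝ) : ℂ) * mA P (u1 + u2) - c * (u / I) ^ (-(κ : ℂ))) := by
    have e4 : (u1 + u2) / I = (y : ℂ) * (u / I) := by rw [← huy]; ring
    have hyyC : ((y ^ (-κ) : ℝ) : ℂ) * ((y ^ κ : ℝ) : ℂ) = 1 := by exact_mod_cast hyy
    rw [e4, eq_cpow hy huI]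
    linear_combination (-(mA P (u1 + u2))) * hyyC
  have A4 : ‖mA P (u1 + u2) - c * ((u1 + u2) / I) ^ (-(κ : ℂ))‖ ≤
      4 * C2 * S ^ 2 * y ^ (-κ + 3 / 50) := by
    rw [A3, norm_mul, Complex.norm_real, Real.norm_of_nonneg hpos.le, Real.rpow_add hy]
    calc y ^ (-κ) * ‖((y ^ κ : ℝ) : ℂ) * mA P (u1 + u2) - c * (u / I) ^ (-(κ : ℂ))‖ ≤
        y ^ (-κ) * (C2 * (2 * S) ^ 2 * y ^ (3 / 50 : ℝ)) := mul_le_mul_of_nonneg_left A2 hpos.le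
      _ = 4 * C2 * S ^ 2 * (y ^ (-κ) * y ^ (3 / 50 : ℝ)) := by ring
  have A5 : y ^ (-κ + 3 / 25) ≤ y ^ (-κ + 3 / 50) :=
    Real.rpow_le_rpow_of_exponent_ge hy hy1 (by linarith)
  have hab : ‖((β : ℂ) - α)‖ ≤ 1 := by
    rw [← Complex.ofReal_sub, Complex.norm_real, Real.norm_of_nonneg (by linarith)]
    linarith
  have e5 : (∫ x in α..β, P 0 1 (x + u1) (-x + u2)) -
        (β - α) * (c * ((u1 + u2) / I) ^ (-(κ : ℂ))) =
      ((∫ x in α..β, P 0 1 (x + u1) (-x + u2)) - (β - α) * mA P (u1 + u2)) +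
        (β - α) * (mA P (u1 + u2) - c * ((u1 + u2) / I) ^ (-(κ : ℂ))) := by ring
  rw [e5]
  refine (norm_add_le _ _).trans ?_
  have e6 : ‖((β : ℂ) - α) * (mA P (u1 + u2) - c * ((u1 + u2) / I) ^ (-(κ : ℂ)))‖ ≤
      4 * C2 * S ^ 2 * y ^ (-κ + 3 / 50) := by
    rw [norm_mul]
    calc ‖((β : ℂ) - α)‖ * ‖mA P (u1 + u2) - c * ((u1 + u2) / I) ^ (-(κ : ℂ))‖ ≤
        1 * ‖mA P (u1 + u2) - c * ((u1 + u2) / I) ^ (-(κ : ℂ))‖ :=
          mul_le_mul_of_nonneg_right hab (norm_nonneg _)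
      _ ≤ 4 * C2 * S ^ 2 * y ^ (-κ + 3 / 50) := by rw [one_mul]; exact A4
  have e7 : C1 * S ^ 2 * y ^ (-κ + 3 / 25) ≤ C1 * S ^ 2 * y ^ (-κ + 3 / 50) :=
    mul_le_mul_of_nonneg_left A5 (by positivity)
  calc _ ≤ C1 * S ^ 2 * y ^ (-κ + 3 / 50) + 4 * C2 * S ^ 2 * y ^ (-κ + 3 / 50) :=
        add_le_add (A1.trans e7) e6
    _ = (C1 + 4 * C2) * S ^ 2 * y ^ (-κ + 3 / 50) := by ring

end Pool.Agent.HL4

section
end
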