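import Pool.Agent.Lib_helper68.HL4.Defs3
import Pool.Agent.Lib_helper68.HL4F.CA
import Pool.Agent.Lib_helper68.HL4F.CB
import Pool.Agent.Lib_helper68.HL4F.CD
import Pool.Agent.Lib_helper68.HL4F.CE
import Pool.Agent.Lib_helper68.HL4F.EQ
import Pool.Agent.Lib_helper68.HL4F.LA
/-!
# HL4, block CF: a piece of the curve
-/

namespace Pool.Agent.HL4

open UpperHalfPlane hiding I
open Complex MeasureTheory Filter Topology NumberField
open Pool.Agent.HSG (Em Lat IsInt nI NCl dgm lz)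
open Pool.Agent.HSG.N (Prim LForm QF v2 HK LamH GG Gb pz)
open scoped nonZeroDivisors MatrixGroups

variable {M k0 k1 : ℕ} {P : ZMod M → ZMod M → ℂ → ℂ → ℂ}

theorem cf_cpow {t : ℝ} (ht : 0 < t) {z : ℂ} (hz : z ≠ 0) (w : ℂ) :
    ((t : ℂ) * z) ^ w = (t : ℂ) ^ w * z ^ w := by
  have ht' : (t : ℂ) ≠ 0 := by exact_mod_cast ht.ne'
  rw [Complex.cpow_def_of_ne_zero (mul_ne_zero ht' hz), Complex.cpow_def_of_ne_zero ht',
    Complex.cpow_def_of_ne_zero hz, Complex.log_ofReal_mul ht hz, ← Complex.exp_add,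
    Complex.ofReal_log ht.le]
  congr 1; ring

theorem cf_hd_min (V : ℝ) : ∃ m : ℝ, 0 < m ∧ ∀ v : ℝ, |v| ≤ V → m ≤ hd v := by
  rcases lt_or_ge V 0 with hV | hV
  · exact ⟨1, one_pos, fun v hv => absurd hv (not_le.2 (lt_of_lt_of_le hV (abs_nonneg v)))⟩
  obtain ⟨_, _, hc, hp, _, _⟩ := hr_facts
  obtain ⟨z, hz, hmin⟩ := (isCompact_Icc (a := -V) (b := V)).exists_isMinOn
    ⟨0, by constructor <;> linarith⟩ hc.continuousOn
  refine ⟨hd z, (hp z).1, fun v hv => hmin (abs_le.1 hv)⟩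

theorem cf_len {v l : ℝ} (hl : 0 < l) : |hr (v + l) - hr v - hd v * l| ≤ l * l := by
  obtain ⟨_, hder, _, _, hlip, _⟩ := hr_facts
  have := (convex_Icc v (v + l)).norm_image_sub_le_of_norm_hasDerivWithin_le
    (f := fun x : ℝ => hr x - hd v * x) (f' := fun x : ℝ => hd x - hd v) (C := l) (x := v)
    (y := v + l)
    (fun x _ => by
      have h1 := (hder x).sub ((hasDerivAt_id x).const_mul (hd v))
      rw [mul_one] at h1
      exact HasDerivAt.hasDerivWithinAt h1)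
    (fun x hx => by
      rw [Real.norm_eq_abs]
      refine (hlip x v).trans ?_
      rw [abs_of_nonneg (by linarith [hx.1])]
      linarith [hx.2])
    ⟨le_rfl, by linarith⟩ ⟨by linarith, le_rfl⟩
  have e : hr (v + l) - hd v * (v + l) - (hr v - hd v * v) = hr (v + l) - hr v - hd v * l := by ring
  rw [e, Real.norm_eq_abs, Real.norm_eq_abs, show v + l - v = l by ring, abs_of_pos hl] at this
  exact this

theorem cf_subst {F : ℝ → ℂ} (hF : Continuous F) {r : ℝ} (hr0 : 0 < r) (v w : ℝ) :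
    ∫ t in v..w, F (-hr t / r) * ((hd t : ℝ) : ℂ) =
      r * ∫ x in (-hr w / r)..(-hr v / r), F x := by
  obtain ⟨_, hder, hc, _, _, _⟩ := hr_facts
  have h1 := intervalIntegral.integral_deriv_smul_comp (a := v) (b := w)
    (f := fun t => -hr t / r) (f' := fun t => -hd t / r) (g := F)
    (fun t _ => by simpa using ((hder t).neg.div_const r))
    ((hc.neg.div_const r).continuousOn) hF
  rw [intervalIntegral.integral_symm (-hr v / r) (-hr w / r), ← h1, ← neg_mul_eq_mul_neg,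
    neg_mul_eq_neg_mul, ← intervalIntegral.integral_const_mul]
  refine intervalIntegral.integral_congr fun t _ => ?_
  have hr' : (r : ℂ) ≠ 0 := by exact_mod_cast hr0.ne'
  simp only [Function.comp, Complex.real_smul]
  push_cast
  field_simp

/-- the main part of a piece -/
theorem cf_main (h : PF M k0 k1 P) {cE : ℂ}
    (hE : ∀ R : ℝ, 1 ≤ R → ∃ C : ℝ, 0 < C ∧ ∀ (y : ℝ) (u1 u2 : ℂ) (S α β : ℝ), 0 < y → y ≤ 1 →
      y / R ≤ u1.im → u1.im ≤ R * y → y / R ≤ u2.im → u2.im ≤ R * y → 1 ≤ S → ‖u1‖ ≤ S * y →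
      ‖u2‖ ≤ S * y → α ≤ β → β ≤ α + 1 →
      ‖(∫ x in α..β, P 0 1 (x + u1) (-x + u2)) -
        (β - α) * (cE * ((u1 + u2) / I) ^ (-(kk k0 k1 : ℂ)))‖ ≤
        C * S ^ 2 * y ^ (-kk k0 k1 + 3 / 50)) {r : ℝ} (hr0 : 0 < r) (V : ℝ) :
    ∃ C : ℝ, 0 < C ∧ ∀ (δ x l vj : ℝ), |vj| ≤ V → |vj + l| ≤ V →
      0 < δ → δ ≤ 1 → |x| ≤ 1 → 0 < l → l ≤ 1 → l ≤ r →
      ‖(∫ v in vj..(vj + l), P 0 1 (((-hr v / r : ℝ) : ℂ) + hd vj * om2 δ x / r)
          (-((-hr v / r : ℝ) : ℂ) + hd vj * om2 δ x / r) *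
          (((2 * hd vj : ℝ) : ℂ) ^ (kk k0 k1 : ℂ) * ((hd v / hd vj : ℝ) : ℂ))) -
        l * (((2 * r : ℝ) : ℂ) ^ (kk k0 k1 : ℂ) * cE * ((δ : ℂ) - x * I) ^ (-(kk k0 k1 : ℂ)))‖ ≤
        C * δ ^ (-kk k0 k1) * (l * l + (1 + |x| / δ) ^ 2 * δ ^ (3 / 50 : ℝ)) := by
  set κ : ℝ := kk k0 k1 with hκd
  have hκ : 1 ≤ κ := by
    have h0 : (1 : ℝ) ≤ k0 := by exact_mod_cast h.k0pos
    have h1 : (1 : ℝ) ≤ k1 := by exact_mod_cast h.k1pos
    rw [hκd, kk]; linarith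
  obtain ⟨m, hm, hmin⟩ := cf_hd_min V
  obtain ⟨_, hder, hdc, hdp, hdl, hrl⟩ := hr_facts
  set R : ℝ := max 1 (max (1 / r) (2 * r / m)) with hR
  have hR1 : 1 ≤ R := le_max_left _ _
  have hR0 : 0 < R := lt_of_lt_of_le one_pos hR1
  have hRr : 1 / r ≤ R := (le_max_left _ _).trans (le_max_right _ _)
  have hRm : 1 / R ≤ m / (2 * r) := by
    rw [div_le_div_iff₀ hR0 (by positivity), one_mul]
    have : 2 * r / m ≤ R := (le_max_right _ _).trans (le_max_right _ _)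
    rw [div_le_iff₀ hm] at this
    linarith
  obtain ⟨CQ, hCQ, hq⟩ := hE R hR1
  set cr : ℝ := (2 * r) ^ κ with hcr
  have hcr0 : 0 < cr := Real.rpow_pos_of_pos (by positivity) _
  refine ⟨r / m * (CQ * R ^ 2) + cr * ‖cE‖ / m + 1, by positivity, ?_⟩
  intro δ x l vj hvj hvl hδ0 hδ1 hx hl0 hl1 hlr
  have hdj := hmin vj hvj
  have hdj2 := (hdp vj).2
  have hdj0 := (hdp vj).1
  set S : ℝ := 1 + |x| / δ with hS
  have hxn := abs_nonneg x
  have hS1 : 1 ≤ S := by rw [hS]; have : 0 ≤ |x| / δ := by positivity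
                         linarith
  have hSδ : S * δ = δ + |x| := by rw [hS]; field_simp
  have hom : ‖om2 δ x‖ ≤ δ + |x| := by
    rw [om2, norm_div, Complex.norm_two]
    have : ‖(x : ℂ) + δ * I‖ ≤ |x| + δ := by
      refine (norm_add_le _ _).trans ?_
      rw [norm_mul, Complex.norm_real, Complex.norm_real, Complex.norm_I, Real.norm_eq_abs,
        Real.norm_eq_abs, abs_of_pos hδ0, mul_one]
    rw [div_le_iff₀ two_pos]
    linarith
  have omim : (om2 δ x).im = δ / 2 := by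
    rw [om2, show (2 : ℂ) = ((2 : ℝ) : ℂ) by norm_num, Complex.div_ofReal_im]
    simp
  set u : ℂ := hd vj * om2 δ x / r with hu
  have uim : u.im = hd vj * (δ / 2) / r := by
    rw [hu, Complex.div_ofReal_im, Complex.im_ofReal_mul, omim]
  have u1 : δ / R ≤ u.im := by
    rw [uim]
    calc δ / R = δ * (1 / R) := by ring
      _ ≤ δ * (m / (2 * r)) := by gcongr
      _ = m * (δ / 2) / r := by field_simp
      _ ≤ _ := by gcongr
  have u0 : 0 < u.im := lt_of_lt_of_le (by positivity) u1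
  have u2 : u.im ≤ R * δ := by
    rw [uim]
    calc hd vj * (δ / 2) / r ≤ 1 / 2 * (δ / 2) / r := by gcongr
      _ = (1 / r) * δ * (1 / 4) := by ring
      _ ≤ R * δ * 1 := by gcongr; norm_num
      _ = R * δ := by ring
  have u3 : ‖u‖ ≤ (R * S) * δ := by
    rw [hu, norm_div, norm_mul, Complex.norm_real, Complex.norm_real, Real.norm_eq_abs,
      Real.norm_eq_abs, abs_of_pos hr0, abs_of_pos hdj0]
    calc hd vj * ‖om2 δ x‖ / r ≤ 1 * (δ + |x|) / r := by gcongr; linarith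
      _ = (1 / r) * (S * δ) := by rw [hSδ]; ring
      _ ≤ R * (S * δ) := by gcongr
      _ = _ := by ring
  -- the integral
  have hFc : Continuous (fun t : ℝ => P 0 1 (t + u) (-t + u)) := by
    rw [← continuousOn_univ]
    refine pf_cont h 0 1 (by fun_prop) (by fun_prop) (fun t _ => ?_) (fun t _ => ?_)
    · simpa using u0
    · simpa using u0
  set w : ℂ := ((2 * hd vj : ℝ) : ℂ) ^ ((κ : ℝ) : ℂ) with hw
  set L : ℝ := hr (vj + l) - hr vj with hL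
  have hmono : Monotone hr := by
    refine monotone_of_deriv_nonneg (fun v => (hder v).differentiableAt) fun v => ?_
    rw [(hder v).deriv]; exact (hdp v).1.le
  have hL0 : 0 ≤ L := sub_nonneg.2 (hmono (by linarith))
  have hLl : L ≤ l := by
    have := hrl (vj + l) vj
    rw [show vj + l - vj = l by ring, abs_of_pos hl0] at this
    exact (le_abs_self _).trans this
  have hLm := cf_len (v := vj) hl0
  rw [← hL] at hLm
  have e1 : (∫ v in vj..(vj + l), P 0 1 (((-hr v / r : ℝ) : ℂ) + u)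
      (-((-hr v / r : ℝ) : ℂ) + u) * (w * ((hd v / hd vj : ℝ) : ℂ))) =
      (w / hd vj) * (r * ∫ t in (-hr (vj + l) / r)..(-hr vj / r), P 0 1 (t + u) (-t + u)) := by
    rw [← cf_subst hFc hr0 vj (vj + l), ← intervalIntegral.integral_const_mul]
    refine intervalIntegral.integral_congr fun v _ => ?_
    have : ((hd vj : ℝ) : ℂ) ≠ 0 := by exact_mod_cast hdj0.ne'
    push_cast
    field_simp
  rw [e1]
  have h2 := hq δ u u (R * S) (-hr (vj + l) / r) (-hr vj / r) hδ0 hδ1 u1 u2 u1 u2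
    (by nlinarith) u3 u3
    (by rw [div_le_div_iff_of_pos_right hr0]; linarith)
    (by rw [← sub_le_iff_le_add', ← sub_div, div_le_one hr0]; linarith)
  have hcE1 : (((-hr vj / r : ℝ) : ℂ) - ((-hr (vj + l) / r : ℝ) : ℂ)) = ((L / r : ℝ) : ℂ) := by
    rw [hL]; push_cast; ring
  rw [hcE1] at h2
  have hI0 : (I : ℂ) ≠ 0 := Complex.I_ne_zero
  have huI : (u + u) / I = ((hd vj / r : ℝ) : ℂ) * ((δ : ℂ) - x * I) := by
    rw [hu, om2, div_eq_iff hI0]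
    push_cast
    have hI2 : (I : ℂ) * I = -1 := Complex.I_mul_I
    linear_combination ((hd vj : ℂ) / r * x) * hI2
  have hz0 : (δ : ℂ) - x * I ≠ 0 := by
    intro h0
    have := congrArg Complex.re h0
    simp at this
    exact hδ0.ne' this
  set D : ℂ := ((δ : ℂ) - x * I) ^ (-((κ : ℝ) : ℂ)) with hD
  have hDn : ‖D‖ ≤ δ ^ (-κ) := by
    rw [hD, ← Complex.ofReal_neg, Complex.norm_cpow_real]
    refine Real.rpow_le_rpow_of_nonpos hδ0 ?_ (by linarith)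
    have := Complex.abs_re_le_norm ((δ : ℂ) - x * I)
    simp at this
    exact (le_abs_self _).trans this
  have hpw : w * ((hd vj / r : ℝ) : ℂ) ^ (-((κ : ℝ) : ℂ)) = ((cr : ℝ) : ℂ) := by
    rw [hw, ← Complex.ofReal_neg, ← Complex.ofReal_cpow (by positivity),
      ← Complex.ofReal_cpow (by positivity), ← Complex.ofReal_mul, hcr]
    congr 1
    rw [Real.rpow_neg (by positivity), ← div_eq_mul_inv, ← Real.div_rpow (by positivity)
      (by positivity)]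
    congr 1
    field_simp
  rw [huI, cf_cpow (by positivity) hz0] at h2
  have hwn : ‖w‖ ≤ 1 := by
    rw [hw, Complex.norm_cpow_real, Complex.norm_real, Real.norm_eq_abs,
      abs_of_nonneg (by linarith)]
    exact Real.rpow_le_one (by linarith) (by linarith) (by linarith)
  have hcr' : ((2 * r : ℝ) : ℂ) ^ ((κ : ℝ) : ℂ) = ((cr : ℝ) : ℂ) := by
    rw [hcr, Complex.ofReal_cpow (by positivity)]
  rw [hcr']
  set I1 : ℂ := ∫ t in (-hr (vj + l) / r)..(-hr vj / r), P 0 1 (t + u) (-t + u) with hI1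
  set q : ℂ := ((hd vj / r : ℝ) : ℂ) ^ (-((κ : ℝ) : ℂ)) with hqd
  have hdc0 : ((hd vj : ℝ) : ℂ) ≠ 0 := by exact_mod_cast hdj0.ne'
  have hrc0 : ((r : ℝ) : ℂ) ≠ 0 := by exact_mod_cast hr0.ne'
  have e2 : w / hd vj * (r * I1) - l * (cr * cE * D) =
      (w * ((r / hd vj : ℝ) : ℂ)) * (I1 - ((L / r : ℝ) : ℂ) * (cE * (q * D))) +
        ((cr : ℂ) * cE * D) * (((L - hd vj * l) / hd vj : ℝ) : ℂ) := by
    rw [← hpw]
    push_cast
    field_simp
    ring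
  rw [e2]
  refine (norm_add_le _ _).trans ?_
  have n1 : ‖(w * ((r / hd vj : ℝ) : ℂ)) * (I1 - ((L / r : ℝ) : ℂ) * (cE * (q * D)))‖ ≤
      (1 * (r / m)) * (CQ * (R * S) ^ 2 * δ ^ (-κ + 3 / 50)) := by
    rw [norm_mul, norm_mul, Complex.norm_real, Real.norm_eq_abs, abs_of_pos (by positivity)]
    gcongr
  have n2 : ‖((cr : ℂ) * cE * D) * (((L - hd vj * l) / hd vj : ℝ) : ℂ)‖ ≤
      (cr * ‖cE‖ * δ ^ (-κ)) * (l * l / m) := by
    rw [norm_mul, norm_mul, norm_mul, Complex.norm_real, Complex.norm_real, Real.norm_eq_abs,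
      Real.norm_eq_abs, abs_of_pos hcr0, abs_div, abs_of_pos hdj0]
    gcongr
  have hδκ : 0 < δ ^ (-κ) := Real.rpow_pos_of_pos hδ0 _
  have hδ5 : 0 < δ ^ (3 / 50 : ℝ) := Real.rpow_pos_of_pos hδ0 _
  rw [Real.rpow_add hδ0] at n1
  have hX1 : 0 ≤ l * l := by positivity
  have hX2 : 0 ≤ S ^ 2 * δ ^ (3 / 50 : ℝ) := by positivity
  calc _ ≤ (1 * (r / m)) * (CQ * (R * S) ^ 2 * (δ ^ (-κ) * δ ^ (3 / 50 : ℝ))) +
        (cr * ‖cE‖ * δ ^ (-κ)) * (l * l / m) := add_le_add n1 n2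
    _ = δ ^ (-κ) * ((r / m * (CQ * R ^ 2)) * (S ^ 2 * δ ^ (3 / 50 : ℝ)) +
        (cr * ‖cE‖ / m) * (l * l)) := by ring
    _ ≤ δ ^ (-κ) * ((r / m * (CQ * R ^ 2) + cr * ‖cE‖ / m + 1) * (S ^ 2 * δ ^ (3 / 50 : ℝ)) +
        (r / m * (CQ * R ^ 2) + cr * ‖cE‖ / m + 1) * (l * l)) := by
        have hA : 0 ≤ r / m * (CQ * R ^ 2) := by positivity
        have hB : 0 ≤ cr * ‖cE‖ / m := by positivity
        gcongr
        · linarith
        · linarith
    _ = _ := by ring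

set_option maxHeartbeats 4000000 in
/-- CF: a piece of the curve -/
theorem cv_piece (h : PF M k0 k1 P) {r : ℝ} (hr0 : 0 < r) : ∃ c : ℂ, ∀ (a b B : ℝ), 0 ≤ B →
    ∃ C : ℝ, 0 < C ∧ ∀ (g wt : ℝ → ℂ) (δ x l vj : ℝ), (∀ v ∈ Set.Icc a b, ‖g v‖ ≤ B) →
      (∀ v ∈ Set.Icc a b, ∀ v' ∈ Set.Icc a b, ‖g v - g v'‖ ≤ B * |v - v'|) →
      ContinuousOn wt (Set.Icc a b) →
      (∀ v ∈ Set.Icc a b, ‖wt v - g v * ((2 * hd v : ℝ) : ℂ) ^ (kk k0 k1 : ℂ)‖ ≤
          B * (δ + |x|)) →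
      0 < δ → δ ≤ 1 → |x| ≤ 1 → 0 < l → l ≤ 1 → l ≤ r → a ≤ vj → vj + l ≤ b →
      ‖(∫ v in vj..(vj + l), P 0 1 (-hh (v - om2 δ x) / r) (hh (v + om2 δ x) / r) * wt v) -
        l * (c * ((δ : ℂ) - x * I) ^ (-(kk k0 k1 : ℂ)) * g vj)‖ ≤
        C * δ ^ (-kk k0 k1) * (l * ((1 + |x| / δ) ^ 2 * δ + (1 + |x| / δ) * l) +
          (1 + |x| / δ) ^ 2 * δ ^ (3 / 50 : ℝ)) := by
  obtain ⟨cE, hE⟩ := eqd h
  set κ : ℝ := kk k0 k1 with hκd
  refine ⟨((2 * r : ℝ) : ℂ) ^ ((κ : ℝ) : ℂ) * cE, ?_⟩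
  intro a b B hB
  obtain ⟨C1, hC1, hpt⟩ := cv_pt h hr0 a b B hB
  set V : ℝ := max |a| |b| with hV
  obtain ⟨C2, hC2, hmain⟩ := cf_main h hE hr0 V
  obtain ⟨ci, Ci, hci, hCi, him⟩ := hh_im V
  obtain ⟨_, hder, hdc, hdp, hdl, hrl⟩ := hr_facts
  refine ⟨C1 + B * C2, by positivity, ?_⟩
  intro g wt δ x l vj hg hgl hwc hwt hδ0 hδ1 hx hl0 hl1 hlr haj hjb
  have habs : ∀ t ∈ Set.Icc a b, |t| ≤ V := fun t ht => abs_le_max_abs_abs ht.1 ht.2
  have hjI : vj ∈ Set.Icc a b := ⟨haj, by linarith⟩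
  have hlI : vj + l ∈ Set.Icc a b := ⟨by linarith, hjb⟩
  have hp := hpt g wt δ x l vj hg hgl hwt hδ0 hδ1 hx hl0 hl1 haj hjb
  have hm := hmain δ x l vj (habs _ hjI) (habs _ hlI) hδ0 hδ1 hx hl0 hl1 hlr
  set S : ℝ := 1 + |x| / δ with hS
  have hS1 : 1 ≤ S := by
    rw [hS]
    have : 0 ≤ |x| / δ := by positivity
    linarith
  set u : ℂ := hd vj * om2 δ x / r with hu
  have omim : (om2 δ x).im = δ / 2 := by
    rw [om2, show (2 : ℂ) = ((2 : ℝ) : ℂ) by norm_num, Complex.div_ofReal_im]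
    simp
  have u0 : 0 < u.im := by
    rw [hu, Complex.div_ofReal_im, Complex.im_ofReal_mul, omim]
    have := (hdp vj).1
    positivity
  set f1 : ℝ → ℂ := fun v => P 0 1 (-hh (v - om2 δ x) / r) (hh (v + om2 δ x) / r) * wt v with hf1
  set f2 : ℝ → ℂ := fun v => P 0 1 (((-hr v / r : ℝ) : ℂ) + u) (-((-hr v / r : ℝ) : ℂ) + u) *
    (((2 * hd vj : ℝ) : ℂ) ^ ((κ : ℝ) : ℂ) * ((hd v / hd vj : ℝ) : ℂ)) with hf2
  have hsub : Set.Icc vj (vj + l) ⊆ Set.Icc a b := Set.Icc_subset_Icc haj hjb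
  have huIcc : Set.uIcc vj (vj + l) = Set.Icc vj (vj + l) := Set.uIcc_of_le (by linarith)
  obtain ⟨hc1, hc2⟩ := hh_cont (δ := δ) (x := x) hδ0 hδ1
  have i1 : IntervalIntegrable f1 volume vj (vj + l) := by
    refine ContinuousOn.intervalIntegrable ?_
    rw [huIcc]
    refine ContinuousOn.mul (pf_cont h 0 1 (hc1.neg.div_const _).continuousOn
      (hc2.div_const _).continuousOn (fun t ht => ?_) (fun t ht => ?_)) (hwc.mono hsub)
    · obtain ⟨_, _, h3, _⟩ := him t δ x (habs _ (hsub ht)) hδ0 hδ1 hx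
      rw [Complex.div_ofReal_im]
      exact div_pos (lt_of_lt_of_le (by positivity) h3) hr0
    · obtain ⟨h3, _⟩ := him t δ x (habs _ (hsub ht)) hδ0 hδ1 hx
      rw [Complex.div_ofReal_im]
      exact div_pos (lt_of_lt_of_le (by positivity) h3) hr0
  have hrc : Continuous hr := continuous_iff_continuousAt.2 fun v => (hder v).continuousAt
  have i2 : IntervalIntegrable f2 volume vj (vj + l) := by
    refine ContinuousOn.intervalIntegrable ?_
    refine ContinuousOn.mul (pf_cont h 0 1 (by fun_prop) (by fun_prop) (fun t _ => ?_)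
      (fun t _ => ?_)) (by fun_prop)
    · simpa [-Complex.ofReal_div, -Complex.ofReal_neg] using u0
    · simpa [-Complex.ofReal_div, -Complex.ofReal_neg] using u0
  have e : (∫ v in vj..(vj + l), f1 v) - l * (((2 * r : ℝ) : ℂ) ^ ((κ : ℝ) : ℂ) * cE *
      ((δ : ℂ) - x * I) ^ (-((κ : ℝ) : ℂ)) * g vj) =
      (∫ v in vj..(vj + l), (f1 v - g vj * f2 v)) + g vj * ((∫ v in vj..(vj + l), f2 v) -
        l * (((2 * r : ℝ) : ℂ) ^ ((κ : ℝ) : ℂ) * cE *
      ((δ : ℂ) - x * I) ^ (-((κ : ℝ) : ℂ)))) := by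
    rw [intervalIntegral.integral_sub i1 (i2.const_mul _), intervalIntegral.integral_const_mul]
    ring
  rw [e]
  refine (norm_add_le _ _).trans ?_
  have n1 : ‖∫ v in vj..(vj + l), (f1 v - g vj * f2 v)‖ ≤
      (C1 * δ ^ (-κ) * (S ^ 2 * δ + S * l)) * |vj + l - vj| := by
    refine intervalIntegral.norm_integral_le_of_norm_le_const fun v hv => ?_
    rw [Set.uIoc_of_le (by linarith)] at hv
    have h0 := hp v ⟨hv.1.le, hv.2⟩
    have e0 : f1 v - g vj * f2 v = P 0 1 (-hh (v - om2 δ x) / r) (hh (v + om2 δ x) / r) * wt v -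
        P 0 1 (((-hr v / r : ℝ) : ℂ) + u) (-((-hr v / r : ℝ) : ℂ) + u) *
          (g vj * ((2 * hd vj : ℝ) : ℂ) ^ ((κ : ℝ) : ℂ) * ((hd v / hd vj : ℝ) : ℂ)) := by
      simp only [hf1, hf2]
      ring
    rw [e0]
    exact h0
  have n2 : ‖g vj * ((∫ v in vj..(vj + l), f2 v) -
        l * (((2 * r : ℝ) : ℂ) ^ ((κ : ℝ) : ℂ) * cE *
      ((δ : ℂ) - x * I) ^ (-((κ : ℝ) : ℂ))))‖ ≤
      B * (C2 * δ ^ (-κ) * (l * l + S ^ 2 * δ ^ (3 / 50 : ℝ))) := by
    rw [norm_mul]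
    exact mul_le_mul (hg vj hjI) hm (norm_nonneg _) hB
  have hδκ : 0 < δ ^ (-κ) := Real.rpow_pos_of_pos hδ0 _
  have hδ5 : 0 < δ ^ (3 / 50 : ℝ) := Real.rpow_pos_of_pos hδ0 _
  rw [show vj + l - vj = l by ring, abs_of_pos hl0] at n1
  have h1 : l * l ≤ l * (S ^ 2 * δ + S * l) := by
    have : l ≤ S * l := by nlinarith
    have h2 : 0 ≤ S ^ 2 * δ := by positivity
    gcongr
    linarith
  have h2 : 0 ≤ S ^ 2 * δ ^ (3 / 50 : ℝ) := by positivity
  calc _ ≤ (C1 * δ ^ (-κ) * (S ^ 2 * δ + S * l)) * l +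
        B * (C2 * δ ^ (-κ) * (l * l + S ^ 2 * δ ^ (3 / 50 : ℝ))) := add_le_add n1 n2
    _ ≤ (C1 * δ ^ (-κ) * (S ^ 2 * δ + S * l)) * l +
        C1 * δ ^ (-κ) * (S ^ 2 * δ ^ (3 / 50 : ℝ)) +
        B * (C2 * δ ^ (-κ) * (l * (S ^ 2 * δ + S * l) + S ^ 2 * δ ^ (3 / 50 : ℝ))) := by
        have h3 : 0 ≤ C1 * δ ^ (-κ) * (S ^ 2 * δ ^ (3 / 50 : ℝ)) := by positivity
        have h4 : B * (C2 * δ ^ (-κ) * (l * l + S ^ 2 * δ ^ (3 / 50 : ℝ))) ≤
          B * (C2 * δ ^ (-κ) * (l * (S ^ 2 * δ + S * l) + S ^ 2 * δ ^ (3 / 50 : ℝ))) := by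
          gcongr
        linarith
    _ = _ := by ring

end Pool.Agent.HL4
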