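import Pool.Agent.Lib_helper68.HL4.Defs3
import Pool.Agent.Lib_helper68.HL4F.CB
import Pool.Agent.Lib_helper68.HL4F.CD
import Pool.Agent.Lib_helper68.HL4F.CF
import Pool.Agent.Lib_helper68.HL4F.LA
namespace Pool.Agent.HL4

open UpperHalfPlane hiding I
open Complex MeasureTheory Filter Topology NumberField
open Pool.Agent.HSG (Em Lat IsInt nI NCl dgm lz)
open Pool.Agent.HSG.N (Prim LForm QF v2 HK LamH GG Gb pz)
open scoped nonZeroDivisors MatrixGroups

variable {M k0 k1 : ℕ} {P : ZMod M → ZMod M → ℂ → ℂ → ℂ}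

/-- a piece lies in the interval -/
theorem cg_mem {a b : ℝ} (hab : a ≤ b) {J : ℕ} (hJ : 0 < J) {j : ℕ} (hj : j < J) :
    a ≤ a + j * ((b - a) / J) ∧ a + j * ((b - a) / J) + (b - a) / J ≤ b := by
  have hJ0 : (0 : ℝ) < J := by exact_mod_cast hJ
  have hl : 0 ≤ (b - a) / J := div_nonneg (by linarith) hJ0.le
  have hj1 : (j : ℝ) + 1 ≤ J := by exact_mod_cast hj
  constructor
  · have : 0 ≤ (j : ℝ) * ((b - a) / J) := mul_nonneg (Nat.cast_nonneg _) hl
    linarith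
  · have h1 : ((j : ℝ) + 1) * ((b - a) / J) ≤ J * ((b - a) / J) :=
      mul_le_mul_of_nonneg_right hj1 hl
    have h2 : (J : ℝ) * ((b - a) / J) = b - a := by field_simp
    nlinarith

/-- the integral as a sum over the pieces -/
theorem cg_sum {F : ℝ → ℂ} {a b : ℝ} (hab : a ≤ b) (hF : ContinuousOn F (Set.Icc a b)) {J : ℕ}
    (hJ : 0 < J) :
    ∫ v in a..b, F v = ∑ j ∈ Finset.range J,
      ∫ v in (a + j * ((b - a) / J))..(a + j * ((b - a) / J) + (b - a) / J), F v := by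
  have hJ0 : (0 : ℝ) < J := by exact_mod_cast hJ
  have hl : 0 ≤ (b - a) / J := div_nonneg (by linarith) hJ0.le
  have h := intervalIntegral.sum_integral_adjacent_intervals (f := F) (μ := volume)
    (a := fun k : ℕ => a + k * ((b - a) / J)) (n := J) (by
      intro k hk
      have h1 := cg_mem hab hJ hk
      apply ContinuousOn.intervalIntegrable
      have e : a + ((k + 1 : ℕ) : ℝ) * ((b - a) / J) = a + k * ((b - a) / J) + (b - a) / J := by
        push_cast; ring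
      rw [e, Set.uIcc_of_le (by linarith)]
      exact hF.mono (Set.Icc_subset_Icc h1.1 h1.2))
  simp only [Nat.cast_zero, zero_mul, add_zero] at h
  have e2 : a + (J : ℝ) * ((b - a) / J) = b := by field_simp; ring
  rw [e2] at h
  rw [← h]
  refine Finset.sum_congr rfl fun k _ => ?_
  have e : a + ((k + 1 : ℕ) : ℝ) * ((b - a) / J) = a + k * ((b - a) / J) + (b - a) / J := by
    push_cast; ring
  rw [e]

/-- Riemann sums of a Lipschitz function -/
theorem cg_riemann {g : ℝ → ℂ} {a b B : ℝ} (hab : a ≤ b) (hB : 0 ≤ B)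
    (hg : ∀ v ∈ Set.Icc a b, ∀ v' ∈ Set.Icc a b, ‖g v - g v'‖ ≤ B * |v - v'|)
    (hgc : ContinuousOn g (Set.Icc a b)) {J : ℕ} (hJ : 0 < J) :
    ‖(∑ j ∈ Finset.range J, (((b - a) / J : ℝ) : ℂ) * g (a + j * ((b - a) / J))) -
      ∫ v in a..b, g v‖ ≤ (b - a) * (B * ((b - a) / J)) := by
  have hJ0 : (0 : ℝ) < J := by exact_mod_cast hJ
  have hl : 0 ≤ (b - a) / J := div_nonneg (by linarith) hJ0.le
  rw [cg_sum hab hgc hJ, ← Finset.sum_sub_distrib]
  have h1 : ∀ j ∈ Finset.range J, ‖(((b - a) / J : ℝ) : ℂ) * g (a + j * ((b - a) / J)) -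
      ∫ v in (a + j * ((b - a) / J))..(a + j * ((b - a) / J) + (b - a) / J), g v‖ ≤
      (b - a) / J * (B * ((b - a) / J)) := by
    intro j hj
    rw [Finset.mem_range] at hj
    obtain ⟨m1, m2⟩ := cg_mem hab hJ hj
    set l := (b - a) / J with hldef
    set v0 := a + j * l with hv0
    have hint : IntervalIntegrable g volume v0 (v0 + l) := by
      apply ContinuousOn.intervalIntegrable
      rw [Set.uIcc_of_le (by linarith)]
      exact hgc.mono (Set.Icc_subset_Icc m1 m2)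
    have e1 : ((l : ℝ) : ℂ) * g v0 = ∫ _v in v0..(v0 + l), g v0 := by
      rw [intervalIntegral.integral_const]
      simp
    rw [e1, ← intervalIntegral.integral_sub intervalIntegrable_const hint]
    have h2 := intervalIntegral.norm_integral_le_of_norm_le_const (a := v0) (b := v0 + l)
      (f := fun v => g v0 - g v) (C := B * l) (by
        intro v hv
        rw [Set.uIoc_of_le (by linarith)] at hv
        have h3 := hg v0 ⟨m1, by linarith⟩ v ⟨by linarith [hv.1], by linarith [hv.2]⟩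
        refine h3.trans (mul_le_mul_of_nonneg_left ?_ hB)
        rw [abs_le]
        constructor <;> linarith [hv.1, hv.2])
    refine h2.trans (le_of_eq ?_)
    rw [add_sub_cancel_left, abs_of_nonneg hl]
    ring
  refine (norm_sum_le _ _).trans ((Finset.sum_le_sum h1).trans (le_of_eq ?_))
  rw [Finset.sum_const, Finset.card_range, nsmul_eq_mul]
  field_simp

/-- CG: (C) -/
theorem curve (h : PF M k0 k1 P) {r : ℝ}
    (hr : 0 < r) : ∃ c : ℂ, ∀ (a b : ℝ), a ≤ b → ∀ (g : ℝ → ℂ) (B : ℝ), 0 ≤ B →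
      (∀ v ∈ Set.Icc a b, ‖g v‖ ≤ B) →
      (∀ v ∈ Set.Icc a b, ∀ v' ∈ Set.Icc a b, ‖g v - g v'‖ ≤ B * |v - v'|) →
      ∃ C : ℝ, 0 < C ∧ ∀ δ x : ℝ, 0 < δ → δ ≤ 1 → |x| ≤ 1 → ∀ wt : ℝ → ℂ,
        ContinuousOn wt (Set.Icc a b) →
        (∀ v ∈ Set.Icc a b, ‖wt v - g v * ((2 * hd v : ℝ) : ℂ) ^ (kk k0 k1 : ℂ)‖ ≤
          B * (δ + |x|)) →
        ‖(∫ v in a..b, P 0 1 (-hh (v - om2 δ x) / r) (hh (v + om2 δ x) / r) * wt v) -
          c * ((δ : ℂ) - x * I) ^ (-(kk k0 k1 : ℂ)) * ∫ v in a..b, g v‖ ≤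
          C * δ ^ (-kk k0 k1 + 3 / 100) * (1 + |x| / δ) ^ 2 := by
  obtain ⟨c, hc⟩ := cv_piece h hr
  refine ⟨c, fun a b hab g B hB hg hgL => ?_⟩
  obtain ⟨C1, hC1, h1⟩ := hc a b B hB
  have hgc : ContinuousOn g (Set.Icc a b) := by
    have : LipschitzOnWith ⟨B, hB⟩ g (Set.Icc a b) := by
      apply LipschitzOnWith.of_dist_le_mul
      intro v hv v' hv'
      rw [dist_eq_norm, Real.dist_eq]
      exact hgL v hv v' hv'
    exact this.continuousOn
  set m : ℝ := max 1 (1 / r) with hm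
  have hm1 : 1 ≤ m := le_max_left _ _
  have hmr : 1 / r ≤ m := le_max_right _ _
  have hm0 : 0 < m := by linarith
  have hba : 0 ≤ b - a := by linarith
  refine ⟨C1 * (2 * (b - a) + (b - a) * m + 1) + ‖c‖ * ((b - a) * B) + 1, by positivity,
    fun δ x hδ hδ1 hx wt hwc hwt => ?_⟩
  set S : ℝ := 1 + |x| / δ with hS
  have hS1 : 1 ≤ S := by
    have : 0 ≤ |x| / δ := by positivity
    linarith
  have hS2 : 1 ≤ S ^ 2 := one_le_pow₀ hS1
  have hSS : S ≤ S ^ 2 := by nlinarith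
  rcases hab.eq_or_lt with rfl | hab'
  · simp only [intervalIntegral.integral_same, mul_zero, sub_zero, norm_zero]
    positivity
  have hba' : 0 < b - a := by linarith
  set e3 : ℝ := δ ^ (3 / 100 : ℝ) with he3
  have he30 : 0 < e3 := Real.rpow_pos_of_pos hδ _
  have he31 : e3 ≤ 1 := Real.rpow_le_one hδ.le hδ1 (by norm_num)
  have hδe : δ ≤ e3 := by
    calc δ = δ ^ (1 : ℝ) := (Real.rpow_one δ).symm
      _ ≤ δ ^ (3 / 100 : ℝ) := Real.rpow_le_rpow_of_exponent_ge hδ hδ1 (by norm_num)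
  have he6 : δ ^ (3 / 50 : ℝ) = e3 * e3 := by
    rw [he3, ← Real.rpow_add hδ]; norm_num
  set J : ℕ := ⌈(b - a) * m / e3⌉₊ with hJ
  have hJpos : 0 < J := Nat.ceil_pos.mpr (by positivity)
  have hJ0 : (0 : ℝ) < J := by exact_mod_cast hJpos
  have hJ1 : (b - a) * m / e3 ≤ J := Nat.le_ceil _
  have hJ2 : (J : ℝ) ≤ (b - a) * m / e3 + 1 := (Nat.ceil_lt_add_one (by positivity)).le
  set l : ℝ := (b - a) / J with hl
  have hl0 : 0 < l := by positivity
  have hle : l * m ≤ e3 := by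
    rw [hl]
    rw [div_le_iff₀ he30] at hJ1
    rw [div_mul_eq_mul_div, div_le_iff₀ hJ0]
    linarith
  have hle3 : l ≤ e3 := by nlinarith
  have hl1 : l ≤ 1 := hle3.trans he31
  have hlr : l ≤ r := by
    have h2 : l * (1 / r) ≤ 1 := (mul_le_mul_of_nonneg_left hmr hl0.le).trans (hle.trans he31)
    rwa [mul_one_div, div_le_one hr] at h2
  have hJl : (J : ℝ) * l = b - a := by rw [hl]; field_simp
  -- continuity of the integrand
  obtain ⟨ci, Ci, hci, -, him⟩ := hh_im (max |a| |b|)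
  have habs : ∀ v ∈ Set.Icc a b, |v| ≤ max |a| |b| := by
    intro v hv
    exact abs_le_max_abs_abs hv.1 hv.2
  have hFc : ContinuousOn (fun v : ℝ => P 0 1 (-hh (v - om2 δ x) / r) (hh (v + om2 δ x) / r) *
      wt v) (Set.Icc a b) := by
    apply ContinuousOn.mul _ hwc
    have hcc := hh_cont (x := x) hδ hδ1
    apply pf_cont h
    · exact ((hcc.1.neg).div_const _).continuousOn
    · exact (hcc.2.div_const _).continuousOn
    · intro v hv
      have h3 := (him v δ x (habs v hv) hδ hδ1 hx).2.2.1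
      rw [Complex.div_ofReal_im]
      exact div_pos (lt_of_lt_of_le (by positivity) h3) hr
    · intro v hv
      have h3 := (him v δ x (habs v hv) hδ hδ1 hx).1
      rw [Complex.div_ofReal_im]
      exact div_pos (lt_of_lt_of_le (by positivity) h3) hr
  set z : ℂ := ((δ : ℂ) - x * I) ^ (-(kk k0 k1 : ℂ)) with hz
  have hkk : 0 ≤ kk k0 k1 := by unfold kk; positivity
  have hznorm : ‖z‖ ≤ δ ^ (-kk k0 k1) := by
    rw [hz]
    have e : (-(kk k0 k1 : ℂ)) = ((-kk k0 k1 : ℝ) : ℂ) := by push_cast; ring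
    rw [e, Complex.norm_cpow_real]
    have h4 : δ ≤ ‖(δ : ℂ) - x * I‖ := by
      have := Complex.abs_re_le_norm ((δ : ℂ) - x * I)
      have h5 : ((δ : ℂ) - x * I).re = δ := by simp
      rw [h5, abs_of_pos hδ] at this
      exact this
    exact Real.rpow_le_rpow_of_nonpos hδ h4 (by linarith)
  set F : ℝ → ℂ := fun v : ℝ => P 0 1 (-hh (v - om2 δ x) / r) (hh (v + om2 δ x) / r) * wt v
    with hF
  have hsum := cg_sum hab hFc hJpos
  have hE : ∀ j ∈ Finset.range J,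
      ‖(∫ v in (a + j * l)..(a + j * l + l), F v) - l * (c * z * g (a + j * l))‖ ≤
      C1 * δ ^ (-kk k0 k1) * (l * (S ^ 2 * δ + S * l) + S ^ 2 * δ ^ (3 / 50 : ℝ)) := by
    intro j hj
    rw [Finset.mem_range] at hj
    obtain ⟨m1, m2⟩ := cg_mem hab hJpos hj
    exact h1 g wt δ x l (a + j * l) hg hgL hwc hwt hδ hδ1 hx hl0 hl1 hlr m1 m2
  have hE2 : ‖(∫ v in a..b, F v) - ∑ j ∈ Finset.range J, (l * (c * z * g (a + j * l)) : ℂ)‖ ≤
      J * (C1 * δ ^ (-kk k0 k1) * (l * (S ^ 2 * δ + S * l) + S ^ 2 * δ ^ (3 / 50 : ℝ))) := by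
    rw [hsum, ← Finset.sum_sub_distrib]
    refine (norm_sum_le _ _).trans ((Finset.sum_le_sum hE).trans (le_of_eq ?_))
    rw [Finset.sum_const, Finset.card_range, nsmul_eq_mul]
  have hR := cg_riemann hab hB hgL hgc hJpos
  have e5 : ∑ j ∈ Finset.range J, (l * (c * z * g (a + j * l)) : ℂ) =
      c * z * ∑ j ∈ Finset.range J, ((l : ℝ) : ℂ) * g (a + j * l) := by
    rw [Finset.mul_sum]
    exact Finset.sum_congr rfl fun j _ => by ring
  have hkey : ‖(∫ v in a..b, F v) - c * z * ∫ v in a..b, g v‖ ≤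
      J * (C1 * δ ^ (-kk k0 k1) * (l * (S ^ 2 * δ + S * l) + S ^ 2 * δ ^ (3 / 50 : ℝ))) +
      ‖c‖ * δ ^ (-kk k0 k1) * ((b - a) * (B * l)) := by
    have e6 : (∫ v in a..b, F v) - c * z * ∫ v in a..b, g v =
        ((∫ v in a..b, F v) - ∑ j ∈ Finset.range J, (l * (c * z * g (a + j * l)) : ℂ)) +
        c * z * ((∑ j ∈ Finset.range J, ((l : ℝ) : ℂ) * g (a + j * l)) - ∫ v in a..b, g v) := by
      rw [e5]; ring
    rw [e6]
    refine (norm_add_le _ _).trans (add_le_add hE2 ?_)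
    rw [norm_mul, norm_mul]
    gcongr
  refine hkey.trans ?_
  have hD : δ ^ (-kk k0 k1 + 3 / 100) = δ ^ (-kk k0 k1) * e3 := by
    rw [he3, ← Real.rpow_add hδ]
  set d0 : ℝ := δ ^ (-kk k0 k1) with hd0
  have hd00 : 0 < d0 := Real.rpow_pos_of_pos hδ _
  rw [hD, he6]
  have q1 : J * (C1 * d0 * (l * (S ^ 2 * δ + S * l) + S ^ 2 * (e3 * e3))) =
      C1 * d0 * ((b - a) * (S ^ 2 * δ + S * l) + (J * e3) * e3 * S ^ 2) := by
    rw [← hJl]; ring
  have q2 : J * e3 ≤ (b - a) * m + 1 := by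
    have := mul_le_mul_of_nonneg_right hJ2 he30.le
    have e7 : ((b - a) * m / e3 + 1) * e3 = (b - a) * m + e3 := by field_simp
    linarith
  have q3 : (b - a) * (S ^ 2 * δ + S * l) ≤ (b - a) * (2 * (S ^ 2 * e3)) := by
    apply mul_le_mul_of_nonneg_left _ hba
    have t1 : S ^ 2 * δ ≤ S ^ 2 * e3 := by gcongr
    have t2 : S * l ≤ S ^ 2 * e3 := by gcongr
    linarith
  have q4 : (J * e3) * e3 * S ^ 2 ≤ ((b - a) * m + 1) * e3 * S ^ 2 := by gcongr
  have q5 : C1 * d0 * ((b - a) * (S ^ 2 * δ + S * l) + (J * e3) * e3 * S ^ 2) ≤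
      C1 * d0 * ((b - a) * (2 * (S ^ 2 * e3)) + ((b - a) * m + 1) * e3 * S ^ 2) :=
    mul_le_mul_of_nonneg_left (add_le_add q3 q4) (by positivity)
  have q6 : ‖c‖ * d0 * ((b - a) * (B * l)) ≤ ‖c‖ * d0 * ((b - a) * (B * (e3 * S ^ 2))) := by
    have t3 : l ≤ e3 * S ^ 2 := by nlinarith
    gcongr
  have q7 : 0 ≤ 1 * (d0 * e3) * S ^ 2 := by positivity
  rw [q1]
  calc _ ≤ C1 * d0 * ((b - a) * (2 * (S ^ 2 * e3)) + ((b - a) * m + 1) * e3 * S ^ 2) +
        ‖c‖ * d0 * ((b - a) * (B * (e3 * S ^ 2))) + 1 * (d0 * e3) * S ^ 2 := by linarith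
    _ = _ := by ring

end Pool.Agent.HL4

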