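import Pool.Agent.Lib_helper68.HL4.Defs3
import Pool.Agent.Lib_helper98.HNF.T2
/-!
# HL4, block PB: `√D`
-/

namespace Pool.Agent.HL4

open UpperHalfPlane hiding I
open Complex MeasureTheory Filter Topology NumberField
open Pool.Agent.HSG (Em Lat IsInt nI NCl dgm lz)
open Pool.Agent.HSG.N (Prim LForm QF v2 HK LamH GG Gb pz)
open scoped nonZeroDivisors MatrixGroups

variable {K : Type} [Field K] [NumberField K]

/-- PB -/
theorem rho_exists [IsTotallyReal K] {w0 w1 : Em K} {ε : Kˣ} {ℓ : ℝ} (hq : QF w0 w1 ε ℓ) :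
    ∃ s : K, 0 < w0 s ∧ w1 s = -w0 s := by
  obtain ⟨τ, hτ, ⟨x, hx⟩, h01, h10⟩ := HSG.N.tau_exists hq
  have e0 : ∀ y, w0 (τ y) = w1 y := fun y => RingHom.congr_fun h01 y
  have e1 : ∀ y, w1 (τ y) = w0 y := fun y => RingHom.congr_fun h10 y
  have hne : w0 (x - τ x) ≠ 0 := by
    intro h
    exact hx (sub_eq_zero.1 ((map_eq_zero w0).1 h)).symm
  have h1 : w1 (x - τ x) = -w0 (x - τ x) := by
    rw [map_sub, map_sub, e0, e1]
    ring
  rcases lt_or_gt_of_ne hne with h | h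
  · refine ⟨-(x - τ x), ?_, ?_⟩
    · rw [map_neg]
      linarith
    · rw [map_neg, map_neg, h1]
  · exact ⟨x - τ x, h, h1⟩


end Pool.Agent.HL4
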