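import Pool.Agent.Lib_helper68.HL4.Defs3
/-!
# HL4, block PC: the matrix of `gr`
-/

namespace Pool.Agent.HL4

open UpperHalfPlane hiding I
open Complex MeasureTheory Filter Topology NumberField
open Pool.Agent.HSG (Em Lat IsInt nI NCl dgm lz)
open Pool.Agent.HSG.N (Prim LForm QF v2 HK LamH GG Gb pz)
open scoped nonZeroDivisors MatrixGroups

variable {K : Type} [Field K] [NumberField K]

theorem pc_coe (ρ : Kˣ) (q : SL(2, ℤ)) : (gr ρ q : Matrix (Fin 2) (Fin 2) K) =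
    !![((q 0 0 : ℤ) : K), ((q 0 1 : ℤ) : K) * ρ; ((q 1 0 : ℤ) : K) / ρ, ((q 1 1 : ℤ) : K)] := by
  have h1 : (gr ρ q : Matrix (Fin 2) (Fin 2) K) =
      (!![(ρ : K), 0; 0, 1] * (q.1.map (Int.castRingHom K)) * !![((ρ⁻¹ : Kˣ) : K), 0; 0, 1] :
        Matrix (Fin 2) (Fin 2) K) := rfl
  have hρ := ρ.ne_zero
  have h2 : (q.1.map (Int.castRingHom K) : Matrix (Fin 2) (Fin 2) K) =
      !![((q 0 0 : ℤ) : K), ((q 0 1 : ℤ) : K); ((q 1 0 : ℤ) : K), ((q 1 1 : ℤ) : K)] := by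
    ext i j
    fin_cases i <;> fin_cases j <;> rfl
  rw [h1, h2, Matrix.mul_fin_two, Matrix.mul_fin_two, Units.val_inv_eq_inv_val]
  congr 1
  ext i j
  fin_cases i <;> fin_cases j
  · simp
    field_simp
  · simp
    ring
  · simp
    field_simp
  · simp

/-- PC -/
theorem gr_coe (ρ : Kˣ) (q : SL(2, ℤ)) : (gr ρ q : Matrix (Fin 2) (Fin 2) K) =
    !![((q 0 0 : ℤ) : K), ((q 0 1 : ℤ) : K) * ρ; ((q 1 0 : ℤ) : K) / ρ, ((q 1 1 : ℤ) : K)] ∧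
    (gr ρ q : Matrix (Fin 2) (Fin 2) K).det = 1 := by
  refine ⟨pc_coe ρ q, ?_⟩
  have hρ := ρ.ne_zero
  have hd : (q 0 0 : ℤ) * q 1 1 - q 0 1 * q 1 0 = 1 := by
    have := q.2
    rw [Matrix.det_fin_two] at this
    exact this
  have hd' : ((q 0 0 : ℤ) : K) * ((q 1 1 : ℤ) : K) - ((q 0 1 : ℤ) : K) * ((q 1 0 : ℤ) : K) = 1 := by
    exact_mod_cast congrArg (fun z : ℤ => (z : K)) hd
  rw [pc_coe, Matrix.det_fin_two_of]
  rw [← hd']
  field_simp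


end Pool.Agent.HL4
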