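import Pool.Agent.Lib_helper68.HL4.Defs3
import Pool.Agent.Lib_helper84.HSGF.GB1
/-!
# HL4, block PA
-/

namespace Pool.Agent.HL4

open UpperHalfPlane hiding I
open Complex MeasureTheory Filter Topology NumberField
open Pool.Agent.HSG (Em Lat IsInt nI NCl dgm lz)
open Pool.Agent.HSG.N (Prim LForm QF v2 HK LamH GG Gb pz)
open scoped nonZeroDivisors MatrixGroups

variable {K : Type} [Field K] [NumberField K]

theorem pa_den (L : Lat K) (v : Fin 2 → K) : ∃ m : ℕ, 0 < m ∧ ((m : K) • v : Fin 2 → K) ∈ L.M := by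
  obtain ⟨d, hd, hv⟩ := HSG.gb1_den L v
  have hn : Ideal.absNorm (Ideal.span {d}) ≠ 0 := by
    rw [Ideal.absNorm_ne_zero_iff_mem_nonZeroDivisors, mem_nonZeroDivisors_iff_ne_zero]
    intro h
    exact hd (Ideal.span_singleton_eq_bot.1 h)
  refine ⟨Ideal.absNorm (Ideal.span {d}), Nat.pos_of_ne_zero hn, ?_⟩
  obtain ⟨c, hc⟩ := Ideal.mem_span_singleton'.1 (Ideal.absNorm_mem (Ideal.span {d}))
  have h1 : c • (d • v) ∈ L.M := L.M.smul_mem c hv
  have h2 : c • (d • v) = ((Ideal.absNorm (Ideal.span {d}) : K) • v : Fin 2 → K) := by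
    rw [smul_smul, hc]
    funext i
    rw [Pi.smul_apply, Pi.smul_apply, Algebra.smul_def, smul_eq_mul, map_natCast]
  rw [← h2]
  exact h1

theorem pa_mono (L : Lat K) {m n : ℕ} (h : m ∣ n) {v : Fin 2 → K}
    (hv : ((m : K) • v : Fin 2 → K) ∈ L.M) : ((n : K) • v : Fin 2 → K) ∈ L.M := by
  obtain ⟨k, rfl⟩ := h
  have h1 : (k : 𝓞 K) • ((m : K) • v : Fin 2 → K) ∈ L.M := L.M.smul_mem _ hv
  have h2 : (k : 𝓞 K) • ((m : K) • v : Fin 2 → K) = (((m * k : ℕ) : K) • v : Fin 2 → K) := by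
    funext i
    rw [Pi.smul_apply, Pi.smul_apply, Pi.smul_apply, Algebra.smul_def, smul_eq_mul, smul_eq_mul]
    push_cast
    ring
  rw [← h2]
  exact h1

/-- PA -/
theorem lat_mul_mem (L L' : Lat K) (A : Matrix (Fin 2) (Fin 2) K) :
    ∃ m : ℕ, 0 < m ∧ ∀ v ∈ L.M, ((m : K) • Matrix.vecMul v A : Fin 2 → K) ∈ L'.M := by
  classical
  obtain ⟨S, hS⟩ := L.fg
  choose m hm hmv using fun v : Fin 2 → K => pa_den L' (Matrix.vecMul v A)
  refine ⟨∏ s ∈ S, m s, Finset.prod_pos (fun s _ => hm s), ?_⟩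
  intro v hv
  rw [← hS] at hv
  induction hv using Submodule.span_induction with
  | mem x hx => exact pa_mono L' (Finset.dvd_prod_of_mem m hx) (hmv x)
  | zero =>
    rw [Matrix.zero_vecMul, smul_zero]
    exact L'.M.zero_mem
  | add x y _ _ hx hy =>
    rw [Matrix.add_vecMul, smul_add]
    exact L'.M.add_mem hx hy
  | smul a x _ hx =>
    have h1 := L'.M.smul_mem a hx
    have h2 : a • ((((∏ s ∈ S, m s : ℕ) : K)) • Matrix.vecMul x A : Fin 2 → K) =
        ((((∏ s ∈ S, m s : ℕ) : K)) • Matrix.vecMul (a • x) A : Fin 2 → K) := by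
      have e : (a • x : Fin 2 → K) = (algebraMap (𝓞 K) K a) • x := by
        funext i
        rw [Pi.smul_apply, Pi.smul_apply, Algebra.smul_def, smul_eq_mul]
      rw [e, Matrix.smul_vecMul]
      funext i
      rw [Pi.smul_apply, Pi.smul_apply, Pi.smul_apply, Pi.smul_apply, Algebra.smul_def,
        smul_eq_mul, smul_eq_mul, smul_eq_mul]
      ring
    rw [← h2]
    exact h1

end Pool.Agent.HL4

section
end
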