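import Pool.Agent.Lib_helper68.HL4.Defs3
import Pool.Agent.Lib_helper68.HL4F.PA
import Pool.Agent.Lib_helper68.HL4F.PC
/-!
# HL4, part III, block PD: the congruence subgroup fixes `L` and `v mod nL` (helper16)
-/

namespace Pool.Agent.HL4

open UpperHalfPlane hiding I
open Complex MeasureTheory Filter Topology NumberField
open Pool.Agent.HSG (Em Lat IsInt nI NCl dgm lz)
open Pool.Agent.HSG.N (Prim LForm QF v2 HK LamH GG Gb pz)
open scoped nonZeroDivisors MatrixGroups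

variable {K : Type} [Field K] [NumberField K]

omit [NumberField K] in
theorem pd_vm (v : Fin 2 → K) (a b c d : K) :
    Matrix.vecMul v (!![a, b; c, d] : Matrix (Fin 2) (Fin 2) K) =
      ![v 0 * a + v 1 * c, v 0 * b + v 1 * d] := by
  ext i
  fin_cases i <;> simp [Matrix.vecMul, dotProduct, Fin.sum_univ_two]

omit [NumberField K] in
theorem pd_mul {L' : Lat K} {m : ℕ} (k : ℕ) {w : Fin 2 → K} (h : (m : K) • w ∈ L'.M) :
    ((m * k : ℕ) : K) • w ∈ L'.M := by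
  have e : ((m * k : ℕ) : K) • w = k • ((m : K) • w) := by
    rw [← Nat.cast_smul_eq_nsmul K, smul_smul]
    congr 1
    push_cast
    ring
  rw [e]
  exact L'.M.nsmul_mem h k

omit [NumberField K] in
theorem pd_mul' {L' : Lat K} {m : ℕ} (k : ℕ) {w : Fin 2 → K} (h : (m : K) • w ∈ L'.M) :
    ((k * m : ℕ) : K) • w ∈ L'.M := by
  rw [mul_comm]
  exact pd_mul k h

theorem pd_both (L L' L'' : Lat K) (A : Matrix (Fin 2) (Fin 2) K) :
    ∃ m : ℕ, 0 < m ∧ ∀ v ∈ L.M, ((m : K) • Matrix.vecMul v A : Fin 2 → K) ∈ L'.M ∧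
      ((m : K) • Matrix.vecMul v A : Fin 2 → K) ∈ L''.M := by
  obtain ⟨m, hm, h⟩ := lat_mul_mem L L' A
  obtain ⟨k, hk, h'⟩ := lat_mul_mem L L'' A
  exact ⟨m * k, Nat.mul_pos hm hk, fun v hv => ⟨pd_mul k (h v hv), pd_mul' m (h' v hv)⟩⟩

/-- an element of the lattice moves by an element of `L'` -/
theorem pd_move {L' : Lat K} {s : K} (hs : s ≠ 0) {N M : ℕ} (hN : 0 < N) {v : Fin 2 → K}
    (h0 : (N : K) • Matrix.vecMul v (!![0, s; 0, 0] : Matrix (Fin 2) (Fin 2) K) ∈ L'.M)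
    (h1 : (M : K) • Matrix.vecMul v (!![1, 0; 0, 0] : Matrix (Fin 2) (Fin 2) K) ∈ L'.M)
    (h2 : (M : K) • Matrix.vecMul v (!![0, 0; 0, 1] : Matrix (Fin 2) (Fin 2) K) ∈ L'.M)
    (h3 : (M : K) • Matrix.vecMul v (!![0, 0; 1 / (N * s), 0] : Matrix (Fin 2) (Fin 2) K) ∈ L'.M)
    {ρ : Kˣ} (hρ : (ρ : K) = N * s) {q : SL(2, ℤ)} (hq0 : ((q 1 0 : ℤ) : ZMod M) = 0)
    (hq1 : ((q 1 1 : ℤ) : ZMod M) = 1) :
    Matrix.vecMul v (gr ρ q : Matrix (Fin 2) (Fin 2) K) - v ∈ L'.M := by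
  have hdet : q 0 0 * q 1 1 - q 0 1 * q 1 0 = 1 := by
    have h := q.det_coe
    rw [Matrix.det_fin_two] at h
    exact h
  have hq2 : ((q 0 0 : ℤ) : ZMod M) = 1 := by
    have h := congrArg (fun z : ℤ => (z : ZMod M)) hdet
    simp only [Int.cast_sub, Int.cast_mul, hq0, hq1, mul_one, mul_zero, sub_zero,
      Int.cast_one] at h
    exact h
  obtain ⟨c, hc⟩ := (ZMod.intCast_zmod_eq_zero_iff_dvd _ _).1 hq0
  obtain ⟨d, hd⟩ := (ZMod.intCast_zmod_eq_zero_iff_dvd (q 1 1 - 1) M).1 (by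
    rw [Int.cast_sub, hq1, Int.cast_one, sub_self])
  obtain ⟨a, ha⟩ := (ZMod.intCast_zmod_eq_zero_iff_dvd (q 0 0 - 1) M).1 (by
    rw [Int.cast_sub, hq2, Int.cast_one, sub_self])
  have hN0 : (N : K) ≠ 0 := by exact_mod_cast hN.ne'
  have hc' : ((q 1 0 : ℤ) : K) = M * c := by rw [hc]; push_cast; ring
  have hd' : ((q 1 1 : ℤ) : K) = 1 + M * d := by
    have := congrArg (fun z : ℤ => (z : K)) hd
    push_cast at this
    linear_combination this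
  have ha' : ((q 0 0 : ℤ) : K) = 1 + M * a := by
    have := congrArg (fun z : ℤ => (z : K)) ha
    push_cast at this
    linear_combination this
  have e : Matrix.vecMul v (gr ρ q : Matrix (Fin 2) (Fin 2) K) - v =
      a • ((M : K) • Matrix.vecMul v (!![1, 0; 0, 0] : Matrix (Fin 2) (Fin 2) K)) +
      c • ((M : K) • Matrix.vecMul v (!![0, 0; 1 / (N * s), 0] : Matrix (Fin 2) (Fin 2) K)) +
      (q 0 1 : ℤ) • ((N : K) • Matrix.vecMul v (!![0, s; 0, 0] : Matrix (Fin 2) (Fin 2) K)) +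
      d • ((M : K) • Matrix.vecMul v (!![0, 0; 0, 1] : Matrix (Fin 2) (Fin 2) K)) := by
    rw [(gr_coe ρ q).1, ← Int.cast_smul_eq_zsmul K, ← Int.cast_smul_eq_zsmul K,
      ← Int.cast_smul_eq_zsmul K, ← Int.cast_smul_eq_zsmul K, hρ, hc', hd', ha']
    rw [pd_vm, pd_vm, pd_vm, pd_vm, pd_vm]
    ext i
    fin_cases i
    · simp only [Fin.zero_eta, Pi.sub_apply, Pi.add_apply, Pi.smul_apply, smul_eq_mul,
        Matrix.cons_val_zero, mul_zero, add_zero, zero_add, mul_one]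
      field_simp
      ring
    · simp only [Fin.mk_one, Pi.sub_apply, Pi.add_apply, Pi.smul_apply, smul_eq_mul,
        Matrix.cons_val_one, Matrix.cons_val_zero, Matrix.cons_val_fin_one, mul_zero, add_zero,
        zero_add, mul_one]
      ring
  rw [e]
  exact L'.M.add_mem (L'.M.add_mem (L'.M.add_mem (zsmul_mem h1 a) (zsmul_mem h3 c))
    (zsmul_mem h0 _)) (zsmul_mem h2 d)

theorem gr_fix {n : HSG.Id K} (L : Lat K) {s : K} (hs : s ≠ 0) :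
    ∃ N M : ℕ, 0 < N ∧ 4 ≤ M ∧ ∀ ρ : Kˣ, (ρ : K) = N * s → ∀ q : SL(2, ℤ),
      ((q 1 0 : ℤ) : ZMod M) = 0 → ((q 1 1 : ℤ) : ZMod M) = 1 →
      L.mul (gr ρ q) = L ∧ ∀ v ∈ L.M,
        Matrix.vecMul v (gr ρ q : Matrix (Fin 2) (Fin 2) K) - v ∈ (L.sm n).M := by
  obtain ⟨N, hN, h0⟩ := pd_both L L (L.sm n) (!![0, s; 0, 0] : Matrix (Fin 2) (Fin 2) K)
  obtain ⟨M1, hM1, h1⟩ := pd_both L L (L.sm n) (!![1, 0; 0, 0] : Matrix (Fin 2) (Fin 2) K)
  obtain ⟨M2, hM2, h2⟩ := pd_both L L (L.sm n) (!![0, 0; 0, 1] : Matrix (Fin 2) (Fin 2) K)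
  obtain ⟨M3, hM3, h3⟩ := pd_both L L (L.sm n)
    (!![0, 0; 1 / (N * s), 0] : Matrix (Fin 2) (Fin 2) K)
  have hM : 0 < M1 * M2 * M3 := Nat.mul_pos (Nat.mul_pos hM1 hM2) hM3
  refine ⟨N, M1 * M2 * M3 * 4, hN, by omega, fun ρ hρ => ?_⟩
  obtain ⟨M, hMe⟩ : ∃ M, M = M1 * M2 * M3 * 4 := ⟨_, rfl⟩
  rw [← hMe]
  have e1 : M = M1 * (M2 * M3 * 4) := by rw [hMe]; ring
  have e2 : M = M2 * (M1 * M3 * 4) := by rw [hMe]; ring
  have e3 : M = M3 * (M1 * M2 * 4) := by rw [hMe]; ring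
  have key : ∀ q : SL(2, ℤ), ((q 1 0 : ℤ) : ZMod M) = 0 → ((q 1 1 : ℤ) : ZMod M) = 1 →
      ∀ v ∈ L.M, Matrix.vecMul v (gr ρ q : Matrix (Fin 2) (Fin 2) K) - v ∈ L.M ∧
        Matrix.vecMul v (gr ρ q : Matrix (Fin 2) (Fin 2) K) - v ∈ (L.sm n).M := by
    intro q hq0 hq1 v hv
    refine ⟨pd_move hs hN (h0 v hv).1 ?_ ?_ ?_ hρ hq0 hq1,
      pd_move hs hN (h0 v hv).2 ?_ ?_ ?_ hρ hq0 hq1⟩
    · rw [e1]; exact pd_mul _ (h1 v hv).1
    · rw [e2]; exact pd_mul _ (h2 v hv).1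
    · rw [e3]; exact pd_mul _ (h3 v hv).1
    · rw [e1]; exact pd_mul _ (h1 v hv).2
    · rw [e2]; exact pd_mul _ (h2 v hv).2
    · rw [e3]; exact pd_mul _ (h3 v hv).2
  intro q hq0 hq1
  refine ⟨?_, fun v hv => (key q hq0 hq1 v hv).2⟩
  have hdet : q 0 0 * q 1 1 - q 0 1 * q 1 0 = 1 := by
    have h := q.det_coe
    rw [Matrix.det_fin_two] at h
    exact h
  have hq2 : ((q 0 0 : ℤ) : ZMod M) = 1 := by
    have h := congrArg (fun z : ℤ => (z : ZMod M)) hdet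
    simp only [Int.cast_sub, Int.cast_mul, hq0, hq1, mul_one, mul_zero, sub_zero,
      Int.cast_one] at h
    exact h
  have hi0 : (q⁻¹ : SL(2, ℤ)) 1 0 = -q 1 0 := by
    rw [Matrix.SpecialLinearGroup.SL2_inv_expl]
    rfl
  have hi1 : (q⁻¹ : SL(2, ℤ)) 1 1 = q 0 0 := by
    rw [Matrix.SpecialLinearGroup.SL2_inv_expl]
    rfl
  refine Pool.Agent.HSG.Lat.ext ?_
  apply le_antisymm
  · rintro _ ⟨u, hu, rfl⟩
    have h := (key q hq0 hq1 u hu).1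
    have h' := L.M.add_mem h hu
    rw [sub_add_cancel] at h'
    exact h'
  · intro v hv
    have h := (key q⁻¹ (by rw [hi0, Int.cast_neg, hq0, neg_zero]) (by rw [hi1]; exact hq2) v hv).1
    have h' := L.M.add_mem h hv
    rw [sub_add_cancel] at h'
    refine ⟨_, h', ?_⟩
    show Matrix.vecMul (Matrix.vecMul v (gr ρ q⁻¹ : Matrix (Fin 2) (Fin 2) K))
      (gr ρ q : Matrix (Fin 2) (Fin 2) K) = v
    rw [Matrix.vecMul_vecMul, ← Units.val_mul, ← map_mul, inv_mul_cancel, map_one, Units.val_one,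
      Matrix.vecMul_one]


end Pool.Agent.HL4
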