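import Pool.Agent.Lib_helper68.HL4.Defs3
import Pool.Agent.Lib_helper98.HNF.A2
/-!
# HL4, block PG: independence of the choice
-/

namespace Pool.Agent.HL4

open UpperHalfPlane hiding I
open Complex MeasureTheory Filter Topology NumberField
open Pool.Agent.HSG (Em Lat IsInt nI NCl dgm lz)
open Pool.Agent.HSG.N (Prim LForm QF v2 HK LamH GG Gb pz)
open scoped nonZeroDivisors MatrixGroups

variable {K : Type} [Field K] [NumberField K]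

theorem pg_row {M : ℕ} (q q' : SL(2, ℤ)) (h0 : ((q' 1 0 : ℤ) : ZMod M) = ((q 1 0 : ℤ) : ZMod M))
    (h1 : ((q' 1 1 : ℤ) : ZMod M) = ((q 1 1 : ℤ) : ZMod M)) :
    (((q' * q⁻¹) 1 0 : ℤ) : ZMod M) = 0 ∧ (((q' * q⁻¹) 1 1 : ℤ) : ZMod M) = 1 := by
  have e0 : ((q' * q⁻¹) 1 0 : ℤ) = q' 1 0 * q 1 1 - q' 1 1 * q 1 0 := by
    rw [Matrix.SpecialLinearGroup.coe_mul, Matrix.SpecialLinearGroup.SL2_inv_expl]
    simp [Matrix.mul_apply, Fin.sum_univ_two]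
    ring
  have e1 : ((q' * q⁻¹) 1 1 : ℤ) = q' 1 1 * q 0 0 - q' 1 0 * q 0 1 := by
    rw [Matrix.SpecialLinearGroup.coe_mul, Matrix.SpecialLinearGroup.SL2_inv_expl]
    simp [Matrix.mul_apply, Fin.sum_univ_two]
    ring
  have hd : (q 0 0 : ℤ) * q 1 1 - q 0 1 * q 1 0 = 1 := by
    have := q.det_coe
    rwa [Matrix.det_fin_two] at this
  constructor
  · rw [e0]
    push_cast
    rw [h0, h1]
    ring
  · rw [e1]
    push_cast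
    rw [h0, h1]
    have := congrArg (fun x : ℤ => (x : ZMod M)) hd
    push_cast at this
    rw [← this]
    ring

/-- PG: independence of the choice -/
theorem pe_eq {n : HSG.Id K} (hn : IsInt n) {k : Em K → ℕ} {μ : Em K → ℝ} {om : HSG.Id K → ℂ}
    {F : (Em K → ℍ) → Lat K → (Fin 2 → K) → ℂ} (hF : LForm n k μ om F) {L : Lat K}
    {v : Fin 2 → K} (hv : Prim n L v) {M : ℕ} {ρ : Kˣ}
    (hfix : ∀ q : SL(2, ℤ), ((q 1 0 : ℤ) : ZMod M) = 0 → ((q 1 1 : ℤ) : ZMod M) = 1 →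
      L.mul (gr ρ q) = L ∧ ∀ v ∈ L.M,
        Matrix.vecMul v (gr ρ q : Matrix (Fin 2) (Fin 2) K) - v ∈ (L.sm n).M)
    (w0 : Em K) (r : ℝ) (q : SL(2, ℤ)) (Z W : ℂ) :
    Pe w0 F L v ρ r M (q 1 0 : ℤ) (q 1 1 : ℤ) Z W =
      F (v2 w0 (ofComplex (r * Z)) (ofComplex (r * W))) (L.mul (gr ρ q))
        (Matrix.vecMul v (gr ρ q : Matrix (Fin 2) (Fin 2) K)) := by
  have hex : ∃ q' : SL(2, ℤ), ((q' 1 0 : ℤ) : ZMod M) = ((q 1 0 : ℤ) : ZMod M) ∧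
      ((q' 1 1 : ℤ) : ZMod M) = ((q 1 1 : ℤ) : ZMod M) := ⟨q, rfl, rfl⟩
  unfold Pe
  rw [dif_pos hex]
  obtain ⟨q', hq', h0, h1⟩ : ∃ q', q' = hex.choose ∧
      ((q' 1 0 : ℤ) : ZMod M) = ((q 1 0 : ℤ) : ZMod M) ∧
      ((q' 1 1 : ℤ) : ZMod M) = ((q 1 1 : ℤ) : ZMod M) :=
    ⟨_, rfl, hex.choose_spec.1, hex.choose_spec.2⟩
  rw [← hq']
  obtain ⟨r0, r1⟩ := pg_row q q' h0 h1
  obtain ⟨f1, f2⟩ := hfix _ r0 r1
  have hgr : gr ρ q' = gr ρ (q' * q⁻¹) * gr ρ q := by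
    rw [← map_mul, inv_mul_cancel_right]
  have hL : L.mul (gr ρ q') = L.mul (gr ρ q) := by
    rw [hgr, HSG.mul_mul, f1]
  have hvec : Matrix.vecMul v (gr ρ q' : Matrix (Fin 2) (Fin 2) K) =
      Matrix.vecMul v (gr ρ q : Matrix (Fin 2) (Fin 2) K) +
      Matrix.vecMul (Matrix.vecMul v (gr ρ (q' * q⁻¹) : Matrix (Fin 2) (Fin 2) K) - v)
        (gr ρ q : Matrix (Fin 2) (Fin 2) K) := by
    rw [hgr, Units.val_mul, ← Matrix.vecMul_vecMul, Matrix.sub_vecMul]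
    abel
  rw [hL, hvec]
  refine hF.level _ _ _ ((HSG.N.prim_mul n L v (gr ρ q)).2 hv) ?_ _
  rw [← HSG.mul_sm, HSG.N.a2_mul_mem]
  exact f2 v hv.1

end Pool.Agent.HL4
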