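import Pool.Agent.Lib_helper68.HL4.Defs3
import Pool.Agent.Lib_helper98.HNF.A2
import Pool.Agent.Lib_helper98.HNF.A4b
set_option autoImplicit false

namespace Pool.Agent.HL4

open UpperHalfPlane hiding I
open Complex MeasureTheory Filter Topology NumberField
open Pool.Agent.HSG (Em Lat IsInt nI NCl dgm lz)
open Pool.Agent.HSG.N (Prim LForm QF v2 HK LamH GG Gb pz)
open scoped nonZeroDivisors MatrixGroups

variable {K : Type} [Field K] [NumberField K]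

omit [NumberField K] in
theorem ph_v2 (w0 : Em K) (a b : ℂ) : (v2 w0 (ofComplex a) (ofComplex b) : Em K → ℍ) =
    fun w => ofComplex (v2 w0 a b w) := by
  funext w
  unfold v2
  split_ifs <;> rfl

/-- PH: holomorphy of one member -/
theorem ph_holo {w0 w1 : Em K} {ε : Kˣ} {ℓ : ℝ} (_hq : QF w0 w1 ε ℓ) {n : HSG.Id K}
    {k : Em K → ℕ} {μ : Em K → ℝ} {om : HSG.Id K → ℂ}
    {F : (Em K → ℍ) → Lat K → (Fin 2 → K) → ℂ} (hF : LForm n k μ om F) {L : Lat K}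
    {v : Fin 2 → K} (hv : Prim n L v) {r : ℝ} (hr : 0 < r) :
    DifferentiableOn ℂ (fun p : ℂ × ℂ => F (v2 w0 (ofComplex (r * p.1)) (ofComplex (r * p.2))) L v)
      {p | 0 < p.1.im ∧ 0 < p.2.im} := by
  have h1 := hF.holo L v hv
  have h2 : DifferentiableOn ℂ (fun p : ℂ × ℂ => fun w : Em K => v2 w0 ((r : ℂ) * p.1) (r * p.2) w)
      {p | 0 < p.1.im ∧ 0 < p.2.im} := by
    rw [differentiableOn_pi]
    intro w
    unfold v2
    split_ifs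
    · exact (differentiable_fst.const_mul (r : ℂ)).differentiableOn
    · exact (differentiable_snd.const_mul (r : ℂ)).differentiableOn
  have h3 := h1.comp h2 (by
    intro p hp w
    show 0 < (v2 w0 ((r : ℂ) * p.1) (r * p.2) w).im
    unfold v2
    split_ifs
    · rw [Complex.im_ofReal_mul]; exact mul_pos hr hp.1
    · rw [Complex.im_ofReal_mul]; exact mul_pos hr hp.2)
  refine h3.congr fun p _ => ?_
  show F (v2 w0 (ofComplex (r * p.1)) (ofComplex (r * p.2))) L v = _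
  rw [ph_v2]
  rfl

theorem ph_bdd {w0 w1 : Em K} {ε : Kˣ} {ℓ : ℝ} (hq : QF w0 w1 ε ℓ) {n : HSG.Id K}
    {k : Em K → ℕ} {μ : Em K → ℝ} {om : HSG.Id K → ℂ}
    {F : (Em K → ℍ) → Lat K → (Fin 2 → K) → ℂ} (hF : LForm n k μ om F) {L : Lat K}
    {v : Fin 2 → K} (hv : Prim n L v) {r : ℝ} (hr : 0 < r) :
    ∃ C : ℝ, 0 < C ∧ ∀ Z W : ℂ, 0 < Z.im → 0 < W.im →
      ‖F (v2 w0 (ofComplex (r * Z)) (ofComplex (r * W))) L v‖ ≤
        C * Z.im ^ (-((k w0 : ℝ) / 2)) * W.im ^ (-((k w1 : ℝ) / 2)) := by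
  obtain ⟨C, hC⟩ := hF.bdd L v hv
  refine ⟨(|C| + 1) * r ^ (-((k w0 : ℝ) / 2)) * r ^ (-((k w1 : ℝ) / 2)), by positivity,
    fun Z W hZ hW => ?_⟩
  have h := hC (v2 w0 (ofComplex (r * Z)) (ofComplex (r * W)))
  have hrZ : 0 < ((r : ℂ) * Z).im := by rw [Complex.im_ofReal_mul]; exact mul_pos hr hZ
  have hrW : 0 < ((r : ℂ) * W).im := by rw [Complex.im_ofReal_mul]; exact mul_pos hr hW
  have e0 : ((v2 w0 (ofComplex (r * Z)) (ofComplex (r * W)) : Em K → ℍ) w0).im = r * Z.im := by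
    unfold v2
    rw [if_pos rfl, ← UpperHalfPlane.coe_im, ofComplex_apply_of_im_pos hrZ]
    show ((r : ℂ) * Z).im = _
    rw [Complex.im_ofReal_mul]
  have e1 : ((v2 w0 (ofComplex (r * Z)) (ofComplex (r * W)) : Em K → ℍ) w1).im = r * W.im := by
    unfold v2
    rw [if_neg hq.ne.symm, ← UpperHalfPlane.coe_im, ofComplex_apply_of_im_pos hrW]
    show ((r : ℂ) * W).im = _
    rw [Complex.im_ofReal_mul]
  rw [HSG.N.qf_prod hq, e0, e1, Real.mul_rpow hr.le hZ.le, Real.mul_rpow hr.le hW.le] at h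
  have hz0 : 0 < Z.im ^ ((k w0 : ℝ) / 2) := Real.rpow_pos_of_pos hZ _
  have hz1 : 0 < W.im ^ ((k w1 : ℝ) / 2) := Real.rpow_pos_of_pos hW _
  have hr0 : 0 < r ^ ((k w0 : ℝ) / 2) := Real.rpow_pos_of_pos hr _
  have hr1 : 0 < r ^ ((k w1 : ℝ) / 2) := Real.rpow_pos_of_pos hr _
  rw [Real.rpow_neg hr.le, Real.rpow_neg hr.le, Real.rpow_neg hZ.le, Real.rpow_neg hW.le]
  have h2 : ‖F (v2 w0 (ofComplex (r * Z)) (ofComplex (r * W))) L v‖ ≤
      C / (r ^ ((k w0 : ℝ) / 2) * Z.im ^ ((k w0 : ℝ) / 2) *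
        (r ^ ((k w1 : ℝ) / 2) * W.im ^ ((k w1 : ℝ) / 2))) := by
    rw [le_div_iff₀ (by positivity)]
    exact h
  refine h2.trans ?_
  have h3 : (|C| + 1) * (r ^ ((k w0 : ℝ) / 2))⁻¹ * (r ^ ((k w1 : ℝ) / 2))⁻¹ *
      (Z.im ^ ((k w0 : ℝ) / 2))⁻¹ * (W.im ^ ((k w1 : ℝ) / 2))⁻¹ =
      (|C| + 1) / (r ^ ((k w0 : ℝ) / 2) * Z.im ^ ((k w0 : ℝ) / 2) *
        (r ^ ((k w1 : ℝ) / 2) * W.im ^ ((k w1 : ℝ) / 2))) := by
    field_simp
  rw [h3]
  gcongr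
  linarith [le_abs_self C]

/-- PH: holomorphy and bound -/
theorem pe_holo {w0 w1 : Em K} {ε : Kˣ} {ℓ : ℝ} (hq : QF w0 w1 ε ℓ) {n : HSG.Id K}
    {k : Em K → ℕ} {μ : Em K → ℝ} {om : HSG.Id K → ℂ}
    {F : (Em K → ℍ) → Lat K → (Fin 2 → K) → ℂ} (hF : LForm n k μ om F) {L : Lat K}
    {v : Fin 2 → K} (hv : Prim n L v) (M : ℕ) [NeZero M] (ρ : Kˣ) {r : ℝ} (hr : 0 < r) :
    (∀ x y : ZMod M, DifferentiableOn ℂ (fun p : ℂ × ℂ => Pe w0 F L v ρ r M x y p.1 p.2)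
      {p | 0 < p.1.im ∧ 0 < p.2.im}) ∧
    ∃ C : ℝ, 0 < C ∧ ∀ (x y : ZMod M) (Z W : ℂ), 0 < Z.im → 0 < W.im →
      ‖Pe w0 F L v ρ r M x y Z W‖ ≤ C * Z.im ^ (-((k w0 : ℝ) / 2)) * W.im ^ (-((k w1 : ℝ) / 2)) := by
  classical
  constructor
  · intro x y
    by_cases h : ∃ q : SL(2, ℤ), ((q 1 0 : ℤ) : ZMod M) = x ∧ ((q 1 1 : ℤ) : ZMod M) = y
    · have h1 := ph_holo hq hF ((HSG.N.prim_mul n L v (gr ρ h.choose)).2 hv) hr
      refine h1.congr fun p _ => ?_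
      unfold Pe
      rw [dif_pos h]
    · refine (differentiableOn_const (0 : ℂ)).congr fun p _ => ?_
      unfold Pe
      rw [dif_neg h]
  · have key : ∀ p : ZMod M × ZMod M, ∃ C : ℝ, 0 < C ∧ ∀ (Z W : ℂ), 0 < Z.im → 0 < W.im →
      ‖Pe w0 F L v ρ r M p.1 p.2 Z W‖ ≤
        C * Z.im ^ (-((k w0 : ℝ) / 2)) * W.im ^ (-((k w1 : ℝ) / 2)) := by
      rintro ⟨x, y⟩
      by_cases h : ∃ q : SL(2, ℤ), ((q 1 0 : ℤ) : ZMod M) = x ∧ ((q 1 1 : ℤ) : ZMod M) = y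
      · obtain ⟨C, hC, h1⟩ := ph_bdd hq hF ((HSG.N.prim_mul n L v (gr ρ h.choose)).2 hv) hr
        refine ⟨C, hC, fun Z W hZ hW => ?_⟩
        have h2 := h1 Z W hZ hW
        show ‖Pe w0 F L v ρ r M x y Z W‖ ≤ _
        unfold Pe
        rw [dif_pos h]
        exact h2
      · refine ⟨1, one_pos, fun Z W hZ hW => ?_⟩
        show ‖Pe w0 F L v ρ r M x y Z W‖ ≤ _
        unfold Pe
        rw [dif_neg h, norm_zero]
        have := Real.rpow_nonneg hZ.le (-((k w0 : ℝ) / 2))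
        have := Real.rpow_nonneg hW.le (-((k w1 : ℝ) / 2))
        positivity
    choose C hC h1 using key
    refine ⟨∑ p, C p, Finset.sum_pos (fun p _ => hC p) ⟨(0, 0), Finset.mem_univ _⟩,
      fun x y Z W hZ hW => ?_⟩
    refine (h1 (x, y) Z W hZ hW).trans ?_
    have h2 : C (x, y) ≤ ∑ p, C p :=
      Finset.single_le_sum (f := C) (fun p _ => (hC p).le) (Finset.mem_univ (x, y))
    have := Real.rpow_nonneg hZ.le (-((k w0 : ℝ) / 2))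
    have := Real.rpow_nonneg hW.le (-((k w1 : ℝ) / 2))
    gcongr


end Pool.Agent.HL4
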