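import Pool.Agent.Lib_helper68.HL4.Defs3
import Pool.Agent.Lib_helper68.HL4F.PB
import Pool.Agent.Lib_helper68.HL4F.PC
import Pool.Agent.Lib_helper68.HL4F.PD
import Pool.Agent.Lib_helper68.HL4F.PE
import Pool.Agent.Lib_helper68.HL4F.PG
import Pool.Agent.Lib_helper68.HL4F.PH
import Pool.Agent.Lib_helper98.HNF.A2
import Pool.Agent.Lib_helper98.HNF.A4b
import Pool.Agent.Lib_helper98.HNF.B1
/-!
# Block PI: the closed surface of a real quadratic field through `(L, v)`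
-/

namespace Pool.Agent.HL4

open UpperHalfPlane hiding I
open Complex MeasureTheory Filter Topology NumberField
open Pool.Agent.HSG (Em Lat IsInt nI NCl dgm lz)
open Pool.Agent.HSG.N (Prim LForm QF v2 HK LamH GG Gb pz)
open scoped nonZeroDivisors MatrixGroups

variable {M k0 k1 : ℕ} {P : ZMod M → ZMod M → ℂ → ℂ → ℂ}

variable {K : Type} [Field K] [NumberField K]

/-- the matrix in `SL₂(ℤ)` -/
def pi_g (a b c d : ℤ) (h : a * d - b * c = 1) : SL(2, ℤ) :=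
  ⟨!![a, b; c, d], by rw [Matrix.det_fin_two_of]; exact h⟩

theorem pi_row (q g : SL(2, ℤ)) (M : ℕ) :
    ((((q * g) 1 0 : ℤ)) : ZMod M) = ((q 1 0 : ℤ) : ZMod M) * ((g 0 0 : ℤ) : ZMod M) +
      ((q 1 1 : ℤ) : ZMod M) * ((g 1 0 : ℤ) : ZMod M) ∧
    ((((q * g) 1 1 : ℤ)) : ZMod M) = ((q 1 0 : ℤ) : ZMod M) * ((g 0 1 : ℤ) : ZMod M) +
      ((q 1 1 : ℤ) : ZMod M) * ((g 1 1 : ℤ) : ZMod M) := by
  have h1 : ∀ j, (q * g) 1 j = q 1 0 * g 0 j + q 1 1 * g 1 j := by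
    intro j
    show ((q : Matrix (Fin 2) (Fin 2) ℤ) * (g : Matrix (Fin 2) (Fin 2) ℤ)) 1 j = _
    rw [Matrix.mul_apply, Fin.sum_univ_two]
  rw [h1, h1]
  push_cast
  exact ⟨rfl, rfl⟩

theorem pf_exists [IsTotallyReal K] {w0 w1 : Em K} {ε : Kˣ} {ℓ : ℝ} (hq : QF w0 w1 ε ℓ)
    {n : HSG.Id K} (hn : IsInt n) {k : Em K → ℕ} (hk : ∀ w, 1 ≤ k w) {μ : Em K → ℝ}
    {om : HSG.Id K → ℂ} {F : (Em K → ℍ) → Lat K → (Fin 2 → K) → ℂ} (hF : LForm n k μ om F)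
    {L : Lat K} {v : Fin 2 → K} (hv : Prim n L v) :
    ∃ (M : ℕ) (P : ZMod M → ZMod M → ℂ → ℂ → ℂ) (r : ℝ), 0 < r ∧ PF M (k w0) (k w1) P ∧
      ∀ Z W : ℂ, 0 < Z.im → 0 < W.im →
        F (v2 w0 (ofComplex Z) (ofComplex W)) L v = P 0 1 (Z / r) (W / r) := by
  obtain ⟨s, hs0, hs1⟩ := rho_exists hq
  have hsne : s ≠ 0 := by
    rintro rfl
    rw [map_zero] at hs0
    exact lt_irrefl _ hs0
  obtain ⟨N, M, hN, hM, hfix'⟩ := gr_fix (n := n) L hsne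
  have hNK : (N : K) ≠ 0 := Nat.cast_ne_zero.2 hN.ne'
  obtain ⟨ρ, hρ⟩ : ∃ ρ : Kˣ, (ρ : K) = N * s := ⟨Units.mk0 _ (mul_ne_zero hNK hsne), rfl⟩
  have hfix := hfix' ρ hρ
  obtain ⟨r, hr⟩ : ∃ r : ℝ, r = N * w0 s := ⟨_, rfl⟩
  have hr0 : 0 < r := by
    rw [hr]
    have : (0 : ℝ) < N := Nat.cast_pos.2 hN
    positivity
  have h0 : w0 (ρ : K) = r := by rw [hρ, map_mul, map_natCast, hr]
  have h1 : w1 (ρ : K) = -r := by rw [hρ, map_mul, map_natCast, hs1, hr]; ring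
  have : NeZero M := ⟨by omega⟩
  obtain ⟨hholo, C, hC, hbd⟩ := pe_holo hq hF hv M ρ hr0
  have hpe := fun (q : SL(2, ℤ)) (Z W : ℂ) => pe_eq hn hF hv hfix w0 r q Z W
  refine ⟨M, Pe w0 F L v ρ r M, r, hr0, ⟨hM, hk w0, hk w1, ?_, hholo, C, hC, hbd⟩, ?_⟩
  · intro a b c d habcd x y Z W hZ hW
    obtain ⟨g, hg⟩ : ∃ g : SL(2, ℤ), g = pi_g a b c d habcd := ⟨_, rfl⟩
    have g00 : g 0 0 = a := by rw [hg]; rfl
    have g01 : g 0 1 = b := by rw [hg]; rfl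
    have g10 : g 1 0 = c := by rw [hg]; rfl
    have g11 : g 1 1 = d := by rw [hg]; rfl
    by_cases hex : ∃ q : SL(2, ℤ), ((q 1 0 : ℤ) : ZMod M) = x ∧ ((q 1 1 : ℤ) : ZMod M) = y
    · obtain ⟨q, hqx, hqy⟩ := hex
      obtain ⟨hm1, hm2, hm3⟩ := gr_mob hq hr0 h0 h1 g hZ hW
      rw [g00, g01, g10, g11] at hm1
      rw [g10, g11] at hm2 hm3
      have e1 := hpe q ((a * Z + b) / (c * Z + d)) ((a * W - b) / (-c * W + d))
      rw [hqx, hqy] at e1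
      rw [e1, ← hm1]
      have hdet : (gr ρ g : Matrix (Fin 2) (Fin 2) K).det = 1 := (gr_coe ρ g).2
      have hsl := hF.slash (gr ρ g) (fun w => by rw [hdet, map_one]; exact one_pos)
        (v2 w0 (ofComplex (r * Z)) (ofComplex (r * W))) (L.mul (gr ρ q))
        (Matrix.vecMul v (gr ρ q : Matrix (Fin 2) (Fin 2) K))
        ((Pool.Agent.HSG.N.prim_mul n L v (gr ρ q)).2 hv)
      rw [hsl, Pool.Agent.HSG.N.qf_prod hq, hdet]
      have e2 := hpe (q * g) Z W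
      rw [(pi_row q g M).1, (pi_row q g M).2, hqx, hqy, g00, g01, g10, g11] at e2
      rw [e2, map_mul, Pool.Agent.HSG.mul_mul, Matrix.vecMul_vecMul, ← Units.val_mul]
      simp only [map_one, Complex.ofReal_one, Complex.one_cpow, mul_one]
      rw [hm2, hm3]
    · have hex' : ¬ ∃ q : SL(2, ℤ), ((q 1 0 : ℤ) : ZMod M) = x * a + y * c ∧
          ((q 1 1 : ℤ) : ZMod M) = x * b + y * d := by
        rintro ⟨q, hq1, hq2⟩
        apply hex
        have hdet' : d * a - (-b) * (-c) = 1 := by linarith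
        have hZM : ((a * d - b * c : ℤ) : ZMod M) = 1 := by rw [habcd, Int.cast_one]
        push_cast at hZM
        refine ⟨q * pi_g d (-b) (-c) a hdet', ?_, ?_⟩
        · rw [(pi_row q _ M).1, hq1, hq2]
          show (x * a + y * c) * ((d : ℤ) : ZMod M) + (x * b + y * d) * ((-c : ℤ) : ZMod M) = x
          push_cast
          linear_combination x * hZM
        · rw [(pi_row q _ M).2, hq1, hq2]
          show (x * a + y * c) * ((-b : ℤ) : ZMod M) + (x * b + y * d) * ((a : ℤ) : ZMod M) = y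
          push_cast
          linear_combination y * hZM
      unfold Pe
      rw [dif_neg hex, dif_neg hex', mul_zero]
  · intro Z W hZ hW
    have e1 := hpe 1 (Z / r) (W / r)
    have hrc : (r : ℂ) ≠ 0 := Complex.ofReal_ne_zero.2 hr0.ne'
    have e2 : (((1 : SL(2, ℤ)) 1 0 : ℤ) : ZMod M) = 0 := by simp
    have e3 : (((1 : SL(2, ℤ)) 1 1 : ℤ) : ZMod M) = 1 := by simp
    rw [e2, e3, mul_div_cancel₀ _ hrc, mul_div_cancel₀ _ hrc, map_one,
      Pool.Agent.HSG.N.b1_mul_one] at e1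
    rw [e1]
    congr 1
    simp

end Pool.Agent.HL4

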