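import Pool.Agent.Lib_helper68.HL4.Defs3
import Pool.Agent.Lib_helper68.HL4F.CB
import Pool.Agent.Lib_helper68.HL4F.CG
import Pool.Agent.Lib_helper68.HL4F.PI
/-!
# HL4, block GA: the curve for a form
-/

namespace Pool.Agent.HL4

open UpperHalfPlane hiding I
open Complex MeasureTheory Filter Topology NumberField
open Pool.Agent.HSG (Em Lat IsInt nI NCl dgm lz)
open Pool.Agent.HSG.N (Prim LForm QF v2 HK LamH GG Gb pz)
open scoped nonZeroDivisors MatrixGroups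

variable {K : Type} [Field K] [NumberField K]

theorem curve_form [IsTotallyReal K] {w0 w1 : Em K} {ε : Kˣ} {ℓ : ℝ} (hq : QF w0 w1 ε ℓ)
    {n : HSG.Id K} (hn : IsInt n) {k : Em K → ℕ} (hk : ∀ w, 1 ≤ k w) {μ : Em K → ℝ}
    {om : HSG.Id K → ℂ} {F : (Em K → ℍ) → Lat K → (Fin 2 → K) → ℂ} (hF : LForm n k μ om F)
    {L : Lat K} {v : Fin 2 → K} (hv : Prim n L v) :
    ∃ c : ℂ, ∀ (a b : ℝ), a ≤ b → ∀ (g : ℝ → ℂ) (B : ℝ), 0 ≤ B →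
      (∀ v ∈ Set.Icc a b, ‖g v‖ ≤ B) →
      (∀ v ∈ Set.Icc a b, ∀ v' ∈ Set.Icc a b, ‖g v - g v'‖ ≤ B * |v - v'|) →
      ∃ C : ℝ, 0 < C ∧ ∀ δ x : ℝ, 0 < δ → δ ≤ 1 → |x| ≤ 1 → ∀ wt : ℝ → ℂ,
        ContinuousOn wt (Set.Icc a b) →
        (∀ v ∈ Set.Icc a b, ‖wt v - g v * ((2 * hd v : ℝ) : ℂ) ^ (kk (k w0) (k w1) : ℂ)‖ ≤
          B * (δ + |x|)) →
        ‖(∫ t in a..b, F (v2 w0 (ofComplex (-hh (t - om2 δ x))) (ofComplex (hh (t + om2 δ x))))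
            L v * wt t) -
          c * ((δ : ℂ) - x * I) ^ (-(kk (k w0) (k w1) : ℂ)) * ∫ v in a..b, g v‖ ≤
          C * δ ^ (-kk (k w0) (k w1) + 3 / 100) * (1 + |x| / δ) ^ 2 := by
  obtain ⟨M, P, r, hr, hP, hFP⟩ := pf_exists hq hn hk hF hv
  obtain ⟨c, hc⟩ := curve hP hr
  refine ⟨c, fun a b hab g B hB h1 h2 => ?_⟩
  obtain ⟨C, hC, h3⟩ := hc a b hab g B hB h1 h2
  refine ⟨C, hC, fun δ x h0 hδ hx wt hw1 hw2 => ?_⟩
  have h4 := h3 δ x h0 hδ hx wt hw1 hw2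
  obtain ⟨c0, C0, hc0, hC0, him⟩ := hh_im (max |a| |b|)
  have e : (∫ t in a..b, F (v2 w0 (ofComplex (-hh (t - om2 δ x)))
      (ofComplex (hh (t + om2 δ x)))) L v * wt t) =
      ∫ t in a..b, P 0 1 (-hh (t - om2 δ x) / r) (hh (t + om2 δ x) / r) * wt t := by
    refine intervalIntegral.integral_congr fun t ht => ?_
    rw [Set.uIcc_of_le hab] at ht
    have hV : |t| ≤ max |a| |b| := abs_le_max_abs_abs ht.1 ht.2
    obtain ⟨i1, -, i3, -⟩ := him t δ x hV h0 hδ hx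
    have hpos : 0 < c0 * δ := mul_pos hc0 h0
    show F (v2 w0 (ofComplex (-hh (t - om2 δ x))) (ofComplex (hh (t + om2 δ x)))) L v * wt t = _
    rw [hFP _ _ (lt_of_lt_of_le hpos i3) (lt_of_lt_of_le hpos i1)]
  rw [e]
  exact h4


end Pool.Agent.HL4
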