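import Pool.Agent.Lib_helper68.HL4.Defs3
import Pool.Agent.Lib_helper98.HNF.A4b
/-!
# Block GB: the two automorphy relations
-/

set_option autoImplicit false

namespace Pool.Agent.HL4

open UpperHalfPlane hiding I
open Complex MeasureTheory Filter Topology NumberField
open Pool.Agent.HSG (Em Lat IsInt nI NCl dgm lz)
open Pool.Agent.HSG.N (Prim LForm QF v2 HK LamH GG Gb pz)
open scoped nonZeroDivisors MatrixGroups

variable {K : Type} [Field K] [NumberField K]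

theorem gb_gmm (lam : Kˣ) : (gmm lam : Matrix (Fin 2) (Fin 2) K) =
    !![(lam : K), -lam; 1, 1] := by
  unfold gmm dgm
  rw [Matrix.GeneralLinearGroup.coe_mul]
  ext i j
  fin_cases i <;> fin_cases j <;> simp [Matrix.mul_apply, Fin.sum_univ_two,
    Matrix.GeneralLinearGroup.mkOfDetNeZero]

theorem gb_gpp (lam : Kˣ) : (gpp lam : Matrix (Fin 2) (Fin 2) K) =
    !![(lam : K), lam; -1, 1] := by
  unfold gpp dgm
  rw [Matrix.GeneralLinearGroup.coe_mul]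
  ext i j
  fin_cases i <;> fin_cases j <;> simp [Matrix.mul_apply, Fin.sum_univ_two,
    Matrix.GeneralLinearGroup.mkOfDetNeZero]

theorem gb_gmm_det (lam : Kˣ) : (gmm lam : Matrix (Fin 2) (Fin 2) K).det = 2 * lam := by
  rw [gb_gmm, Matrix.det_fin_two_of]
  ring

theorem gb_gpp_det (lam : Kˣ) : (gpp lam : Matrix (Fin 2) (Fin 2) K).det = 2 * lam := by
  rw [gb_gpp, Matrix.det_fin_two_of]
  ring

theorem gb_v2_0 {X : Type} (w0 : Em K) (x y : X) : v2 w0 x y w0 = x := by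
  unfold v2
  simp

theorem gb_v2_1 {X : Type} {w0 w1 : Em K} (h : w0 ≠ w1) (x y : X) : v2 w0 x y w1 = y := by
  unfold v2
  rw [if_neg (Ne.symm h)]

/-- GB -/
theorem gmm_slash {w0 w1 : Em K} {ε : Kˣ} {ℓ : ℝ} (hq : QF w0 w1 ε ℓ)
    {n : HSG.Id K} {k : Em K → ℕ} {μ : Em K → ℝ}
    {om : HSG.Id K → ℂ} {F : (Em K → ℍ) → Lat K → (Fin 2 → K) → ℂ} (hF : LForm n k μ om F)
    {L : Lat K} {v : Fin 2 → K} (hv : Prim n L v) {lam : Kˣ} (hlam : ∀ w : Em K, 0 < w (lam : K)) :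
    ∃ c : ℂ, ∀ Z W : ℍ, F (gmm lam • (v2 w0 Z W : Em K → ℍ)) L v =
      c * (1 + (Z : ℂ)) ^ k w0 * (1 + (W : ℂ)) ^ k w1 *
        F (v2 w0 Z W) (L.mul (gmm lam)) (Matrix.vecMul v (gmm lam : Matrix (Fin 2) (Fin 2) K)) := by
  have hdet : ∀ w : Em K, 0 < w (gmm lam : Matrix (Fin 2) (Fin 2) K).det := by
    intro w
    rw [gb_gmm_det, map_mul, map_ofNat]
    have := hlam w
    positivity
  refine ⟨((w0 (gmm lam : Matrix (Fin 2) (Fin 2) K).det : ℝ) : ℂ) ^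
      (-((k w0 : ℂ) / 2) - μ w0 * Complex.I) *
      ((w1 (gmm lam : Matrix (Fin 2) (Fin 2) K).det : ℝ) : ℂ) ^
      (-((k w1 : ℂ) / 2) - μ w1 * Complex.I), fun Z W => ?_⟩
  rw [hF.slash (gmm lam) hdet _ L v hv, HSG.N.qf_prod hq]
  have h0 : lz ((gmm lam : Matrix (Fin 2) (Fin 2) K) 1) (v2 w0 Z W : Em K → ℍ) w0 = 1 + (Z : ℂ) := by
    rw [gb_gmm]
    unfold lz
    rw [gb_v2_0]
    simp
    ring
  have h1 : lz ((gmm lam : Matrix (Fin 2) (Fin 2) K) 1) (v2 w0 Z W : Em K → ℍ) w1 = 1 + (W : ℂ) := by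
    rw [gb_gmm]
    unfold lz
    rw [gb_v2_1 hq.ne]
    simp
    ring
  rw [h0, h1]
  ring

/-- GB -/
theorem gpp_slash {w0 w1 : Em K} {ε : Kˣ} {ℓ : ℝ} (hq : QF w0 w1 ε ℓ)
    {n : HSG.Id K} {k : Em K → ℕ} {μ : Em K → ℝ}
    {om : HSG.Id K → ℂ} {F : (Em K → ℍ) → Lat K → (Fin 2 → K) → ℂ} (hF : LForm n k μ om F)
    {L : Lat K} {v : Fin 2 → K} (hv : Prim n L v) {lam : Kˣ} (hlam : ∀ w : Em K, 0 < w (lam : K)) :
    ∃ c : ℂ, ∀ Z W : ℍ, F (gpp lam • (v2 w0 Z W : Em K → ℍ)) L v =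
      c * (1 - (Z : ℂ)) ^ k w0 * (1 - (W : ℂ)) ^ k w1 *
        F (v2 w0 Z W) (L.mul (gpp lam)) (Matrix.vecMul v (gpp lam : Matrix (Fin 2) (Fin 2) K)) := by
  have hdet : ∀ w : Em K, 0 < w (gpp lam : Matrix (Fin 2) (Fin 2) K).det := by
    intro w
    rw [gb_gpp_det, map_mul, map_ofNat]
    have := hlam w
    positivity
  refine ⟨((w0 (gpp lam : Matrix (Fin 2) (Fin 2) K).det : ℝ) : ℂ) ^
      (-((k w0 : ℂ) / 2) - μ w0 * Complex.I) *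
      ((w1 (gpp lam : Matrix (Fin 2) (Fin 2) K).det : ℝ) : ℂ) ^
      (-((k w1 : ℂ) / 2) - μ w1 * Complex.I), fun Z W => ?_⟩
  rw [hF.slash (gpp lam) hdet _ L v hv, HSG.N.qf_prod hq]
  have h0 : lz ((gpp lam : Matrix (Fin 2) (Fin 2) K) 1) (v2 w0 Z W : Em K → ℍ) w0 = 1 - (Z : ℂ) := by
    rw [gb_gpp]
    unfold lz
    rw [gb_v2_0]
    simp
    ring
  have h1 : lz ((gpp lam : Matrix (Fin 2) (Fin 2) K) 1) (v2 w0 Z W : Em K → ℍ) w1 = 1 - (W : ℂ) := by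
    rw [gb_gpp]
    unfold lz
    rw [gb_v2_1 hq.ne]
    simp
    ring
  rw [h0, h1]
  ring


end Pool.Agent.HL4
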