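import Pool.Agent.Lib_helper68.HL4.Defs3
import Pool.Agent.Lib_helper84.HSGF.GA3
set_option autoImplicit false

namespace Pool.Agent.HL4

open UpperHalfPlane hiding I
open Complex MeasureTheory Filter Topology NumberField
open Pool.Agent.HSG (Em Lat IsInt nI NCl dgm lz)
open Pool.Agent.HSG.N (Prim LForm QF v2 HK LamH GG Gb pz)
open scoped nonZeroDivisors MatrixGroups

variable {K : Type} [Field K] [NumberField K]

omit [NumberField K] in
/-- the action, one component -/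
theorem gc_smul (g : GL (Fin 2) K) (Z : Em K → ℍ) (w : Em K)
    (hdet : 0 < w ((g : Matrix (Fin 2) (Fin 2) K).det)) :
    (((g • Z) w : ℍ) : ℂ) =
      (((w ((g : Matrix (Fin 2) (Fin 2) K) 0 0) : ℝ) : ℂ) * (Z w : ℂ) +
        ((w ((g : Matrix (Fin 2) (Fin 2) K) 0 1) : ℝ) : ℂ)) /
      (((w ((g : Matrix (Fin 2) (Fin 2) K) 1 0) : ℝ) : ℂ) * (Z w : ℂ) +
        ((w ((g : Matrix (Fin 2) (Fin 2) K) 1 1) : ℝ) : ℂ)) := by
  have h1 : (g • Z) w = (Matrix.GeneralLinearGroup.map (n := Fin 2) w g) • Z w := rfl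
  have hdet' : 0 < ((Matrix.GeneralLinearGroup.map (n := Fin 2) w g).det : ℝ) := by
    have h2 : ((Matrix.GeneralLinearGroup.map (n := Fin 2) w g).det : ℝ) =
        w ((g : Matrix (Fin 2) (Fin 2) K).det) := by
      rw [RingHom.map_det]
      rfl
    rw [h2]
    exact hdet
  rw [h1, UpperHalfPlane.coe_smul_of_det_pos hdet']
  rfl

theorem gc_gmm_coe (lam : Kˣ) : (gmm lam : Matrix (Fin 2) (Fin 2) K) =
    !![(lam : K), -(lam : K); 1, 1] := by
  unfold gmm dgm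
  ext i j
  fin_cases i <;> fin_cases j <;> simp [Matrix.mul_apply, Fin.sum_univ_two]

theorem gc_gpp_coe (lam : Kˣ) : (gpp lam : Matrix (Fin 2) (Fin 2) K) =
    !![(lam : K), (lam : K); -1, 1] := by
  unfold gpp dgm
  ext i j
  fin_cases i <;> fin_cases j <;> simp [Matrix.mul_apply, Fin.sum_univ_two]

theorem gc_im_div (z : ℂ) : (2 / z : ℂ).im = -2 * z.im / normSq z := by
  rw [Complex.div_im]
  simp
  ring

/-- the first point: `Z = -(E - 1)/(E + 1)`, `Im E < 0` -/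
theorem gc_Z {E : ℂ} (hE : E.im < 0) : E + 1 ≠ 0 ∧ 0 < (-((E - 1) / (E + 1))).im ∧ E ≠ 0 := by
  have h1 : E + 1 ≠ 0 := by
    intro h
    have h2 := congrArg Complex.im h
    simp at h2
    exact hE.ne h2
  have h0 : E ≠ 0 := by
    intro h
    rw [h] at hE
    simp at hE
  refine ⟨h1, ?_, h0⟩
  have e : -((E - 1) / (E + 1)) = -1 + 2 / (E + 1) := by
    field_simp
    ring
  rw [e, Complex.add_im, gc_im_div]
  have h3 : 0 < normSq (E + 1) := normSq_pos.2 h1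
  have h4 : (E + 1).im = E.im := by simp
  rw [h4]
  have h5 : 0 < -2 * E.im / normSq (E + 1) := div_pos (by linarith) h3
  simpa using h5

/-- the second point: `W = (E - 1)/(E + 1)`, `0 < Im E` -/
theorem gc_W {E : ℂ} (hE : 0 < E.im) : E + 1 ≠ 0 ∧ 0 < ((E - 1) / (E + 1)).im ∧ E ≠ 0 := by
  have h1 : E + 1 ≠ 0 := by
    intro h
    have h2 := congrArg Complex.im h
    simp at h2
    exact hE.ne' h2
  have h0 : E ≠ 0 := by
    intro h
    rw [h] at hE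
    simp at hE
  refine ⟨h1, ?_, h0⟩
  have e : (E - 1) / (E + 1) = 1 - 2 / (E + 1) := by
    field_simp
    ring
  rw [e, Complex.sub_im, gc_im_div]
  have h3 : 0 < normSq (E + 1) := normSq_pos.2 h1
  have h4 : (E + 1).im = E.im := by simp
  rw [h4]
  have h5 : 0 < 2 * E.im / normSq (E + 1) := div_pos (by linarith) h3
  have h6 : -2 * E.im / normSq (E + 1) = -(2 * E.im / normSq (E + 1)) := by ring
  rw [h6]
  simpa using h5

theorem gc_sin {δ : ℝ} (h0 : 0 < δ) (h1 : δ ≤ 1) : 0 < Real.sin (δ / 2) :=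
  Real.sin_pos_of_pos_of_lt_pi (by linarith) (by linarith [Real.pi_gt_three])

theorem gc_exp_neg {v δ x : ℝ} (h0 : 0 < δ) (h1 : δ ≤ 1) : (cexp ((v : ℂ) - om2 δ x)).im < 0 := by
  rw [Complex.exp_im]
  have e : ((v : ℂ) - om2 δ x).im = -(δ / 2) := by
    unfold om2
    simp
  rw [e, Real.sin_neg]
  have h2 := gc_sin h0 h1
  have h3 := Real.exp_pos ((v : ℂ) - om2 δ x).re
  nlinarith [mul_pos h3 h2]

theorem gc_exp_pos {v δ x : ℝ} (h0 : 0 < δ) (h1 : δ ≤ 1) : 0 < (cexp ((v : ℂ) + om2 δ x)).im := by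
  rw [Complex.exp_im]
  have e : ((v : ℂ) + om2 δ x).im = δ / 2 := by
    unfold om2
    simp
  rw [e]
  exact mul_pos (Real.exp_pos _) (gc_sin h0 h1)

/-- the shift -/
theorem gc_shift {s l0 l1 : ℝ} (hs : 0 < s) (h0 : 0 < l0) (_h1 : 0 < l1)
    (h : l0 * l1 = s ^ 2) : l0 * Real.exp (Real.log (s / l0)) = s ∧
      l1 * Real.exp (-Real.log (s / l0)) = s := by
  rw [Real.exp_neg, Real.exp_log (div_pos hs h0)]
  constructor
  · field_simp
  · rw [inv_div]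
    field_simp
    linarith

theorem gc_s {Q N : ℝ} (hQ : 0 < Q) (hN : 0 < N) :
    1 / (Q * N) = (N ^ (-(1 / 2) : ℝ) * Q ^ (-(1 / 2) : ℝ)) ^ 2 := by
  rw [mul_pow, ← Real.rpow_natCast, ← Real.rpow_natCast, ← Real.rpow_mul hN.le,
    ← Real.rpow_mul hQ.le]
  norm_num
  rw [Real.rpow_neg_one, Real.rpow_neg_one]

/-- GC: the points near the negative axis -/
theorem gmm_pt {w0 w1 : Em K} {ε : Kˣ} {ℓ : ℝ} (hq : QF w0 w1 ε ℓ) {b : HSG.Id K} {Q : ℝ}
    (hQ : 0 < Q) {lam : Kˣ} (hlam : ∀ w : Em K, 0 < w (lam : K))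
    (hprod : w0 (lam : K) * w1 (lam : K) = 1 / (Q * nI b)) :
    ∃ v0 : ℝ, ∀ v δ x : ℝ, 0 < δ → δ ≤ 1 →
      pz w0 v (((nI b ^ (-(1 / 2) : ℝ) : ℝ) : ℂ) *
        (-(((Q ^ (-(1 / 2) : ℝ) : ℝ) : ℂ) * cexp (-om2 δ x)))) =
      gmm lam • (v2 w0 (ofComplex (-hh (((v + v0 : ℝ) : ℂ) - om2 δ x)))
        (ofComplex (hh (((v + v0 : ℝ) : ℂ) + om2 δ x))) : Em K → ℍ) := by
  have hN : 0 < nI b := HSG.nI_pos b
  set s : ℝ := nI b ^ (-(1 / 2) : ℝ) * Q ^ (-(1 / 2) : ℝ) with hs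
  have hs0 : 0 < s := mul_pos (Real.rpow_pos_of_pos hN _) (Real.rpow_pos_of_pos hQ _)
  rw [gc_s hQ hN, ← hs] at hprod
  obtain ⟨e0, e1⟩ := gc_shift hs0 (hlam w0) (hlam w1) hprod
  set v0 : ℝ := Real.log (s / w0 (lam : K)) with hv0
  refine ⟨v0, fun v δ x h0 h1 => ?_⟩
  have hdet : ∀ w : Em K, 0 < w ((gmm lam : Matrix (Fin 2) (Fin 2) K).det) := by
    intro w
    rw [gc_gmm_coe, Matrix.det_fin_two_of]
    have h2 : (lam : K) * 1 - -(lam : K) * 1 = 2 * lam := by ring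
    rw [h2, map_mul, map_ofNat]
    have := hlam w
    positivity
  have hneg : (-cexp (-om2 δ x)).im > 0 := by
    have := gc_exp_neg (v := 0) (δ := δ) (x := x) h0 h1
    rw [Complex.ofReal_zero, zero_sub] at this
    rw [Complex.neg_im]
    linarith
  funext w
  apply UpperHalfPlane.ext
  rw [gc_smul _ _ _ (hdet w)]
  unfold pz
  have hpt : ∀ t : ℝ, ((t : ℝ) : ℂ) * (((nI b ^ (-(1 / 2) : ℝ) : ℝ) : ℂ) *
      (-(((Q ^ (-(1 / 2) : ℝ) : ℝ) : ℂ) * cexp (-om2 δ x)))) =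
      ((t * s : ℝ) : ℂ) * -cexp (-om2 δ x) := by
    intro t
    rw [hs]
    push_cast
    ring
  rw [hpt]
  have him : 0 < (((v2 w0 (Real.exp v) (Real.exp (-v)) w * s : ℝ) : ℂ) * -cexp (-om2 δ x)).im := by
    rw [Complex.im_ofReal_mul]
    refine mul_pos (mul_pos ?_ hs0) hneg
    unfold v2
    split_ifs <;> exact Real.exp_pos _
  rw [ofComplex_apply_of_im_pos him]
  show ((v2 w0 (Real.exp v) (Real.exp (-v)) w * s : ℝ) : ℂ) * -cexp (-om2 δ x) = _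
  rw [gc_gmm_coe]
  simp only [Matrix.of_apply, Matrix.cons_val', Matrix.cons_val_zero, Matrix.cons_val_one,
    Matrix.cons_val_fin_one, map_one, map_neg, Complex.ofReal_one, Complex.ofReal_neg]
  rcases hq.all w with rfl | rfl
  · obtain ⟨g1, g2, g3⟩ := gc_Z (gc_exp_neg (v := v + v0) (δ := δ) (x := x) h0 h1)
    set E : ℂ := cexp (((v + v0 : ℝ) : ℂ) - om2 δ x) with hE
    have hh1 : hh (((v + v0 : ℝ) : ℂ) - om2 δ x) = (E - 1) / (E + 1) := rfl
    unfold v2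
    rw [if_pos rfl, if_pos rfl, hh1, ofComplex_apply_of_im_pos g2]
    show _ = (((w (lam : K) : ℝ) : ℂ) * -((E - 1) / (E + 1)) + -((w (lam : K) : ℝ) : ℂ)) /
      (1 * -((E - 1) / (E + 1)) + 1)
    have e2 : (((w (lam : K) : ℝ) : ℂ) * -((E - 1) / (E + 1)) + -((w (lam : K) : ℝ) : ℂ)) /
      (1 * -((E - 1) / (E + 1)) + 1) = ((w (lam : K) : ℝ) : ℂ) * -E := by
      have h5 : (1 * -((E - 1) / (E + 1)) + 1 : ℂ) = 2 / (E + 1) := by
        field_simp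
        ring
      rw [h5]
      field_simp
      ring
    rw [e2, hE, Complex.ofReal_mul, ← e0, sub_eq_add_neg, Complex.exp_add]
    push_cast
    rw [Complex.exp_add]
    ring
  · obtain ⟨g1, g2, g3⟩ := gc_W (gc_exp_pos (v := v + v0) (δ := δ) (x := x) h0 h1)
    set E : ℂ := cexp (((v + v0 : ℝ) : ℂ) + om2 δ x) with hE
    have hh1 : hh (((v + v0 : ℝ) : ℂ) + om2 δ x) = (E - 1) / (E + 1) := rfl
    unfold v2
    rw [if_neg hq.ne.symm, if_neg hq.ne.symm, hh1, ofComplex_apply_of_im_pos g2]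
    show _ = (((w (lam : K) : ℝ) : ℂ) * ((E - 1) / (E + 1)) + -((w (lam : K) : ℝ) : ℂ)) /
      (1 * ((E - 1) / (E + 1)) + 1)
    have e2 : (((w (lam : K) : ℝ) : ℂ) * ((E - 1) / (E + 1)) + -((w (lam : K) : ℝ) : ℂ)) /
      (1 * ((E - 1) / (E + 1)) + 1) = ((w (lam : K) : ℝ) : ℂ) * -E⁻¹ := by
      have h5 : (1 * ((E - 1) / (E + 1)) + 1 : ℂ) = 2 * E / (E + 1) := by
        field_simp
        ring
      rw [h5]
      field_simp
      ring
    rw [e2, hE, ← Complex.exp_neg, Complex.ofReal_mul, ← e1, neg_add, Complex.exp_add]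
    push_cast
    rw [neg_add, Complex.exp_add]
    ring

/-- GD: the points near the positive axis -/
theorem gpp_pt_pr {w0 w1 : Em K} {ε : Kˣ} {ℓ : ℝ} (hq : QF w0 w1 ε ℓ) {b : HSG.Id K} {Q : ℝ}
    (hQ : 0 < Q) {lam : Kˣ} (hlam : ∀ w : Em K, 0 < w (lam : K))
    (hprod : w0 (lam : K) * w1 (lam : K) = 1 / (Q * nI b)) :
    ∃ v0 : ℝ, ∀ v δ x : ℝ, 0 < δ → δ ≤ 1 →
      pz w0 v (((nI b ^ (-(1 / 2) : ℝ) : ℝ) : ℂ) *
        (((Q ^ (-(1 / 2) : ℝ) : ℝ) : ℂ) * cexp (om2 δ x))) =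
      gpp lam • (v2 w0 (ofComplex (-hh (((-(v + v0) : ℝ) : ℂ) - om2 δ x)))
        (ofComplex (hh (((-(v + v0) : ℝ) : ℂ) + om2 δ x))) : Em K → ℍ) := by
  have hN : 0 < nI b := HSG.nI_pos b
  set s : ℝ := nI b ^ (-(1 / 2) : ℝ) * Q ^ (-(1 / 2) : ℝ) with hs
  have hs0 : 0 < s := mul_pos (Real.rpow_pos_of_pos hN _) (Real.rpow_pos_of_pos hQ _)
  rw [gc_s hQ hN, ← hs] at hprod
  obtain ⟨e0, e1⟩ := gc_shift hs0 (hlam w0) (hlam w1) hprod
  set v0 : ℝ := Real.log (s / w0 (lam : K)) with hv0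
  refine ⟨v0, fun v δ x h0 h1 => ?_⟩
  have hdet : ∀ w : Em K, 0 < w ((gpp lam : Matrix (Fin 2) (Fin 2) K).det) := by
    intro w
    rw [gc_gpp_coe, Matrix.det_fin_two_of]
    have h2 : (lam : K) * 1 - (lam : K) * -1 = 2 * lam := by ring
    rw [h2, map_mul, map_ofNat]
    have := hlam w
    positivity
  have hpos : 0 < (cexp (om2 δ x)).im := by
    have := gc_exp_pos (v := 0) (δ := δ) (x := x) h0 h1
    rwa [Complex.ofReal_zero, zero_add] at this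
  funext w
  apply UpperHalfPlane.ext
  rw [gc_smul _ _ _ (hdet w)]
  unfold pz
  have hpt : ∀ t : ℝ, ((t : ℝ) : ℂ) * (((nI b ^ (-(1 / 2) : ℝ) : ℝ) : ℂ) *
      (((Q ^ (-(1 / 2) : ℝ) : ℝ) : ℂ) * cexp (om2 δ x))) =
      ((t * s : ℝ) : ℂ) * cexp (om2 δ x) := by
    intro t
    rw [hs]
    push_cast
    ring
  rw [hpt]
  have him : 0 < (((v2 w0 (Real.exp v) (Real.exp (-v)) w * s : ℝ) : ℂ) * cexp (om2 δ x)).im := by
    rw [Complex.im_ofReal_mul]
    refine mul_pos (mul_pos ?_ hs0) hpos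
    unfold v2
    split_ifs <;> exact Real.exp_pos _
  rw [ofComplex_apply_of_im_pos him]
  show ((v2 w0 (Real.exp v) (Real.exp (-v)) w * s : ℝ) : ℂ) * cexp (om2 δ x) = _
  rw [gc_gpp_coe]
  simp only [Matrix.of_apply, Matrix.cons_val', Matrix.cons_val_zero, Matrix.cons_val_one,
    Matrix.cons_val_fin_one, map_one, map_neg, Complex.ofReal_one, Complex.ofReal_neg]
  rcases hq.all w with rfl | rfl
  · obtain ⟨g1, g2, g3⟩ := gc_Z (gc_exp_neg (v := -(v + v0)) (δ := δ) (x := x) h0 h1)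
    set E : ℂ := cexp (((-(v + v0) : ℝ) : ℂ) - om2 δ x) with hE
    have hh1 : hh (((-(v + v0) : ℝ) : ℂ) - om2 δ x) = (E - 1) / (E + 1) := rfl
    unfold v2
    rw [if_pos rfl, if_pos rfl]
    have e3 : (-(((v + v0 : ℝ) : ℂ)) - om2 δ x) = (((-(v + v0) : ℝ) : ℂ) - om2 δ x) := by
      push_cast; ring
    rw [e3, hh1, ofComplex_apply_of_im_pos g2]
    show _ = (((w (lam : K) : ℝ) : ℂ) * -((E - 1) / (E + 1)) + ((w (lam : K) : ℝ) : ℂ)) /
      (-1 * -((E - 1) / (E + 1)) + 1)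
    have e2 : (((w (lam : K) : ℝ) : ℂ) * -((E - 1) / (E + 1)) + ((w (lam : K) : ℝ) : ℂ)) /
      (-1 * -((E - 1) / (E + 1)) + 1) = ((w (lam : K) : ℝ) : ℂ) * E⁻¹ := by
      have h5 : (-1 * -((E - 1) / (E + 1)) + 1 : ℂ) = 2 * E / (E + 1) := by
        field_simp
        ring
      rw [h5]
      field_simp
      ring
    rw [e2, hE, ← Complex.exp_neg, Complex.ofReal_mul, ← e0, neg_sub, sub_eq_add_neg,
      Complex.exp_add]
    push_cast
    rw [neg_neg, Complex.exp_add]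
    ring
  · obtain ⟨g1, g2, g3⟩ := gc_W (gc_exp_pos (v := -(v + v0)) (δ := δ) (x := x) h0 h1)
    set E : ℂ := cexp (((-(v + v0) : ℝ) : ℂ) + om2 δ x) with hE
    have hh1 : hh (((-(v + v0) : ℝ) : ℂ) + om2 δ x) = (E - 1) / (E + 1) := rfl
    unfold v2
    rw [if_neg hq.ne.symm, if_neg hq.ne.symm]
    have e3 : (-(((v + v0 : ℝ) : ℂ)) + om2 δ x) = (((-(v + v0) : ℝ) : ℂ) + om2 δ x) := by
      push_cast; ring
    rw [e3, hh1, ofComplex_apply_of_im_pos g2]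
    show _ = (((w (lam : K) : ℝ) : ℂ) * ((E - 1) / (E + 1)) + ((w (lam : K) : ℝ) : ℂ)) /
      (-1 * ((E - 1) / (E + 1)) + 1)
    have e2 : (((w (lam : K) : ℝ) : ℂ) * ((E - 1) / (E + 1)) + ((w (lam : K) : ℝ) : ℂ)) /
      (-1 * ((E - 1) / (E + 1)) + 1) = ((w (lam : K) : ℝ) : ℂ) * E := by
      have h5 : (-1 * ((E - 1) / (E + 1)) + 1 : ℂ) = 2 / (E + 1) := by
        field_simp
        ring
      rw [h5]
      field_simp
      ring
    rw [e2, hE, Complex.ofReal_mul, ← e1, Complex.exp_add]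
    push_cast
    rw [neg_add, Complex.exp_add]
    ring


end Pool.Agent.HL4
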