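import Pool.Agent.Lib_helper68.HL4.Defs3
import Pool.Agent.Lib_helper68.HL4F.CA
import Pool.Agent.Lib_helper68.HL4F.CC
/-!
# HL4, block GE: the weights
-/

set_option autoImplicit false

namespace Pool.Agent.HL4

open UpperHalfPlane hiding I
open Complex MeasureTheory Filter Topology NumberField
open Pool.Agent.HSG (Em Lat IsInt nI NCl dgm lz)
open Pool.Agent.HSG.N (Prim LForm QF v2 HK LamH GG Gb pz)
open scoped nonZeroDivisors MatrixGroups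

/-- difference of powers -/
theorem ge_pow {A B : ℂ} {D : ℝ} (hA : ‖A‖ ≤ D) (hB : ‖B‖ ≤ D) (hD : 1 ≤ D) (n : ℕ) :
    ‖A ^ n - B ^ n‖ ≤ n * D ^ n * ‖A - B‖ := by
  induction n with
  | zero => simp
  | succ n ih =>
    have e : A ^ (n + 1) - B ^ (n + 1) = A * (A ^ n - B ^ n) + (A - B) * B ^ n := by ring
    have hBn : ‖B ^ n‖ ≤ D ^ n := by rw [norm_pow]; exact pow_le_pow_left₀ (norm_nonneg _) hB n
    have hDn : D ^ n ≤ D ^ (n + 1) := pow_le_pow_right₀ hD (Nat.le_succ n)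
    have h0 : 0 ≤ ‖A - B‖ := norm_nonneg _
    calc ‖A ^ (n + 1) - B ^ (n + 1)‖ ≤ ‖A * (A ^ n - B ^ n)‖ + ‖(A - B) * B ^ n‖ := by
          rw [e]; exact norm_add_le _ _
      _ = ‖A‖ * ‖A ^ n - B ^ n‖ + ‖A - B‖ * ‖B ^ n‖ := by rw [norm_mul, norm_mul]
      _ ≤ D * (n * D ^ n * ‖A - B‖) + ‖A - B‖ * D ^ n := by gcongr
      _ ≤ D * (n * D ^ n * ‖A - B‖) + ‖A - B‖ * D ^ (n + 1) := by gcongr
      _ = ((n + 1 : ℕ) : ℝ) * D ^ (n + 1) * ‖A - B‖ := by push_cast; ring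

/-- difference of products of powers -/
theorem ge_prod {A B A0 B0 : ℂ} {D : ℝ} (hA : ‖A‖ ≤ D) (hB : ‖B‖ ≤ D) (hA0 : ‖A0‖ ≤ D)
    (hB0 : ‖B0‖ ≤ D) (hD : 1 ≤ D) (m n : ℕ) {t : ℝ} (h1 : ‖A - A0‖ ≤ t) (h2 : ‖B - B0‖ ≤ t) :
    ‖A ^ m * B ^ n - A0 ^ m * B0 ^ n‖ ≤ (m + n) * D ^ (m + n) * t := by
  have e : A ^ m * B ^ n - A0 ^ m * B0 ^ n =
      (A ^ m - A0 ^ m) * B ^ n + A0 ^ m * (B ^ n - B0 ^ n) := by ring
  have hBn : ‖B ^ n‖ ≤ D ^ n := by rw [norm_pow]; exact pow_le_pow_left₀ (norm_nonneg _) hB n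
  have hAm : ‖A0 ^ m‖ ≤ D ^ m := by rw [norm_pow]; exact pow_le_pow_left₀ (norm_nonneg _) hA0 m
  have i1 := ge_pow hA hA0 hD m
  have i2 := ge_pow hB hB0 hD n
  have hD0 : 0 ≤ D := by linarith
  calc ‖A ^ m * B ^ n - A0 ^ m * B0 ^ n‖ ≤ ‖(A ^ m - A0 ^ m) * B ^ n‖ +
        ‖A0 ^ m * (B ^ n - B0 ^ n)‖ := by rw [e]; exact norm_add_le _ _
    _ = ‖A ^ m - A0 ^ m‖ * ‖B ^ n‖ + ‖A0 ^ m‖ * ‖B ^ n - B0 ^ n‖ := by rw [norm_mul, norm_mul]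
    _ ≤ (m * D ^ m * ‖A - A0‖) * D ^ n + D ^ m * (n * D ^ n * ‖B - B0‖) := by gcongr
    _ ≤ (m * D ^ m * t) * D ^ n + D ^ m * (n * D ^ n * t) := by gcongr
    _ = _ := by rw [pow_add]; ring

theorem ge_hr_bd (v : ℝ) : |hr v| ≤ 1 := by
  unfold hr
  have hx : 0 < Real.exp v := Real.exp_pos v
  rw [abs_div, abs_of_pos (by linarith : 0 < Real.exp v + 1), div_le_one (by linarith), abs_le]
  constructor <;> linarith

/-- the approximation of `h` -/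
theorem ge_h (V : ℝ) : ∃ C : ℝ, 0 < C ∧ ∀ v δ x : ℝ, |v| ≤ V → 0 < δ → δ ≤ 1 → |x| ≤ 1 →
    ‖hh (v + om2 δ x) - (hr v : ℂ)‖ ≤ C * (δ + |x|) ∧
    ‖hh (v - om2 δ x) - (hr v : ℂ)‖ ≤ C * (δ + |x|) := by
  obtain ⟨C, hC, h⟩ := hh_taylor V
  obtain ⟨-, -, -, hp, -, -⟩ := hr_facts
  refine ⟨2 * C + 1, by positivity, ?_⟩
  intro v δ x hv hδ hδ1 hx
  obtain ⟨h1, h2⟩ := h v δ x hv hδ hδ1 hx
  have hx0 : 0 ≤ |x| := abs_nonneg x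
  have hom : ‖(hd v : ℂ) * om2 δ x‖ ≤ δ + |x| := by
    rw [norm_mul, Complex.norm_real, Real.norm_of_nonneg (hp v).1.le]
    have h3 : ‖om2 δ x‖ ≤ (δ + |x|) / 2 := by
      unfold om2
      rw [norm_div]
      have : ‖(2 : ℂ)‖ = 2 := by norm_num
      rw [this]
      have h4 : ‖(x : ℂ) + δ * I‖ ≤ |x| + δ := by
        calc ‖(x : ℂ) + δ * I‖ ≤ ‖(x : ℂ)‖ + ‖(δ : ℂ) * I‖ := norm_add_le _ _
          _ = |x| + δ := by
            rw [norm_mul, Complex.norm_I, mul_one, Complex.norm_real, Complex.norm_real,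
              Real.norm_eq_abs, Real.norm_of_nonneg hδ.le]
      linarith
    calc hd v * ‖om2 δ x‖ ≤ 1 / 2 * ((δ + |x|) / 2) := by
          have := (hp v).2
          have h0 := (hp v).1
          gcongr
      _ ≤ δ + |x| := by linarith
  have hsq : (δ + |x|) ^ 2 ≤ 2 * (δ + |x|) := by
    have : 0 ≤ δ + |x| := by positivity
    nlinarith
  constructor
  · calc ‖hh (v + om2 δ x) - (hr v : ℂ)‖
        = ‖(hh (v + om2 δ x) - ((hr v : ℂ) + hd v * om2 δ x)) + hd v * om2 δ x‖ := by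
          congr 1; ring
      _ ≤ C * (δ + |x|) ^ 2 + (δ + |x|) := (norm_add_le _ _).trans (add_le_add h1 hom)
      _ ≤ C * (2 * (δ + |x|)) + (δ + |x|) := by gcongr
      _ = _ := by ring
  · calc ‖hh (v - om2 δ x) - (hr v : ℂ)‖
        = ‖(hh (v - om2 δ x) - ((hr v : ℂ) - hd v * om2 δ x)) - hd v * om2 δ x‖ := by
          congr 1; ring
      _ ≤ C * (δ + |x|) ^ 2 + (δ + |x|) := (norm_sub_le _ _).trans (add_le_add h2 hom)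
      _ ≤ C * (2 * (δ + |x|)) + (δ + |x|) := by gcongr
      _ = _ := by ring

/-- the weight identity on the real line, first half -/
theorem ge_id1 (k0 k1 : ℕ) (v : ℝ) :
    (1 - hr v) ^ k0 * (1 + hr v) ^ k1 * Real.exp (((k0 : ℝ) - k1) / 2 * v) =
      (2 * hd v) ^ kk k0 k1 := by
  have hx : 0 < Real.exp v := Real.exp_pos v
  have hx1 : 0 < Real.exp v + 1 := by linarith
  have e1 : 1 - hr v = 2 / (Real.exp v + 1) := by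
    unfold hr; field_simp; ring
  have e2 : 1 + hr v = 2 / (Real.exp v + 1) * Real.exp v := by
    unfold hr; field_simp; ring
  have e3 : 2 * hd v = (2 / (Real.exp v + 1)) ^ 2 * Real.exp v := by
    unfold hd; field_simp
  have h0 : 0 < 2 / (Real.exp v + 1) := by positivity
  rw [e1, e2, e3, Real.mul_rpow (by positivity) hx.le, ← Real.rpow_natCast _ 2,
    ← Real.rpow_mul h0.le, ← Real.exp_mul, mul_pow, ← Real.exp_nat_mul]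
  have e4 : ((2 : ℕ) : ℝ) * kk k0 k1 = ((k0 + k1 : ℕ) : ℝ) := by
    unfold kk; push_cast; ring
  rw [e4, Real.rpow_natCast, pow_add]
  have e5 : Real.exp (v * kk k0 k1) = Real.exp (k1 * v) * Real.exp (((k0 : ℝ) - k1) / 2 * v) := by
    rw [← Real.exp_add]
    congr 1
    unfold kk; ring
  rw [e5]
  ring

theorem ge_id2 (k0 k1 : ℕ) (v : ℝ) :
    (1 + hr v) ^ k0 * (1 - hr v) ^ k1 * Real.exp (-(((k0 : ℝ) - k1) / 2 * v)) =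
      (2 * hd v) ^ kk k0 k1 := by
  have := ge_id1 k1 k0 v
  have e : kk k1 k0 = kk k0 k1 := by unfold kk; ring
  rw [e] at this
  rw [← this]
  have e2 : -(((k0 : ℝ) - k1) / 2 * v) = ((k1 : ℝ) - k0) / 2 * v := by ring
  rw [e2]
  ring

theorem ge_cpow (k0 k1 : ℕ) (v : ℝ) : ((2 * hd v : ℝ) : ℂ) ^ (kk k0 k1 : ℂ) =
    (((2 * hd v) ^ kk k0 k1 : ℝ) : ℂ) := by
  obtain ⟨-, -, -, hp, -, -⟩ := hr_facts
  rw [Complex.ofReal_cpow (by have := (hp v).1; positivity)]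

theorem wt_est (k0 k1 : ℕ) (ν : ℝ) (V : ℝ) : ∃ C : ℝ, 0 < C ∧ ∀ v δ x : ℝ, |v| ≤ V → 0 < δ →
    δ ≤ 1 → |x| ≤ 1 →
    ‖(1 + -hh (v - om2 δ x)) ^ k0 * (1 + hh (v + om2 δ x)) ^ k1 *
        cexp ((((k0 : ℂ) - k1) / 2 + ν * I) * v) -
      cexp (ν * I * v) * ((2 * hd v : ℝ) : ℂ) ^ (kk k0 k1 : ℂ)‖ ≤ C * (δ + |x|) ∧
    ‖(1 - -hh (v - om2 δ x)) ^ k0 * (1 - hh (v + om2 δ x)) ^ k1 *
        cexp (-(((k0 : ℂ) - k1) / 2 + ν * I) * v) -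
      cexp (-(ν * I) * v) * ((2 * hd v : ℝ) : ℂ) ^ (kk k0 k1 : ℂ)‖ ≤ C * (δ + |x|) := by
  obtain ⟨C, hC, hh1⟩ := ge_h V
  set D : ℝ := 2 + 2 * C with hD
  set E : ℝ := Real.exp (|((k0 : ℝ) - k1) / 2| * |V|) with hE
  refine ⟨(k0 + k1) * D ^ (k0 + k1) * C * E + 1, by positivity, ?_⟩
  intro v δ x hv hδ hδ1 hx
  obtain ⟨h1, h2⟩ := hh1 v δ x hv hδ hδ1 hx
  have hx0 : 0 ≤ |x| := abs_nonneg x
  have ht : C * (δ + |x|) ≤ 2 * C := by nlinarith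
  have hr1 := ge_hr_bd v
  have hrn : ‖(hr v : ℂ)‖ ≤ 1 := by rw [Complex.norm_real, Real.norm_eq_abs]; exact hr1
  have hn1 : ‖(1 : ℂ)‖ = 1 := norm_one
  -- the four bases
  have bA : ‖(1 : ℂ) - hh (v - om2 δ x)‖ ≤ D := by
    calc ‖(1 : ℂ) - hh (v - om2 δ x)‖ = ‖(1 : ℂ) - (hr v : ℂ) - (hh (v - om2 δ x) - (hr v : ℂ))‖ := by
          congr 1; ring
      _ ≤ ‖(1 : ℂ)‖ + ‖(hr v : ℂ)‖ + ‖hh (v - om2 δ x) - (hr v : ℂ)‖ :=
          (norm_sub_le _ _).trans (add_le_add (norm_sub_le _ _) le_rfl)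
      _ ≤ D := by rw [hn1]; linarith
  have bA' : ‖(1 : ℂ) + hh (v - om2 δ x)‖ ≤ D := by
    calc ‖(1 : ℂ) + hh (v - om2 δ x)‖ = ‖(1 : ℂ) + (hr v : ℂ) + (hh (v - om2 δ x) - (hr v : ℂ))‖ := by
          congr 1; ring
      _ ≤ ‖(1 : ℂ)‖ + ‖(hr v : ℂ)‖ + ‖hh (v - om2 δ x) - (hr v : ℂ)‖ :=
          (norm_add_le _ _).trans (add_le_add (norm_add_le _ _) le_rfl)
      _ ≤ D := by rw [hn1]; linarith
  have bB : ‖(1 : ℂ) + hh (v + om2 δ x)‖ ≤ D := by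
    calc ‖(1 : ℂ) + hh (v + om2 δ x)‖ = ‖(1 : ℂ) + (hr v : ℂ) + (hh (v + om2 δ x) - (hr v : ℂ))‖ := by
          congr 1; ring
      _ ≤ ‖(1 : ℂ)‖ + ‖(hr v : ℂ)‖ + ‖hh (v + om2 δ x) - (hr v : ℂ)‖ :=
          (norm_add_le _ _).trans (add_le_add (norm_add_le _ _) le_rfl)
      _ ≤ D := by rw [hn1]; linarith
  have bB' : ‖(1 : ℂ) - hh (v + om2 δ x)‖ ≤ D := by
    calc ‖(1 : ℂ) - hh (v + om2 δ x)‖ = ‖(1 : ℂ) - (hr v : ℂ) - (hh (v + om2 δ x) - (hr v : ℂ))‖ := by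
          congr 1; ring
      _ ≤ ‖(1 : ℂ)‖ + ‖(hr v : ℂ)‖ + ‖hh (v + om2 δ x) - (hr v : ℂ)‖ :=
          (norm_sub_le _ _).trans (add_le_add (norm_sub_le _ _) le_rfl)
      _ ≤ D := by rw [hn1]; linarith
  have cm : ‖(1 : ℂ) - (hr v : ℂ)‖ ≤ D := by
    calc ‖(1 : ℂ) - (hr v : ℂ)‖ ≤ ‖(1 : ℂ)‖ + ‖(hr v : ℂ)‖ := norm_sub_le _ _
      _ ≤ D := by rw [hn1]; linarith
  have cp : ‖(1 : ℂ) + (hr v : ℂ)‖ ≤ D := by
    calc ‖(1 : ℂ) + (hr v : ℂ)‖ ≤ ‖(1 : ℂ)‖ + ‖(hr v : ℂ)‖ := norm_add_le _ _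
      _ ≤ D := by rw [hn1]; linarith
  have hD1 : 1 ≤ D := by linarith
  -- the differences
  have dA : ‖((1 : ℂ) - hh (v - om2 δ x)) - (1 - (hr v : ℂ))‖ ≤ C * (δ + |x|) := by
    rw [show ((1 : ℂ) - hh (v - om2 δ x)) - (1 - (hr v : ℂ)) = -(hh (v - om2 δ x) - (hr v : ℂ)) by
      ring, norm_neg]
    exact h2
  have dA' : ‖((1 : ℂ) + hh (v - om2 δ x)) - (1 + (hr v : ℂ))‖ ≤ C * (δ + |x|) := by
    rw [show ((1 : ℂ) + hh (v - om2 δ x)) - (1 + (hr v : ℂ)) = (hh (v - om2 δ x) - (hr v : ℂ)) by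
      ring]
    exact h2
  have dB : ‖((1 : ℂ) + hh (v + om2 δ x)) - (1 + (hr v : ℂ))‖ ≤ C * (δ + |x|) := by
    rw [show ((1 : ℂ) + hh (v + om2 δ x)) - (1 + (hr v : ℂ)) = (hh (v + om2 δ x) - (hr v : ℂ)) by
      ring]
    exact h1
  have dB' : ‖((1 : ℂ) - hh (v + om2 δ x)) - (1 - (hr v : ℂ))‖ ≤ C * (δ + |x|) := by
    rw [show ((1 : ℂ) - hh (v + om2 δ x)) - (1 - (hr v : ℂ)) = -(hh (v + om2 δ x) - (hr v : ℂ)) by
      ring, norm_neg]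
    exact h1
  have p1 := ge_prod bA bB cm cp hD1 k0 k1 dA dB
  have p2 := ge_prod bA' bB' cp cm hD1 k0 k1 dA' dB'
  -- the exponential factors
  have hvV : |v| ≤ |V| := hv.trans (le_abs_self V)
  have hE1 : Real.exp (((k0 : ℝ) - k1) / 2 * v) ≤ E := by
    rw [hE]
    apply Real.exp_le_exp.2
    calc ((k0 : ℝ) - k1) / 2 * v ≤ |((k0 : ℝ) - k1) / 2 * v| := le_abs_self _
      _ = |((k0 : ℝ) - k1) / 2| * |v| := abs_mul _ _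
      _ ≤ _ := by gcongr
  have hE2 : Real.exp (-(((k0 : ℝ) - k1) / 2 * v)) ≤ E := by
    rw [hE]
    apply Real.exp_le_exp.2
    calc -(((k0 : ℝ) - k1) / 2 * v) ≤ |((k0 : ℝ) - k1) / 2 * v| := neg_le_abs _
      _ = |((k0 : ℝ) - k1) / 2| * |v| := abs_mul _ _
      _ ≤ _ := by gcongr
  have x1 : cexp ((((k0 : ℂ) - k1) / 2 + ν * I) * v) =
      cexp (ν * I * v) * ((Real.exp (((k0 : ℝ) - k1) / 2 * v) : ℝ) : ℂ) := by
    rw [Complex.ofReal_exp, ← Complex.exp_add]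
    congr 1
    push_cast
    ring
  have x2 : cexp (-(((k0 : ℂ) - k1) / 2 + ν * I) * v) =
      cexp (-(ν * I) * v) * ((Real.exp (-(((k0 : ℝ) - k1) / 2 * v)) : ℝ) : ℂ) := by
    rw [Complex.ofReal_exp, ← Complex.exp_add]
    congr 1
    push_cast
    ring
  have n1 : ‖cexp (ν * I * v)‖ = 1 := by
    rw [Complex.norm_exp]
    have : ((ν : ℂ) * I * v).re = 0 := by simp
    rw [this, Real.exp_zero]
  have n2 : ‖cexp (-(ν * I) * v)‖ = 1 := by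
    rw [Complex.norm_exp]
    have : (-((ν : ℂ) * I) * v).re = 0 := by simp
    rw [this, Real.exp_zero]
  have i1 : ((1 : ℂ) - (hr v : ℂ)) ^ k0 * (1 + (hr v : ℂ)) ^ k1 *
      ((Real.exp (((k0 : ℝ) - k1) / 2 * v) : ℝ) : ℂ) = ((2 * hd v : ℝ) : ℂ) ^ (kk k0 k1 : ℂ) := by
    rw [ge_cpow, ← ge_id1]
    push_cast
    ring
  have i2 : ((1 : ℂ) + (hr v : ℂ)) ^ k0 * (1 - (hr v : ℂ)) ^ k1 *
      ((Real.exp (-(((k0 : ℝ) - k1) / 2 * v)) : ℝ) : ℂ) = ((2 * hd v : ℝ) : ℂ) ^ (kk k0 k1 : ℂ) := by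
    rw [ge_cpow, ← ge_id2]
    push_cast
    ring
  have hfin : ∀ T : ℝ, T ≤ (k0 + k1) * D ^ (k0 + k1) * (C * (δ + |x|)) * E →
      T ≤ ((k0 + k1) * D ^ (k0 + k1) * C * E + 1) * (δ + |x|) := by
    intro T hT
    have h0 : 0 ≤ δ + |x| := by positivity
    calc T ≤ (k0 + k1) * D ^ (k0 + k1) * (C * (δ + |x|)) * E := hT
      _ = ((k0 + k1) * D ^ (k0 + k1) * C * E) * (δ + |x|) := by ring
      _ ≤ ((k0 + k1) * D ^ (k0 + k1) * C * E + 1) * (δ + |x|) := by gcongr; linarith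
  constructor
  · apply hfin
    rw [x1, ← i1]
    have e : (1 + -hh (v - om2 δ x)) ^ k0 * (1 + hh (v + om2 δ x)) ^ k1 *
          (cexp (ν * I * v) * ((Real.exp (((k0 : ℝ) - k1) / 2 * v) : ℝ) : ℂ)) -
        cexp (ν * I * v) * (((1 : ℂ) - (hr v : ℂ)) ^ k0 * (1 + (hr v : ℂ)) ^ k1 *
          ((Real.exp (((k0 : ℝ) - k1) / 2 * v) : ℝ) : ℂ)) =
        ((1 - hh (v - om2 δ x)) ^ k0 * (1 + hh (v + om2 δ x)) ^ k1 -
          (1 - (hr v : ℂ)) ^ k0 * (1 + (hr v : ℂ)) ^ k1) * cexp (ν * I * v) *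
          ((Real.exp (((k0 : ℝ) - k1) / 2 * v) : ℝ) : ℂ) := by
      rw [← sub_eq_add_neg]
      ring
    rw [e, norm_mul, norm_mul, n1, mul_one, Complex.norm_real, Real.norm_of_nonneg (Real.exp_pos _).le]
    have h0 := norm_nonneg ((1 - hh (v - om2 δ x)) ^ k0 * (1 + hh (v + om2 δ x)) ^ k1 -
          (1 - (hr v : ℂ)) ^ k0 * (1 + (hr v : ℂ)) ^ k1)
    exact mul_le_mul p1 hE1 (Real.exp_pos _).le (h0.trans p1)
  · apply hfin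
    rw [x2, ← i2]
    have e : (1 - -hh (v - om2 δ x)) ^ k0 * (1 - hh (v + om2 δ x)) ^ k1 *
          (cexp (-(ν * I) * v) * ((Real.exp (-(((k0 : ℝ) - k1) / 2 * v)) : ℝ) : ℂ)) -
        cexp (-(ν * I) * v) * (((1 : ℂ) + (hr v : ℂ)) ^ k0 * (1 - (hr v : ℂ)) ^ k1 *
          ((Real.exp (-(((k0 : ℝ) - k1) / 2 * v)) : ℝ) : ℂ)) =
        ((1 + hh (v - om2 δ x)) ^ k0 * (1 - hh (v + om2 δ x)) ^ k1 -
          (1 + (hr v : ℂ)) ^ k0 * (1 - (hr v : ℂ)) ^ k1) * cexp (-(ν * I) * v) *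
          ((Real.exp (-(((k0 : ℝ) - k1) / 2 * v)) : ℝ) : ℂ) := by
      rw [sub_neg_eq_add]
      ring
    rw [e, norm_mul, norm_mul, n2, mul_one, Complex.norm_real, Real.norm_of_nonneg (Real.exp_pos _).le]
    have h0 := norm_nonneg ((1 + hh (v - om2 δ x)) ^ k0 * (1 - hh (v + om2 δ x)) ^ k1 -
          (1 + (hr v : ℂ)) ^ k0 * (1 - (hr v : ℂ)) ^ k1)
    exact mul_le_mul p2 hE2 (Real.exp_pos _).le (h0.trans p2)


end Pool.Agent.HL4
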