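import Pool.Agent.Lib_helper68.HL4.Defs3
import Pool.Agent.Lib_helper84.HSGF.GA3
import Pool.Agent.Lib_helper84.HSGF.GD1
import Pool.Agent.Lib_helper98.HNF.A4b
/-!
# HL4, block GF
-/

namespace Pool.Agent.HL4

open UpperHalfPlane hiding I
open Complex MeasureTheory Filter Topology NumberField
open Pool.Agent.HSG (Em Lat IsInt nI NCl dgm lz)
open Pool.Agent.HSG.N (Prim LForm QF v2 HK LamH GG Gb pz)
open scoped nonZeroDivisors MatrixGroups

variable {K : Type} [Field K] [NumberField K]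

/-- GF -/
theorem lam_exists [IsTotallyReal K] {w0 w1 : Em K} {ε : Kˣ} {ℓ : ℝ} (hq : QF w0 w1 ε ℓ)
    {n : HSG.Id K} (hA : ∃ m : HSG.Id K, nI n = nI m ^ 2)
    (hB : ∀ b : HSG.Id K, ∃ x : K, nI b = ((Algebra.norm ℚ x : ℚ) : ℝ)) (b : HSG.Id K) :
    ∃ lam : Kˣ, (∀ w : Em K, 0 < w (lam : K)) ∧
      w0 (lam : K) * w1 (lam : K) = 1 / (√(nI n) * nI b) := by
  obtain ⟨m, hm⟩ := hA
  obtain ⟨x, hx⟩ := hB (m * b)
  have hm0 := HSG.nI_pos m
  have hb0 := HSG.nI_pos b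
  rw [hm, Real.sqrt_sq hm0.le]
  rw [HSG.nI_mul, HSG.gd1_norm, HSG.N.qf_prod hq] at hx
  have hpos : 0 < w0 x * w1 x := by rw [← hx]; positivity
  obtain ⟨y, hy0, hy1, hy⟩ : ∃ y : K, 0 < w0 y ∧ 0 < w1 y ∧ w0 y * w1 y = nI m * nI b := by
    rcases pos_and_pos_or_neg_and_neg_of_mul_pos hpos with ⟨h0, h1⟩ | ⟨h0, h1⟩
    · exact ⟨x, h0, h1, hx.symm⟩
    · refine ⟨-x, ?_, ?_, ?_⟩
      · rw [map_neg]; linarith
      · rw [map_neg]; linarith
      · rw [map_neg, map_neg, neg_mul_neg]; exact hx.symm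
  have hyne : y ≠ 0 := by
    rintro rfl
    rw [map_zero] at hy0
    exact lt_irrefl _ hy0
  refine ⟨(Units.mk0 y hyne)⁻¹, fun w => ?_, ?_⟩
  · rw [Units.val_inv_eq_inv_val, Units.val_mk0, map_inv₀]
    rcases hq.all w with rfl | rfl
    · exact inv_pos.2 hy0
    · exact inv_pos.2 hy1
  · rw [Units.val_inv_eq_inv_val, Units.val_mk0, map_inv₀, map_inv₀, ← hy, one_div, mul_inv]

end Pool.Agent.HL4

section
end
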