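import Pool.Agent.Lib_helper68.HL4.Defs3
import Pool.Agent.Lib_helper68.HL4F.CB
import Pool.Agent.Lib_helper68.HL4F.CD
import Pool.Agent.Lib_helper68.HL4F.GA
import Pool.Agent.Lib_helper68.HL4F.GB
import Pool.Agent.Lib_helper68.HL4F.GC
import Pool.Agent.Lib_helper68.HL4F.GE
import Pool.Agent.Lib_helper98.HNF.A2
import Pool.Agent.Lib_helper98.HNF.H2
/-!
# HL4, block GG: one class, negative axis
-/

namespace Pool.Agent.HL4

open UpperHalfPlane hiding I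
open Complex MeasureTheory Filter Topology NumberField
open Pool.Agent.HSG (Em Lat IsInt nI NCl dgm lz)
open Pool.Agent.HSG.N (Prim LForm QF v2 HK LamH GG Gb pz)
open scoped nonZeroDivisors MatrixGroups

variable {K : Type} [Field K] [NumberField K]

theorem gg_coe {z : ℂ} (h : 0 < z.im) : ((ofComplex z : ℍ) : ℂ) = z := by
  rw [ofComplex_apply_of_im_pos h]

theorem gg_lip (ν : ℝ) (v v' : ℝ) :
    ‖cexp (ν * I * v) - cexp (ν * I * v')‖ ≤ |ν| * |v - v'| := by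
  have h1 : cexp (ν * I * v) - cexp (ν * I * v') =
      cexp (ν * I * v') * (cexp (I * ((ν * (v - v') : ℝ) : ℂ)) - 1) := by
    rw [mul_sub, mul_one, ← Complex.exp_add]
    congr 2
    push_cast
    ring
  have h2 : ‖cexp (ν * I * v')‖ = 1 := by
    have : (ν * I * v' : ℂ) = ((ν * v' : ℝ) : ℂ) * I := by push_cast; ring
    rw [this, Complex.norm_exp_ofReal_mul_I]
  rw [h1, norm_mul, h2, one_mul, ← abs_mul]
  exact Real.norm_exp_I_mul_ofReal_sub_one_le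

/-- GG: one class, negative axis -/
theorem gb_as [IsTotallyReal K] {w0 w1 : Em K} {ε : Kˣ} {ℓ : ℝ}
    (hq : QF w0 w1 ε ℓ) {n : HSG.Id K} (hn : IsInt n) {k : Em K → ℕ} (hk : ∀ w, 1 ≤ k w)
    {μ : Em K → ℝ} {om : HSG.Id K → ℂ}
    {F : (Em K → ℍ) → Lat K → (Fin 2 → K) → ℂ} (hF : LForm n k μ om F) {b : HSG.Id K} {Q : ℝ}
    (hQ : 0 < Q) {lam : Kˣ} (hlam : ∀ w : Em K, 0 < w (lam : K))
    (hprod : w0 (lam : K) * w1 (lam : K) = 1 / (Q * nI b)) :
    ∃ (c : ℂ) (C : ℝ), ∀ δ x : ℝ, 0 < δ → δ ≤ 1 → |x| ≤ 1 →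
      ‖Gb w0 w1 ℓ k μ F b (-(((Q ^ (-(1 / 2) : ℝ) : ℝ) : ℂ) * cexp (-om2 δ x))) -
        c * ((δ : ℂ) - x * I) ^ (-(kk (k w0) (k w1) : ℂ))‖ ≤
        C * δ ^ (-kk (k w0) (k w1) + 3 / 100) * (1 + |x| / δ) ^ 2 := by
  classical
  have hP : Prim n (Lat.ds b 1) ![0, 1] := HSG.N.h2_prim n b
  obtain ⟨v0, hv0⟩ := gmm_pt hq (b := b) hQ hlam hprod
  obtain ⟨c1, hc1⟩ := gmm_slash hq hF hP hlam
  have hP' : Prim n ((Lat.ds b 1).mul (gmm lam))
      (Matrix.vecMul ![0, 1] (gmm lam : Matrix (Fin 2) (Fin 2) K)) :=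
    (HSG.N.prim_mul n (Lat.ds b 1) ![0, 1] (gmm lam)).2 hP
  obtain ⟨ν, hν⟩ : ∃ ν : ℝ, ν = μ w0 - μ w1 := ⟨_, rfl⟩
  set V : ℝ := |v0| + ℓ with hV
  have hℓ : 0 < ℓ := hq.pos
  obtain ⟨C2, hC2, hwt⟩ := wt_est (k w0) (k w1) ν V
  obtain ⟨c3, C3, hc3, hC3, him⟩ := hh_im V
  obtain ⟨c4, hc4⟩ := curve_form hq hn hk hF hP'
  set B : ℝ := max (max 1 |ν|) C2 with hB
  have hB1 : 1 ≤ B := (le_max_left _ _).trans (le_max_left _ _)
  have hBν : |ν| ≤ B := (le_max_right _ _).trans (le_max_left _ _)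
  have hBC : C2 ≤ B := le_max_right _ _
  set g : ℝ → ℂ := fun v => cexp (ν * I * v) with hg
  obtain ⟨C5, hC5, h5⟩ := hc4 v0 (v0 + ℓ) (by linarith) g B (by linarith)
    (by
      intro v _
      have h1 : ‖g v‖ = 1 := by
        have : (ν * I * v : ℂ) = ((ν * v : ℝ) : ℂ) * I := by push_cast; ring
        rw [hg]
        simp only
        rw [this, Complex.norm_exp_ofReal_mul_I]
      rw [h1]
      exact hB1)
    (by
      intro v _ v' _
      exact (gg_lip ν v v').trans (mul_le_mul_of_nonneg_right hBν (abs_nonneg _)))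
  set s : ℂ := ((k w0 : ℂ) - k w1) / 2 + ν * I with hs
  set e : ℂ := cexp (-(s * v0)) with he
  set nb : ℂ := ((nI b ^ (-(((k w0 : ℝ) + k w1) / 4)) : ℝ) : ℂ) with hnb
  refine ⟨nb * (c1 * e) * (c4 * ∫ v in v0..(v0 + ℓ), g v), ‖nb * (c1 * e)‖ * C5, ?_⟩
  intro δ x hδ hδ1 hx
  -- the weight
  set wt : ℝ → ℂ := fun t => (1 + -hh (t - om2 δ x)) ^ k w0 * (1 + hh (t + om2 δ x)) ^ k w1 *
    cexp (s * t) with hwtd
  have hcont := hh_cont (x := x) hδ hδ1
  have hwtc : Continuous wt := by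
    refine Continuous.mul (Continuous.mul ?_ ?_) ?_
    · exact (continuous_const.add hcont.1.neg).pow _
    · exact (continuous_const.add hcont.2).pow _
    · exact Complex.continuous_exp.comp (continuous_const.mul Complex.continuous_ofReal)
  have hVt : ∀ t ∈ Set.Icc v0 (v0 + ℓ), |t| ≤ V := by
    intro t ht
    have h1 := neg_abs_le v0
    have h2 := le_abs_self v0
    rw [abs_le]
    constructor
    · rw [hV]; linarith [ht.1]
    · rw [hV]; linarith [ht.2]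
  have h6 := h5 δ x hδ hδ1 hx wt hwtc.continuousOn (by
    intro v hv
    have h7 := (hwt v δ x (hVt v hv) hδ hδ1 hx).1
    exact h7.trans (mul_le_mul_of_nonneg_right hBC (by positivity)))
  -- the integral
  have hint : Gb w0 w1 ℓ k μ F b (-(((Q ^ (-(1 / 2) : ℝ) : ℝ) : ℂ) * cexp (-om2 δ x))) =
      nb * (c1 * e) * ∫ t in v0..(v0 + ℓ),
        F (v2 w0 (ofComplex (-hh (t - om2 δ x))) (ofComplex (hh (t + om2 δ x))))
          ((Lat.ds b 1).mul (gmm lam)) (Matrix.vecMul ![0, 1]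
            (gmm lam : Matrix (Fin 2) (Fin 2) K)) * wt t := by
    unfold Gb
    rw [← hnb, mul_assoc nb]
    congr 1
    have e1 : ∀ f : ℝ → ℂ, ∫ t in v0..(v0 + ℓ), f t = ∫ v in (0 : ℝ)..ℓ, f (v + v0) := by
      intro f
      rw [intervalIntegral.integral_comp_add_right, zero_add, add_comm ℓ v0]
    rw [e1, ← intervalIntegral.integral_const_mul]
    apply intervalIntegral.integral_congr
    intro v hv
    rw [Set.uIcc_of_le hℓ.le] at hv
    have htm : v + v0 ∈ Set.Icc v0 (v0 + ℓ) := ⟨by linarith [hv.1], by linarith [hv.2]⟩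
    have him' := him (v + v0) δ x (hVt _ htm) hδ hδ1 hx
    have hi1 : 0 < (-hh (((v + v0 : ℝ) : ℂ) - om2 δ x)).im :=
      lt_of_lt_of_le (by positivity) him'.2.2.1
    have hi2 : 0 < (hh (((v + v0 : ℝ) : ℂ) + om2 δ x)).im :=
      lt_of_lt_of_le (by positivity) him'.1
    have h8 := hc1 (ofComplex (-hh (((v + v0 : ℝ) : ℂ) - om2 δ x)))
      (ofComplex (hh (((v + v0 : ℝ) : ℂ) + om2 δ x)))
    rw [gg_coe hi1, gg_coe hi2] at h8
    have h9 : cexp ((((k w0 : ℂ) - k w1) / 2 + (μ w0 - μ w1) * I) * v) =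
        e * cexp (s * ((v + v0 : ℝ) : ℂ)) := by
      rw [he, ← Complex.exp_add, hs, hν]
      congr 1
      push_cast
      ring
    simp only
    rw [hv0 v δ x hδ hδ1, h8, h9]
    simp only [hwtd]
    ring
  rw [hint]
  have h10 : nb * (c1 * e) * (∫ t in v0..(v0 + ℓ),
        F (v2 w0 (ofComplex (-hh (t - om2 δ x))) (ofComplex (hh (t + om2 δ x))))
          ((Lat.ds b 1).mul (gmm lam)) (Matrix.vecMul ![0, 1]
            (gmm lam : Matrix (Fin 2) (Fin 2) K)) * wt t) -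
      nb * (c1 * e) * (c4 * ∫ v in v0..(v0 + ℓ), g v) *
        ((δ : ℂ) - x * I) ^ (-(kk (k w0) (k w1) : ℂ)) =
      nb * (c1 * e) * ((∫ t in v0..(v0 + ℓ),
        F (v2 w0 (ofComplex (-hh (t - om2 δ x))) (ofComplex (hh (t + om2 δ x))))
          ((Lat.ds b 1).mul (gmm lam)) (Matrix.vecMul ![0, 1]
            (gmm lam : Matrix (Fin 2) (Fin 2) K)) * wt t) -
        c4 * ((δ : ℂ) - x * I) ^ (-(kk (k w0) (k w1) : ℂ)) * ∫ v in v0..(v0 + ℓ), g v) := by
    ring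
  rw [h10, norm_mul, mul_assoc ‖nb * (c1 * e)‖, mul_assoc ‖nb * (c1 * e)‖]
  exact mul_le_mul_of_nonneg_left h6 (norm_nonneg _)


end Pool.Agent.HL4
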