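import Pool.Agent.Lib_helper68.HL4.Defs3
import Pool.Agent.Lib_helper68.HL4F.CB
import Pool.Agent.Lib_helper68.HL4F.CD
import Pool.Agent.Lib_helper68.HL4F.GA
import Pool.Agent.Lib_helper68.HL4F.GB
import Pool.Agent.Lib_helper68.HL4F.GD
import Pool.Agent.Lib_helper68.HL4F.GE
import Pool.Agent.Lib_helper98.HNF.A2
import Pool.Agent.Lib_helper98.HNF.H2
/-!
# HL4, block GH: one class, positive axis (helper16; after the block GG of helper20)
-/

namespace Pool.Agent.HL4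

open UpperHalfPlane hiding I
open Complex MeasureTheory Filter Topology NumberField
open Pool.Agent.HSG (Em Lat IsInt nI NCl dgm lz)
open Pool.Agent.HSG.N (Prim LForm QF v2 HK LamH GG Gb pz)
open scoped nonZeroDivisors MatrixGroups

variable {K : Type} [Field K] [NumberField K]

theorem gh_coe {z : ℂ} (h : 0 < z.im) : ((ofComplex z : ℍ) : ℂ) = z := by
  rw [ofComplex_apply_of_im_pos h]

theorem gh_norm (ν v : ℝ) : ‖cexp (-(ν * I) * v)‖ = 1 := by
  have : (-(ν * I) * v : ℂ) = ((-(ν * v) : ℝ) : ℂ) * I := by push_cast; ring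
  rw [this, Complex.norm_exp_ofReal_mul_I]

theorem gh_lip (ν : ℝ) (v v' : ℝ) :
    ‖cexp (-(ν * I) * v) - cexp (-(ν * I) * v')‖ ≤ |ν| * |v - v'| := by
  have h1 : cexp (-(ν * I) * v) - cexp (-(ν * I) * v') =
      cexp (-(ν * I) * v') * (cexp (I * ((-(ν * (v - v')) : ℝ) : ℂ)) - 1) := by
    rw [mul_sub, mul_one, ← Complex.exp_add]
    congr 2
    push_cast
    ring
  rw [h1, norm_mul, gh_norm, one_mul, ← abs_mul, ← abs_neg (ν * (v - v'))]
  exact Real.norm_exp_I_mul_ofReal_sub_one_le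

/-- GH: one class, positive axis -/
theorem gb_as' [IsTotallyReal K] {w0 w1 : Em K} {ε : Kˣ} {ℓ : ℝ}
    (hq : QF w0 w1 ε ℓ) {n : HSG.Id K} (hn : IsInt n) {k : Em K → ℕ} (hk : ∀ w, 1 ≤ k w)
    {μ : Em K → ℝ} {om : HSG.Id K → ℂ}
    {F : (Em K → ℍ) → Lat K → (Fin 2 → K) → ℂ} (hF : LForm n k μ om F) {b : HSG.Id K} {Q : ℝ}
    (hQ : 0 < Q) {lam : Kˣ} (hlam : ∀ w : Em K, 0 < w (lam : K))
    (hprod : w0 (lam : K) * w1 (lam : K) = 1 / (Q * nI b)) :
    ∃ (c : ℂ) (C : ℝ), ∀ δ x : ℝ, 0 < δ → δ ≤ 1 → |x| ≤ 1 →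
      ‖Gb w0 w1 ℓ k μ F b (((Q ^ (-(1 / 2) : ℝ) : ℝ) : ℂ) * cexp (om2 δ x)) -
        c * ((δ : ℂ) - x * I) ^ (-(kk (k w0) (k w1) : ℂ))‖ ≤
        C * δ ^ (-kk (k w0) (k w1) + 3 / 100) * (1 + |x| / δ) ^ 2 := by
  classical
  have hP : Prim n (Lat.ds b 1) ![0, 1] := HSG.N.h2_prim n b
  obtain ⟨v0, hv0⟩ := gpp_pt hq (b := b) hQ hlam hprod
  obtain ⟨c1, hc1⟩ := gpp_slash hq hF hP hlam
  have hP' : Prim n ((Lat.ds b 1).mul (gpp lam))
      (Matrix.vecMul ![0, 1] (gpp lam : Matrix (Fin 2) (Fin 2) K)) :=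
    (HSG.N.prim_mul n (Lat.ds b 1) ![0, 1] (gpp lam)).2 hP
  obtain ⟨ν, hν⟩ : ∃ ν : ℝ, ν = μ w0 - μ w1 := ⟨_, rfl⟩
  set V : ℝ := |v0| + ℓ with hV
  have hℓ : 0 < ℓ := hq.pos
  obtain ⟨C2, hC2, hwt⟩ := wt_est (k w0) (k w1) ν V
  obtain ⟨c3, C3, hc3, hC3, him⟩ := hh_im V
  obtain ⟨c4, hc4⟩ := curve_form hq hn hk hF hP'
  set B : ℝ := max (max 1 |ν|) C2 with hB
  have hB1 : 1 ≤ B := (le_max_left _ _).trans (le_max_left _ _)
  have hBν : |ν| ≤ B := (le_max_right _ _).trans (le_max_left _ _)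
  have hBC : C2 ≤ B := le_max_right _ _
  set g : ℝ → ℂ := fun v => cexp (-(ν * I) * v) with hg
  obtain ⟨C5, hC5, h5⟩ := hc4 (-(v0 + ℓ)) (-v0) (by linarith) g B (by linarith)
    (by
      intro v _
      rw [hg]
      simp only
      rw [gh_norm]
      exact hB1)
    (by
      intro v _ v' _
      exact (gh_lip ν v v').trans (mul_le_mul_of_nonneg_right hBν (abs_nonneg _)))
  set s : ℂ := ((k w0 : ℂ) - k w1) / 2 + ν * I with hs
  set e : ℂ := cexp (-(s * v0)) with he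
  set nb : ℂ := ((nI b ^ (-(((k w0 : ℝ) + k w1) / 4)) : ℝ) : ℂ) with hnb
  refine ⟨nb * (c1 * e) * (c4 * ∫ v in (-(v0 + ℓ))..(-v0), g v), ‖nb * (c1 * e)‖ * C5, ?_⟩
  intro δ x hδ hδ1 hx
  -- the weight
  set wt : ℝ → ℂ := fun t => (1 - -hh (t - om2 δ x)) ^ k w0 * (1 - hh (t + om2 δ x)) ^ k w1 *
    cexp (-s * t) with hwtd
  have hcont := hh_cont (x := x) hδ hδ1
  have hwtc : Continuous wt := by
    refine Continuous.mul (Continuous.mul ?_ ?_) ?_
    · exact (continuous_const.sub hcont.1.neg).pow _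
    · exact (continuous_const.sub hcont.2).pow _
    · exact Complex.continuous_exp.comp (continuous_const.mul Complex.continuous_ofReal)
  have hVt : ∀ t ∈ Set.Icc (-(v0 + ℓ)) (-v0), |t| ≤ V := by
    intro t ht
    have h1 := neg_abs_le v0
    have h2 := le_abs_self v0
    rw [abs_le]
    constructor
    · rw [hV]; linarith [ht.1]
    · rw [hV]; linarith [ht.2]
  have h6 := h5 δ x hδ hδ1 hx wt hwtc.continuousOn (by
    intro v hv
    have h7 := (hwt v δ x (hVt v hv) hδ hδ1 hx).2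
    exact h7.trans (mul_le_mul_of_nonneg_right hBC (by positivity)))
  -- the integral
  have hint : Gb w0 w1 ℓ k μ F b (((Q ^ (-(1 / 2) : ℝ) : ℝ) : ℂ) * cexp (om2 δ x)) =
      nb * (c1 * e) * ∫ t in (-(v0 + ℓ))..(-v0),
        F (v2 w0 (ofComplex (-hh (t - om2 δ x))) (ofComplex (hh (t + om2 δ x))))
          ((Lat.ds b 1).mul (gpp lam)) (Matrix.vecMul ![0, 1]
            (gpp lam : Matrix (Fin 2) (Fin 2) K)) * wt t := by
    unfold Gb
    rw [← hnb, mul_assoc nb]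
    congr 1
    have e1 : ∀ f : ℝ → ℂ, ∫ t in (-(v0 + ℓ))..(-v0), f t =
        ∫ v in (0 : ℝ)..ℓ, f (-(v + v0)) := by
      intro f
      rw [intervalIntegral.integral_comp_add_right (fun u => f (-u)), zero_add, add_comm ℓ v0,
        intervalIntegral.integral_comp_neg]
    rw [e1, ← intervalIntegral.integral_const_mul]
    apply intervalIntegral.integral_congr
    intro v hv
    rw [Set.uIcc_of_le hℓ.le] at hv
    have htm : -(v + v0) ∈ Set.Icc (-(v0 + ℓ)) (-v0) := ⟨by linarith [hv.2], by linarith [hv.1]⟩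
    have him' := him (-(v + v0)) δ x (hVt _ htm) hδ hδ1 hx
    have hi1 : 0 < (-hh (((-(v + v0) : ℝ) : ℂ) - om2 δ x)).im :=
      lt_of_lt_of_le (by positivity) him'.2.2.1
    have hi2 : 0 < (hh (((-(v + v0) : ℝ) : ℂ) + om2 δ x)).im :=
      lt_of_lt_of_le (by positivity) him'.1
    have h8 := hc1 (ofComplex (-hh (((-(v + v0) : ℝ) : ℂ) - om2 δ x)))
      (ofComplex (hh (((-(v + v0) : ℝ) : ℂ) + om2 δ x)))
    rw [gh_coe hi1, gh_coe hi2] at h8
    have h9 : cexp ((((k w0 : ℂ) - k w1) / 2 + (μ w0 - μ w1) * I) * v) =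
        e * cexp (-s * ((-(v + v0) : ℝ) : ℂ)) := by
      rw [he, ← Complex.exp_add, hs, hν]
      congr 1
      push_cast
      ring
    simp only
    rw [hv0 v δ x hδ hδ1, h8, h9]
    simp only [hwtd]
    ring
  rw [hint]
  have h10 : nb * (c1 * e) * (∫ t in (-(v0 + ℓ))..(-v0),
        F (v2 w0 (ofComplex (-hh (t - om2 δ x))) (ofComplex (hh (t + om2 δ x))))
          ((Lat.ds b 1).mul (gpp lam)) (Matrix.vecMul ![0, 1]
            (gpp lam : Matrix (Fin 2) (Fin 2) K)) * wt t) -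
      nb * (c1 * e) * (c4 * ∫ v in (-(v0 + ℓ))..(-v0), g v) *
        ((δ : ℂ) - x * I) ^ (-(kk (k w0) (k w1) : ℂ)) =
      nb * (c1 * e) * ((∫ t in (-(v0 + ℓ))..(-v0),
        F (v2 w0 (ofComplex (-hh (t - om2 δ x))) (ofComplex (hh (t + om2 δ x))))
          ((Lat.ds b 1).mul (gpp lam)) (Matrix.vecMul ![0, 1]
            (gpp lam : Matrix (Fin 2) (Fin 2) K)) * wt t) -
        c4 * ((δ : ℂ) - x * I) ^ (-(kk (k w0) (k w1) : ℂ)) *
          ∫ v in (-(v0 + ℓ))..(-v0), g v) := by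
    ring
  rw [h10, norm_mul, mul_assoc ‖nb * (c1 * e)‖, mul_assoc ‖nb * (c1 * e)‖]
  exact mul_le_mul_of_nonneg_left h6 (norm_nonneg _)


end Pool.Agent.HL4
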