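import Pool.Agent.Lib_helper68.HL4.Defs3
import Pool.Agent.Lib_helper68.HL4F.GF
import Pool.Agent.Lib_helper68.HL4F.GG
import Pool.Agent.Lib_helper68.HL4F.GH
/-!
# HL4, block GI: (G), sum over the classes
-/

namespace Pool.Agent.HL4

open UpperHalfPlane hiding I
open Complex MeasureTheory Filter Topology NumberField
open Pool.Agent.HSG (Em Lat IsInt nI NCl dgm lz)
open Pool.Agent.HSG.N (Prim LForm QF v2 HK LamH GG Gb pz)
open scoped nonZeroDivisors MatrixGroups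

theorem gi_sum {A : Type} [Fintype A] (f : A → ℝ → ℝ → ℂ) (κ : ℝ)
    (h : ∀ a, ∃ (c : ℂ) (C : ℝ), ∀ δ x : ℝ, 0 < δ → δ ≤ 1 → |x| ≤ 1 →
      ‖f a δ x - c * ((δ : ℂ) - x * I) ^ (-(κ : ℂ))‖ ≤
        C * δ ^ (-κ + 3 / 100) * (1 + |x| / δ) ^ 2) :
    ∃ (c : ℂ) (C : ℝ), ∀ δ x : ℝ, 0 < δ → δ ≤ 1 → |x| ≤ 1 →
      ‖(∑ a, f a δ x) - c * ((δ : ℂ) - x * I) ^ (-(κ : ℂ))‖ ≤
        C * δ ^ (-κ + 3 / 100) * (1 + |x| / δ) ^ 2 := by
  choose c C h using h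
  refine ⟨∑ a, c a, ∑ a, C a, fun δ x h0 h1 hx => ?_⟩
  rw [Finset.sum_mul, ← Finset.sum_sub_distrib, Finset.sum_mul, Finset.sum_mul]
  refine (norm_sum_le _ _).trans ?_
  exact Finset.sum_le_sum fun a _ => h a δ x h0 h1 hx

theorem gi_conj {f : ℝ → ℝ → ℂ} {κ : ℝ}
    (h : ∃ (c : ℂ) (C : ℝ), ∀ δ x : ℝ, 0 < δ → δ ≤ 1 → |x| ≤ 1 →
      ‖f δ x - c * ((δ : ℂ) - x * I) ^ (-(κ : ℂ))‖ ≤
        C * δ ^ (-κ + 3 / 100) * (1 + |x| / δ) ^ 2) :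
    ∃ (c : ℂ) (C : ℝ), ∀ δ x : ℝ, 0 < δ → δ ≤ 1 → |x| ≤ 1 →
      ‖(starRingEnd ℂ) (f δ (-x)) - c * ((δ : ℂ) - x * I) ^ (-(κ : ℂ))‖ ≤
        C * δ ^ (-κ + 3 / 100) * (1 + |x| / δ) ^ 2 := by
  obtain ⟨c, C, h⟩ := h
  refine ⟨(starRingEnd ℂ) c, C, fun δ x h0 h1 hx => ?_⟩
  have h2 := h δ (-x) h0 h1 (by rwa [abs_neg])
  rw [abs_neg] at h2
  have h3 : (starRingEnd ℂ) (((δ : ℂ) - ((-x : ℝ) : ℂ) * I) ^ (-(κ : ℂ))) =
      ((δ : ℂ) - x * I) ^ (-(κ : ℂ)) := by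
    have harg : ((δ : ℂ) - ((-x : ℝ) : ℂ) * I).arg ≠ Real.pi := by
      intro hh
      rw [Complex.arg_eq_pi_iff] at hh
      have h5 := hh.1
      simp at h5
      linarith
    have h4 := Complex.conj_cpow ((δ : ℂ) - ((-x : ℝ) : ℂ) * I) (-(κ : ℂ)) harg
    have e1 : (starRingEnd ℂ) (-(κ : ℂ)) = -(κ : ℂ) := by
      rw [map_neg, Complex.conj_ofReal]
    have e2 : (starRingEnd ℂ) ((δ : ℂ) - ((-x : ℝ) : ℂ) * I) = (δ : ℂ) - x * I := by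
      rw [map_sub, map_mul, Complex.conj_ofReal, Complex.conj_ofReal, Complex.conj_I]
      push_cast
      ring
    rw [e1, e2] at h4
    exact h4.symm
  have e : (starRingEnd ℂ) (f δ (-x)) - (starRingEnd ℂ) c * ((δ : ℂ) - x * I) ^ (-(κ : ℂ)) =
      (starRingEnd ℂ) (f δ (-x) - c * ((δ : ℂ) - ((-x : ℝ) : ℂ) * I) ^ (-(κ : ℂ))) := by
    rw [map_sub, map_mul, h3]
  rw [e, Complex.norm_conj]
  exact h2

variable {K : Type} [Field K] [NumberField K]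

theorem gg_as [IsTotallyReal K] [Fintype (NCl K)] {w0 w1 : Em K} {ε : Kˣ} {ℓ : ℝ}
    (hq : QF w0 w1 ε ℓ) {n : HSG.Id K} (hn : IsInt n) {k : Em K → ℕ} (hk : ∀ w, 1 ≤ k w)
    {μ : Em K → ℝ} {om : HSG.Id K → ℂ}
    {F : (Em K → ℍ) → Lat K → (Fin 2 → K) → ℂ} (hF : LForm n k μ om F)
    (hA : ∃ m : HSG.Id K, nI n = nI m ^ 2)
    (hB : ∀ b : HSG.Id K, ∃ x : K, nI b = ((Algebra.norm ℚ x : ℚ) : ℝ)) :
    GAs (k w0 + k w1) (√(nI n)) (GG w0 w1 ℓ k μ F) ∧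
    GAs (k w0 + k w1) (√(nI n)) (fun z => (starRingEnd ℂ)
      (GG w0 w1 ℓ k μ F (-(starRingEnd ℂ) z))) := by
  have hQ : 0 < √(nI n) := by
    obtain ⟨lam, h1, h2⟩ := lam_exists hq hA hB (n : HSG.Id K)
    have h3 : 0 < 1 / (√(nI n) * nI n) := by
      rw [← h2]
      exact mul_pos (h1 w0) (h1 w1)
    refine lt_of_le_of_ne (Real.sqrt_nonneg _) fun h => ?_
    rw [← h, zero_mul, div_zero] at h3
    exact lt_irrefl _ h3
  have e1 : (((k w0 + k w1 : ℕ) : ℂ) / 2) = ((kk (k w0) (k w1) : ℝ) : ℂ) := by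
    unfold kk
    push_cast
    ring
  have e2 : (((k w0 + k w1 : ℕ) : ℝ) / 2) = kk (k w0) (k w1) := by
    unfold kk
    push_cast
    ring
  constructor
  · unfold GAs
    rw [e1, e2]
    refine gi_sum (fun (κ : NCl K) δ x => Gb w0 w1 ℓ k μ F κ.out
      (-(((√(nI n) ^ (-(1 / 2) : ℝ) : ℝ) : ℂ) * cexp (-om2 δ x)))) _ fun κ => ?_
    obtain ⟨lam, h1, h2⟩ := lam_exists hq hA hB (κ.out : HSG.Id K)
    exact gb_as hq hn hk hF hQ h1 h2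
  · unfold GAs
    rw [e1, e2]
    have hz : ∀ δ x : ℝ, -(starRingEnd ℂ) (-(((√(nI n) ^ (-(1 / 2) : ℝ) : ℝ) : ℂ) *
        cexp (-om2 δ x))) =
        ((√(nI n) ^ (-(1 / 2) : ℝ) : ℝ) : ℂ) * cexp (om2 δ (-x)) := by
      intro δ x
      rw [map_neg, neg_neg, map_mul, Complex.conj_ofReal, ← Complex.exp_conj]
      congr 2
      unfold om2
      rw [map_neg, map_div₀, map_add, map_mul, Complex.conj_ofReal, Complex.conj_ofReal,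
        Complex.conj_I, map_ofNat]
      push_cast
      ring
    have key := gi_sum (fun (κ : NCl K) δ x => (starRingEnd ℂ) (Gb w0 w1 ℓ k μ F κ.out
      (((√(nI n) ^ (-(1 / 2) : ℝ) : ℝ) : ℂ) * cexp (om2 δ (-x))))) (kk (k w0) (k w1))
      (fun κ => by
        obtain ⟨lam, h1, h2⟩ := lam_exists hq hA hB (κ.out : HSG.Id K)
        exact gi_conj (f := fun δ x => Gb w0 w1 ℓ k μ F κ.out
          (((√(nI n) ^ (-(1 / 2) : ℝ) : ℝ) : ℂ) * cexp (om2 δ x)))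
          (gb_as' hq hn hk hF hQ h1 h2))
    obtain ⟨c, C, hcC⟩ := key
    refine ⟨c, C, fun δ x h0 h1 hx => ?_⟩
    have h2 := hcC δ x h0 h1 hx
    beta_reduce
    rw [hz]
    unfold GG
    rw [map_sum]
    exact h2


end Pool.Agent.HL4
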